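import Pool.Agent.T9h51.PS.Up

/-!
# Adding places to `S`; change of the places `w_i`
-/

set_option autoImplicit false
set_option linter.unusedSectionVars false

open NumberField IsDedekindDomain Filter Topology

noncomputable section

namespace Pool.Agent.T9h51.PS

open Pool.Agent.K3h30.RS

variable {F H G : Type} [Field F] [NumberField F] [Field H] [NumberField H] [Algebra F H]
  [CommGroup G] [Finite G] [MulSemiringAction G H] [IsGaloisGroup G F H]

section add

variable [DecidableEq (HeightOneSpectrum (𝓞 F))] {v : HeightOneSpectrum (𝓞 F)} {S : Finset (HeightOneSpectrum (𝓞 F))}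
  {P : HeightOneSpectrum (𝓞 H)} {m : ℕ} {w : Fin (m + 1) → Place H}

theorem oth_insert (u : Place H) (h : Oth G S w u) : Oth G (insert v S) w u := ⟨inS_insert u h.1, h.2⟩

theorem oth_new (hv : v ∉ S) (hP : Above {v} P) (hw : System G S w) : Oth G (insert v S) w (Sum.inr P) :=
  ⟨(above_insert_iff P).2 (Or.inl hP), fun i hc => not_conj_P hv hP (hw.inS i) (conj_symm hc)⟩

theorem active_of_insert (hv : v ∉ S) (hP : Above {v} P) (hw : System G S w) {χ : G →* ℂˣ}
    (h : Active (insert v S) w χ) : Active S w χ := by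
  rw [active_iff] at h ⊢
  rcases h with h | ⟨-, h⟩
  · exact Or.inl fun u hu => h u (oth_insert u hu)
  · exfalso
    obtain ⟨u, hu⟩ := hw.more
    have h1 := h u (Sum.inr P) (oth_insert u hu) (oth_new hv hP hw)
    exact not_conj_P hv hP hu.1 h1

theorem system_insert (hw : System G S w) : System G (insert v S) w where
  inS i := inS_insert _ (hw.inS i)
  splits := hw.splits
  distinct := hw.distinct
  more := by
    obtain ⟨u, hu⟩ := hw.more
    exact ⟨u, oth_insert u hu⟩

/-- **From `S` to `S ∪ {v}`** with the same `w_i`. -/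
theorem popescu_add (Λ : LData F H G) (hS : Unram H S) (hv : v ∉ S) (hP : Above {v} P) (hw : System G S w)
    (h : Popescu Λ S w) : Popescu Λ (insert v S) w := by
  classical
  obtain ⟨u, hE, hL⟩ := h
  have hle : US H S ≤ US H (insert v S) := US_mono (Finset.subset_insert v S)
  have hU' := US_act (G := G) (H := H) (insert v S)
  let z : MonoidAlgebra ℤ G := 1 - MonoidAlgebra.single (Λ.σ v)⁻¹ 1
  have hz : ∀ χ : G →* ℂˣ, charValue χ (toR (toQ z)) = 1 - ((χ⁻¹ (Λ.σ v) : ℂˣ) : ℂ) := by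
    intro χ
    rw [Pool.Agent.K3h62.RS.charValue_eq]
    change Pool.Agent.K3h62.RS.cvHom χ (toR (toQ (1 - MonoidAlgebra.single (Λ.σ v)⁻¹ 1))) = _
    rw [map_sub, map_sub, map_sub, map_one, map_one, map_one]
    have h1 : toR (toQ (MonoidAlgebra.single (Λ.σ v)⁻¹ (1 : ℤ))) = MonoidAlgebra.single (Λ.σ v)⁻¹ (1 : ℝ) :=
      toRQ_single _
    rw [h1, Pool.Agent.K3h62.RS.cvHom_single, MonoidHom.inv_apply, map_inv]
    push_cast
    ring
  refine ⟨up hle (scale (toQ z) u), ⟨fun χ hχ k => ?_, fun χ hχ => ?_⟩, fun φ' => ?_⟩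
  · change charValue χ (toR (toQ z * u.c k)) = 0
    by_cases h1 : Active S w χ
    · have h2 : χ (Λ.σ v) = 1 := by
        by_contra hne
        apply hχ
        rw [active_iff] at h1 ⊢
        rcases h1 with h1 | ⟨h1, -⟩
        · refine Or.inl fun p hp => ?_
          rcases p with q | w'
          · exact h1 _ ⟨trivial, hp.2⟩
          · rcases (above_insert_iff w').1 hp.1 with h3 | h3
            · exact ⟨Λ.σ v, frob_fixes (Λ.frob v (hS v hv)) h3, hne⟩
            · exact h1 _ ⟨h3, hp.2⟩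
        · rw [h1] at hne
          exact absurd rfl hne
      rw [charValue_zero_of_mul]
      rw [hz, MonoidHom.inv_apply, h2]
      simp
    · rw [mul_comm]
      exact charValue_zero_of_mul χ _ _ (hE.inE χ h1 k)
  · have h1 := lim_insert Λ hS hv χ (m + 1) (hE.stark χ (active_of_insert hv hP hw hχ))
    have h2 : (up hle (scale (toQ z) u)).regulator w = toR (toQ z) * u.regulator w := by
      rw [regulator_eq_ev, ev_up, ev_scale]
      rfl
    have h3 : (1 - ((χ (Λ.σ v) : ℂˣ) : ℂ)) * ((-1) ^ (m + 1) * charValue χ⁻¹ (u.regulator w)) =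
        (-1) ^ (m + 1) * charValue χ⁻¹ ((up hle (scale (toQ z) u)).regulator w) := by
      rw [h2, Pool.Agent.K3h62.RS.charValue_mul, hz, MonoidHom.inv_apply, MonoidHom.inv_apply, inv_inv]
      ring
    rw [← h3]
    exact h1
  · obtain ⟨ε, hab, hε⟩ := hL fun a => res hle (φ' a)
    obtain ⟨n, hn⟩ := exists_isExp H G
    refine ⟨⟨gp z ((Subgroup.inclusion hle ε : US H (insert v S)) : Hˣ), gp_mem hU' _ (Subgroup.inclusion hle ε).2⟩, ?_,
      fun ψ' => ?_⟩
    · rw [ab_iff hn]
      exact ((ab_iff hn _).1 hab).gpow z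
    · have hψ : Equi (US H (insert v S)) (RingHom.id _) ψ'.f := fun γ x y hxy => ψ'.equiv γ x y hxy
      rw [hψ.gp hU' z (Subgroup.inclusion hle ε) _ rfl, RingHom.id_apply, map_mul]
      have h1 := hε (res hle ψ')
      have h2 : (up hle (scale (toQ z) u)).value (Fin.snoc φ' ψ' : Fin (m + 1) → GHom G (US H (insert v S))) =
          toQ z * u.value (Fin.snoc (fun a => res hle (φ' a)) (res hle ψ') : Fin (m + 1) → GHom G (US H S)) := by
        rw [value_eq, ev_up, ev_scale, RingHom.id_apply, value_res]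
        congr 2
        funext b
        refine Fin.lastCases ?_ (fun b => ?_) b
        · rw [Fin.snoc_last, Fin.snoc_last]
        · rw [Fin.snoc_castSucc, Fin.snoc_castSucc]
      rw [h2]
      have h3 : (res hle ψ').f (Additive.ofMul ε) = ψ'.f (Additive.ofMul (Subgroup.inclusion hle ε)) := rfl
      rw [← h3, ← h1]
      ring

end add

section transport

variable {S : Finset (HeightOneSpectrum (𝓞 F))} {m : ℕ} {w w' : Fin (m + 1) → Place H}

theorem popescu_transport (Λ : LData F H G) (ho : ∀ u, Oth G S w' u ↔ Oth G S w u) (z : MonoidAlgebra ℤ G)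
    (hz : ∀ u : Wedge G (m + 1) (US H S), toR (toQ z) * u.regulator w' = u.regulator w)
    (h : Popescu Λ S w) : Popescu Λ S w' := by
  obtain ⟨u, hE, hL⟩ := h
  have hU := US_act (G := G) (H := H) S
  refine ⟨scale (toQ z) u, ⟨fun χ hχ k => ?_, fun χ hχ => ?_⟩, fun φ => ?_⟩
  · change charValue χ (toR (toQ z * u.c k)) = 0
    rw [active_congr ho] at hχ
    rw [mul_comm]
    exact charValue_zero_of_mul χ _ _ (hE.inE χ hχ k)
  · rw [active_congr ho] at hχ
    have h1 := hE.stark χ hχ
    have h2 : (scale (toQ z) u).regulator w' = u.regulator w := by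
      rw [regulator_eq_ev, ev_scale, ← hz]
      rfl
    rw [h2]
    exact h1
  · obtain ⟨ε, hab, hε⟩ := hL φ
    obtain ⟨n, hn⟩ := exists_isExp H G
    refine ⟨⟨gp z (ε : Hˣ), gp_mem hU _ ε.2⟩, ?_, fun ψ => ?_⟩
    · rw [ab_iff hn]
      exact ((ab_iff hn _).1 hab).gpow z
    · have hψ : Equi (US H S) (RingHom.id _) ψ.f := fun γ x y hxy => ψ.equiv γ x y hxy
      rw [hψ.gp hU z ε _ rfl, RingHom.id_apply, map_mul, ← hε ψ, value_eq, ev_scale, ← value_eq, RingHom.id_apply]
      ring

theorem ev_col_mul {R : Type} [CommRing R] {r : ℕ} {U : Subgroup Hˣ} (κ : MonoidAlgebra ℚ G →+* R) (u : Wedge G r U)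
    (E E' : Fin r → Additive U →+ R) (c : Fin r → R) (h : ∀ a x, E' a x = c a * E a x) :
    ev κ u E' = (∏ a, c a) * ev κ u E := by
  unfold ev
  rw [Finset.mul_sum]
  refine Finset.sum_congr rfl fun k _ => ?_
  have h4 := Matrix.det_mul_column c (Matrix.of fun a b => E a (Additive.ofMul (u.x k b)))
  have h5 : (Matrix.of fun a b => E' a (Additive.ofMul (u.x k b))) =
      Matrix.of fun i j => c i * (Matrix.of fun a b => E a (Additive.ofMul (u.x k b))) i j := by
    ext a b
    exact h a _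
  rw [h5, h4]
  ring

theorem regulator_change (τ : Equiv.Perm (Fin (m + 1))) (γ : Fin (m + 1) → G)
    (hγ : ∀ i, ∀ x : H, av (w' i) x = av (w (τ i)) (γ i • x)) (u : Wedge G (m + 1) (US H S)) :
    u.regulator w' = ((Equiv.Perm.sign τ : ℤ) : MonoidAlgebra ℝ G) *
      ((∏ i, MonoidAlgebra.single (γ i) (1 : ℝ)) * u.regulator w) := by
  have h1 : u.regulator w' = (∏ i, MonoidAlgebra.single (γ i) (1 : ℝ)) * ev (toR (G := G)) u
      ((fun a => regHom G (w a) (US H S)) ∘ τ) :=
    ev_col_mul (toR (G := G)) u ((fun a => regHom G (w a) (US H S)) ∘ τ) (fun a => regHom G (w' a) (US H S))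
      (fun i => MonoidAlgebra.single (γ i) (1 : ℝ)) fun a x => reg_conj (hγ a) _
  rw [h1, ev_perm]
  change _ * (_ * u.regulator w) = _
  rw [mul_left_comm]

/-- the conjecture does not depend on the order of the `v_i` and the choice of the `w_i` -/
theorem popescu_change (Λ : LData F H G) (τ : Equiv.Perm (Fin (m + 1))) (hc : ∀ i, Conj G (w' i) (w (τ i)))
    (h : Popescu Λ S w) : Popescu Λ S w' := by
  choose γ hγ using hc
  have hs : ((Equiv.Perm.sign τ : ℤ) : MonoidAlgebra ℤ G) * ((Equiv.Perm.sign τ : ℤ) : MonoidAlgebra ℤ G) = 1 := by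
    rw [← Int.cast_mul, ← Units.val_mul, Int.units_mul_self, Units.val_one, Int.cast_one]
  refine popescu_transport Λ (fun u => ?_) ((Equiv.Perm.sign τ : ℤ) * ∏ i, MonoidAlgebra.single (γ i)⁻¹ (1 : ℤ))
    (fun u => ?_) h
  · refine and_congr_right fun _ => ?_
    constructor
    · intro h1 i hi
      apply h1 (τ.symm i)
      have h2 := conj_symm (⟨γ (τ.symm i), hγ (τ.symm i)⟩ : Conj G (w' (τ.symm i)) (w (τ (τ.symm i))))
      rw [Equiv.apply_symm_apply] at h2
      exact conj_trans hi h2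
    · intro h1 i hi
      exact h1 (τ i) (conj_trans hi ⟨γ i, hγ i⟩)
  · have h1 := regulator_change τ γ hγ u
    have h2 : ((toR (G := G)).comp toQ) ((Equiv.Perm.sign τ : ℤ) * ∏ i, MonoidAlgebra.single (γ i)⁻¹ (1 : ℤ)) =
        ((Equiv.Perm.sign τ : ℤ) : MonoidAlgebra ℝ G) * ∏ i, MonoidAlgebra.single (γ i)⁻¹ (1 : ℝ) := by
      rw [map_mul, map_intCast, map_prod]
      simp only [toRQ_single]
    have h3 : (∏ i, MonoidAlgebra.single (γ i)⁻¹ (1 : ℝ)) * ∏ i, MonoidAlgebra.single (γ i) (1 : ℝ) = 1 := by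
      rw [← Finset.prod_mul_distrib]
      refine Finset.prod_eq_one fun i _ => ?_
      rw [MonoidAlgebra.single_mul_single, inv_mul_cancel, one_mul]
      rfl
    have h4 : ((Equiv.Perm.sign τ : ℤ) : MonoidAlgebra ℝ G) * ((Equiv.Perm.sign τ : ℤ) : MonoidAlgebra ℝ G) = 1 := by
      rw [← Int.cast_mul, ← Units.val_mul, Int.units_mul_self, Units.val_one, Int.cast_one]
    change ((toR (G := G)).comp toQ) _ * _ = _
    rw [h2, h1]
    calc _ = (((Equiv.Perm.sign τ : ℤ) : MonoidAlgebra ℝ G) * ((Equiv.Perm.sign τ : ℤ) : MonoidAlgebra ℝ G)) *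
          (((∏ i, MonoidAlgebra.single (γ i)⁻¹ (1 : ℝ)) * ∏ i, MonoidAlgebra.single (γ i) (1 : ℝ)) * u.regulator w) := by
          ring
      _ = _ := by rw [h3, h4, one_mul, one_mul]

/-- the case without characters -/
theorem popescu_trivial (Λ : LData F H G) (h : ∀ χ : G →* ℂˣ, ¬ Active S w χ) : Popescu Λ S w := by
  obtain ⟨n, hn⟩ := exists_isExp H G
  refine ⟨⟨0, Fin.elim0, Fin.elim0⟩, ⟨fun χ _ k => k.elim0, fun χ hχ => absurd hχ (h χ)⟩, fun φ => ⟨1, ?_, fun ψ => ?_⟩⟩
  · rw [ab_iff hn]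
    exact Kum.one n
  · have h1 : (⟨0, Fin.elim0, Fin.elim0⟩ : Wedge G (m + 1) (US H S)).value (Fin.snoc φ ψ) = 0 := by
      unfold Wedge.value
      exact Finset.sum_of_isEmpty _
    rw [h1, mul_zero, ofMul_one, map_zero, map_zero]

end transport

end Pool.Agent.T9h51.PS
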