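import Pool.Agent.K3h30.RS.Act

/-!
# Popescu's conjecture: contraction of wedges, homomorphisms to the group ring
-/

set_option autoImplicit false
set_option linter.unusedSectionVars false

open NumberField IsDedekindDomain

noncomputable section

namespace Pool.Agent.T9h51.PS

open Pool.Agent.K3h30.RS

/-- the contraction of a determinant -/
theorem contr_det {R : Type} [CommRing R] {r : ℕ} (f0 : Fin (r + 1) → R) (F : Fin r → Fin (r + 1) → R)
    (P : Fin r → R) (h : R) :
    ∑ b : Fin (r + 1), (-1) ^ (b : ℕ) * f0 b *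
      Matrix.det (Matrix.of fun (a : Fin r) (b' : Fin r) => h * F a (b.succAbove b') - f0 (b.succAbove b') * P a) =
      h ^ r * Matrix.det (Matrix.of (Fin.cons f0 F : Fin (r + 1) → Fin (r + 1) → R)) := by
  have h1 : Matrix.det (Matrix.of (Fin.cons f0 (fun a b => h * F a b - f0 b * P a) : Fin (r + 1) → Fin (r + 1) → R)) =
      ∑ b : Fin (r + 1), (-1) ^ (b : ℕ) * f0 b *
      Matrix.det (Matrix.of fun (a : Fin r) (b' : Fin r) => h * F a (b.succAbove b') - f0 (b.succAbove b') * P a) := by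
    rw [Matrix.det_succ_row_zero]
    rfl
  have h2 : Matrix.det (Matrix.of (Fin.cons f0 (fun a b => h * F a b - f0 b * P a) : Fin (r + 1) → Fin (r + 1) → R)) =
      Matrix.det (Matrix.of (Fin.cons f0 (fun a b => h * F a b) : Fin (r + 1) → Fin (r + 1) → R)) := by
    refine Matrix.det_eq_of_forall_row_eq_smul_add_const (Fin.cons 0 (fun a => - P a) : Fin (r + 1) → R) 0 rfl ?_
    intro i j
    refine Fin.cases ?_ (fun a => ?_) i
    · simp
    · simp only [Matrix.of_apply, Fin.cons_succ, Fin.cons_zero]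
      ring
  have h3 : Matrix.det (Matrix.of (Fin.cons f0 (fun a b => h * F a b) : Fin (r + 1) → Fin (r + 1) → R)) =
      h ^ r * Matrix.det (Matrix.of (Fin.cons f0 F : Fin (r + 1) → Fin (r + 1) → R)) := by
    have h4 := Matrix.det_mul_column (Fin.cons 1 (fun _ => h) : Fin (r + 1) → R)
      (Matrix.of (Fin.cons f0 F : Fin (r + 1) → Fin (r + 1) → R))
    rw [Fin.prod_univ_succ] at h4
    simp only [Fin.cons_zero, Fin.cons_succ, Finset.prod_const, Finset.card_univ, Fintype.card_fin, one_mul] at h4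
    rw [← h4]
    congr 1
    ext i j
    refine Fin.cases ?_ (fun a => ?_) i
    · simp
    · simp
  rw [← h1, h2, h3]

section gp

variable {H G : Type} [Field H] [CommGroup G] [MulSemiringAction G H]

/-- the power of `x` with exponent in the group ring -/
def gp (z : MonoidAlgebra ℤ G) (x : Hˣ) : Hˣ := z.coeff.prod fun γ n => act γ x ^ n

theorem gp_add (z z' : MonoidAlgebra ℤ G) (x : Hˣ) : gp (z + z') x = gp z x * gp z' x := by
  classical
  unfold gp
  rw [MonoidAlgebra.coeff_add]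
  exact Finsupp.prod_add_index' (fun _ => zpow_zero _) (fun _ _ _ => zpow_add _ _ _)

theorem gp_zero (x : Hˣ) : gp (0 : MonoidAlgebra ℤ G) x = 1 := by
  unfold gp
  simp

theorem gp_single (γ : G) (n : ℤ) (x : Hˣ) : gp (MonoidAlgebra.single γ n) x = act γ x ^ n := by
  unfold gp
  rw [MonoidAlgebra.coeff_single]
  exact Finsupp.prod_single_index (zpow_zero _)

/-- the power as a homomorphism in the exponent -/
def gpHom (x : Hˣ) : MonoidAlgebra ℤ G →+ Additive Hˣ where
  toFun z := Additive.ofMul (gp z x)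
  map_zero' := by rw [gp_zero]; rfl
  map_add' z z' := by rw [gp_add]; rfl

theorem gp_neg (z : MonoidAlgebra ℤ G) (x : Hˣ) : gp (-z) x = (gp z x)⁻¹ := by
  have h := map_neg (gpHom (G := G) x) z
  exact congrArg Additive.toMul h

theorem gp_nsmul (n : ℕ) (z : MonoidAlgebra ℤ G) (x : Hˣ) : gp (n • z) x = gp z x ^ n := by
  have h := map_nsmul (gpHom (G := G) x) n z
  exact congrArg Additive.toMul h

theorem gp_single_mul (γ : G) (z : MonoidAlgebra ℤ G) (x : Hˣ) :
    gp (MonoidAlgebra.single γ 1 * z) x = act γ (gp z x) := by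
  induction z using MonoidAlgebra.induction_linear with
  | zero => rw [mul_zero, gp_zero, act_map_one]
  | add a b ha hb => rw [mul_add, gp_add, gp_add, ha, hb, act_map_mul]
  | single δ n =>
    rw [MonoidAlgebra.single_mul_single, gp_single, gp_single, one_mul, act_mul]
    exact (map_zpow (Units.map (MulSemiringAction.toRingHom G H γ : H →* H)) _ _).symm

theorem gp_mem {U : Subgroup Hˣ} (hU : ∀ (γ : G) (x : Hˣ), x ∈ U → act γ x ∈ U) (z : MonoidAlgebra ℤ G) {x : Hˣ}
    (hx : x ∈ U) : gp z x ∈ U := by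
  induction z using MonoidAlgebra.induction_linear with
  | zero => rw [gp_zero]; exact U.one_mem
  | add a b ha hb => rw [gp_add]; exact U.mul_mem ha hb
  | single δ n => rw [gp_single]; exact U.zpow_mem (hU _ _ hx) n

/-- `E` is compatible with the action of `G`, which acts on `R` through `ι : ℤ[G] → R` -/
def Equi {R : Type} [CommRing R] (U : Subgroup Hˣ) (ι : MonoidAlgebra ℤ G →+* R) (E : Additive U →+ R) : Prop :=
  ∀ (γ : G) (x y : U), (y : Hˣ) = act γ (x : Hˣ) →
    E (Additive.ofMul y) = ι (MonoidAlgebra.single γ 1) * E (Additive.ofMul x)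

theorem Equi.gp {R : Type} [CommRing R] {U : Subgroup Hˣ} (hU : ∀ (γ : G) (x : Hˣ), x ∈ U → act γ x ∈ U)
    {ι : MonoidAlgebra ℤ G →+* R} {E : Additive U →+ R} (hE : Equi U ι E) (z : MonoidAlgebra ℤ G) (x y : U)
    (hy : (y : Hˣ) = gp z (x : Hˣ)) : E (Additive.ofMul y) = ι z * E (Additive.ofMul x) := by
  induction z using MonoidAlgebra.induction_linear generalizing y with
  | zero =>
    rw [gp_zero] at hy
    have : y = 1 := Subtype.ext hy
    rw [this, map_zero, zero_mul, ofMul_one, map_zero]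
  | add a b ha hb =>
    rw [gp_add] at hy
    have h1 : y = ⟨PS.gp a (x : Hˣ), gp_mem hU a x.2⟩ * ⟨PS.gp b (x : Hˣ), gp_mem hU b x.2⟩ := Subtype.ext hy
    rw [h1, ofMul_mul, map_add, ha ⟨PS.gp a (x : Hˣ), gp_mem hU a x.2⟩ rfl, hb ⟨PS.gp b (x : Hˣ), gp_mem hU b x.2⟩ rfl,
      map_add, add_mul]
  | single δ n =>
    rw [gp_single] at hy
    have h1 : y = ⟨act δ (x : Hˣ), hU δ _ x.2⟩ ^ n := Subtype.ext hy
    rw [h1, ofMul_zpow, map_zsmul, hE δ x _ rfl]
    have h2 : (MonoidAlgebra.single δ n : MonoidAlgebra ℤ G) = n • MonoidAlgebra.single δ 1 := by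
      rw [MonoidAlgebra.smul_single]
      simp
    rw [h2, map_zsmul, smul_mul_assoc]

end gp

section hom

variable {H G : Type} [Field H] [CommGroup G] [Finite G] [MulSemiringAction G H]

/-- the `G`-homomorphism with a given coefficient at `1` -/
def mkG (U : Subgroup Hˣ) (hU : ∀ (γ : G) (x : Hˣ), x ∈ U → act γ x ∈ U) (f : Additive U →+ ℤ) : GHom G U where
  f :=
    { toFun := fun x => MonoidAlgebra.ofCoeff (Finsupp.equivFunOnFinite.symm fun γ : G =>
        f (Additive.ofMul ⟨act γ⁻¹ ((Additive.toMul x : U) : Hˣ), hU _ _ (Additive.toMul x : U).2⟩))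
      map_zero' := by
        ext γ
        have h1 : (⟨act γ⁻¹ (((Additive.toMul (0 : Additive U) : U)) : Hˣ), hU _ _ (Additive.toMul (0 : Additive U) : U).2⟩ : U) = 1 :=
          Subtype.ext (act_map_one _)
        simp only [MonoidAlgebra.coeff_zero, Finsupp.coe_zero, Pi.zero_apply]
        change f (Additive.ofMul _) = 0
        rw [h1, ofMul_one, map_zero]
      map_add' := fun x y => by
        ext γ
        have h1 : (⟨act γ⁻¹ ((Additive.toMul (x + y) : U) : Hˣ), hU _ _ (Additive.toMul (x + y) : U).2⟩ : U) =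
          ⟨act γ⁻¹ ((Additive.toMul x : U) : Hˣ), hU _ _ (Additive.toMul x : U).2⟩ *
            ⟨act γ⁻¹ ((Additive.toMul y : U) : Hˣ), hU _ _ (Additive.toMul y : U).2⟩ :=
          Subtype.ext (act_map_mul _ _ _)
        simp only [MonoidAlgebra.coeff_add, Finsupp.coe_add, Pi.add_apply]
        change f (Additive.ofMul _) = f (Additive.ofMul _) + f (Additive.ofMul _)
        rw [h1, ofMul_mul, map_add] }
  equiv := by
    intro γ x y hxy
    ext g
    rw [MonoidAlgebra.coeff_single_mul_apply, one_mul]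
    change f (Additive.ofMul _) = f (Additive.ofMul _)
    congr 2
    apply Subtype.ext
    change act g⁻¹ (y : Hˣ) = act (γ⁻¹ * g)⁻¹ (x : Hˣ)
    rw [hxy, ← act_mul]
    congr 1
    group

theorem coeff_mkG (U : Subgroup Hˣ) (hU : ∀ (γ : G) (x : Hˣ), x ∈ U → act γ x ∈ U) (f : Additive U →+ ℤ) (x : U) (γ : G) :
    ((mkG U hU f).f (Additive.ofMul x)).coeff γ = f (Additive.ofMul ⟨act γ⁻¹ (x : Hˣ), hU _ _ x.2⟩) := rfl

theorem ghom_coeff {U : Subgroup Hˣ} (hU : ∀ (γ : G) (x : Hˣ), x ∈ U → act γ x ∈ U) (ψ : GHom G U) (x : U) (γ : G) :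
    (ψ.f (Additive.ofMul x)).coeff γ = (ψ.f (Additive.ofMul ⟨act γ⁻¹ (x : Hˣ), hU _ _ x.2⟩)).coeff 1 := by
  rw [ψ.equiv γ⁻¹ x ⟨act γ⁻¹ (x : Hˣ), hU _ _ x.2⟩ rfl, MonoidAlgebra.coeff_single_mul_apply]
  simp

/-- restriction to a subgroup -/
def res {U U' : Subgroup Hˣ} (h : U ≤ U') (ψ : GHom G U') : GHom G U where
  f := ψ.f.comp (MonoidHom.toAdditive (Subgroup.inclusion h))
  equiv := fun γ x y hxy => ψ.equiv γ (Subgroup.inclusion h x) (Subgroup.inclusion h y) hxy

theorem res_apply {U U' : Subgroup Hˣ} (h : U ≤ U') (ψ : GHom G U') (x : U) :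
    (res h ψ).f (Additive.ofMul x) = ψ.f (Additive.ofMul (Subgroup.inclusion h x)) := rfl

/-- extension of homomorphisms from the kernel of a homomorphism to a lattice -/
theorem ext_ghom {U U' : Subgroup Hˣ} (h : U ≤ U') (hU : ∀ (γ : G) (x : Hˣ), x ∈ U → act γ x ∈ U)
    (hU' : ∀ (γ : G) (x : Hˣ), x ∈ U' → act γ x ∈ U') (φ : Additive U' →+ MonoidAlgebra ℤ G)
    (hφ : ∀ x : U', φ (Additive.ofMul x) = 0 → (x : Hˣ) ∈ U) (hφ0 : ∀ x : U, φ (Additive.ofMul (Subgroup.inclusion h x)) = 0)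
    (ψ : GHom G U) : ∃ ψ' : GHom G U', ∀ x : U, ψ'.f (Additive.ofMul (Subgroup.inclusion h x)) = ψ.f (Additive.ofMul x) := by
  classical
  let _ := Fintype.ofFinite G
  let L : Additive U' →ₗ[ℤ] MonoidAlgebra ℤ G := φ.toIntLinearMap
  let bas : Module.Basis G ℤ (MonoidAlgebra ℤ G) :=
    Module.Basis.ofRepr (MonoidAlgebra.coeffAddEquiv (R := ℤ) (M := G)).toIntLinearEquiv
  obtain ⟨n, ⟨B⟩⟩ := Submodule.nonempty_basis_of_pid bas (LinearMap.range L)
  have hfree : Module.Free ℤ (LinearMap.range L) := Module.Free.of_basis B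
  obtain ⟨s, hs⟩ := Module.projective_lifting_property L.rangeRestrict LinearMap.id L.surjective_rangeRestrict
  have hs1 : ∀ x : Additive U', φ (x - s (L.rangeRestrict x)) = 0 := by
    intro x
    have h1 : L.rangeRestrict (s (L.rangeRestrict x)) = L.rangeRestrict x := by
      have := LinearMap.congr_fun hs (L.rangeRestrict x)
      exact this
    have h2 : φ (s (L.rangeRestrict x)) = φ x := congrArg Subtype.val h1
    rw [map_sub, h2, sub_self]
  let ρ : Additive U' →+ Additive U :=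
    { toFun := fun x => Additive.ofMul ⟨((Additive.toMul (x - s (L.rangeRestrict x)) : U') : Hˣ),
        hφ (Additive.toMul (x - s (L.rangeRestrict x))) (hs1 x)⟩
      map_zero' := by
        apply Additive.toMul.injective
        apply Subtype.ext
        simp
      map_add' := fun x y => by
        apply Additive.toMul.injective
        apply Subtype.ext
        have h1 : x + y - s (L.rangeRestrict (x + y)) = (x - s (L.rangeRestrict x)) + (y - s (L.rangeRestrict y)) := by
          rw [map_add, map_add]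
          abel
        change ((Additive.toMul (x + y - s (L.rangeRestrict (x + y))) : U') : Hˣ) = _
        rw [h1]
        rfl }
  have hρ : ∀ x : U, ρ (Additive.ofMul (Subgroup.inclusion h x)) = Additive.ofMul x := by
    intro x
    have h1 : L.rangeRestrict (Additive.ofMul (Subgroup.inclusion h x)) = 0 := Subtype.ext (hφ0 x)
    apply Additive.toMul.injective
    apply Subtype.ext
    change ((Additive.toMul (Additive.ofMul (Subgroup.inclusion h x) -
      s (L.rangeRestrict (Additive.ofMul (Subgroup.inclusion h x)))) : U') : Hˣ) = _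
    rw [h1, map_zero, sub_zero]
    rfl
  let c1 : MonoidAlgebra ℤ G →+ ℤ :=
    { toFun := fun z => z.coeff 1, map_zero' := by simp, map_add' := fun a b => by simp }
  refine ⟨mkG U' hU' ((c1.comp ψ.f).comp ρ), fun x => ?_⟩
  ext γ
  rw [coeff_mkG, ghom_coeff hU ψ x γ]
  have h2 := hρ ⟨act γ⁻¹ (x : Hˣ), hU _ _ x.2⟩
  change ((ψ.f (ρ (Additive.ofMul _))).coeff 1 : ℤ) = _
  rw [← h2]
  rfl

end hom

section ev

variable {H G : Type} [Field H] [CommGroup G] [MulSemiringAction G H]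

/-- the value of a family of homomorphisms at an element of `ℚ ⋀^r U` -/
def ev {R : Type} [CommRing R] {r : ℕ} {U : Subgroup Hˣ} (κ : MonoidAlgebra ℚ G →+* R) (u : Wedge G r U)
    (E : Fin r → Additive U →+ R) : R :=
  ∑ k, κ (u.c k) * Matrix.det (Matrix.of fun a b => E a (Additive.ofMul (u.x k b)))

theorem value_eq {r : ℕ} {U : Subgroup Hˣ} (u : Wedge G r U) (ψ : Fin r → GHom G U) :
    u.value ψ = ev (RingHom.id _) u fun a => (toQ (G := G) : MonoidAlgebra ℤ G →+ MonoidAlgebra ℚ G).comp (ψ a).f := by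
  unfold Wedge.value ev
  refine Finset.sum_congr rfl fun k _ => ?_
  rw [RingHom.map_det]
  rfl

/-- multiplication of the coefficients -/
def scale {r : ℕ} {U : Subgroup Hˣ} (c : MonoidAlgebra ℚ G) (u : Wedge G r U) : Wedge G r U where
  n := u.n
  c := fun k => c * u.c k
  x := u.x

theorem ev_scale {R : Type} [CommRing R] {r : ℕ} {U : Subgroup Hˣ} (κ : MonoidAlgebra ℚ G →+* R)
    (c : MonoidAlgebra ℚ G) (u : Wedge G r U) (E : Fin r → Additive U →+ R) :
    ev κ (scale c u) E = κ c * ev κ u E := by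
  unfold ev scale
  rw [Finset.mul_sum]
  refine Finset.sum_congr rfl fun k _ => ?_
  rw [map_mul, mul_assoc]

/-- an element of `ℚ ⋀^r U` as an element of `ℚ ⋀^r U'` -/
def up {r : ℕ} {U U' : Subgroup Hˣ} (h : U ≤ U') (u : Wedge G r U) : Wedge G r U' where
  n := u.n
  c := u.c
  x := fun k b => Subgroup.inclusion h (u.x k b)

theorem ev_up {R : Type} [CommRing R] {r : ℕ} {U U' : Subgroup Hˣ} (h : U ≤ U') (κ : MonoidAlgebra ℚ G →+* R)
    (u : Wedge G r U) (E : Fin r → Additive U' →+ R) :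
    ev κ (up h u) E = ev κ u fun a => (E a).comp (MonoidHom.toAdditive (Subgroup.inclusion h)) := rfl

/-- permutation of the homomorphisms -/
theorem ev_perm {R : Type} [CommRing R] {r : ℕ} {U : Subgroup Hˣ} (κ : MonoidAlgebra ℚ G →+* R)
    (u : Wedge G r U) (E : Fin r → Additive U →+ R) (τ : Equiv.Perm (Fin r)) :
    ev κ u (E ∘ τ) = ((Equiv.Perm.sign τ : ℤ) : R) * ev κ u E := by
  unfold ev
  rw [Finset.mul_sum]
  refine Finset.sum_congr rfl fun k _ => ?_
  have h1 := Matrix.det_permute τ (Matrix.of fun a b => E a (Additive.ofMul (u.x k b)))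
  have h2 : (Matrix.of fun a b => (E ∘ τ) a (Additive.ofMul (u.x k b))) =
      (Matrix.of fun a b => E a (Additive.ofMul (u.x k b))).submatrix τ id := rfl
  rw [h2, h1]
  ring

/-- the exterior product with an element -/
def wedgeWith {r : ℕ} {U U' : Subgroup Hˣ} (h : U ≤ U') (π : U') (u : Wedge G r U) : Wedge G (r + 1) U' where
  n := u.n
  c := u.c
  x := fun k => Fin.cons π fun b => Subgroup.inclusion h (u.x k b)

theorem ev_wedgeWith {R : Type} [CommRing R] {r : ℕ} {U U' : Subgroup Hˣ} (h : U ≤ U') (π : U') (u : Wedge G r U)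
    (κ : MonoidAlgebra ℚ G →+* R) (E : Fin (r + 1) → Additive U' →+ R) :
    ev κ (wedgeWith h π u) E = ∑ a : Fin (r + 1), (-1) ^ (a : ℕ) * E a (Additive.ofMul π) *
      ev κ u fun b => (E (a.succAbove b)).comp (MonoidHom.toAdditive (Subgroup.inclusion h)) := by
  unfold ev wedgeWith
  simp_rw [Finset.mul_sum]
  rw [Finset.sum_comm]
  refine Finset.sum_congr rfl fun k _ => ?_
  rw [Matrix.det_succ_column_zero, Finset.mul_sum]
  refine Finset.sum_congr rfl fun a _ => ?_
  simp only [Matrix.of_apply, Fin.cons_zero]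
  have h1 : ((Matrix.of fun (a : Fin (r + 1)) (b : Fin (r + 1)) => E a (Additive.ofMul
      ((Fin.cons π fun b => Subgroup.inclusion h (u.x k b) : Fin (r + 1) → U') b))).submatrix a.succAbove Fin.succ) =
      Matrix.of fun a' b' => ((E (a.succAbove a')).comp (MonoidHom.toAdditive (Subgroup.inclusion h)))
        (Additive.ofMul (u.x k b')) := by
    ext a' b'
    simp only [Matrix.submatrix_apply, Matrix.of_apply, Fin.cons_succ]
    rfl
  rw [h1]
  ring

variable [Finite G]

/-- the projection `x ↦ x ^ h * π ^ (- φ(x))` -/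
def proj {U U' : Subgroup Hˣ} (hU' : ∀ (γ : G) (x : Hˣ), x ∈ U' → act γ x ∈ U') (φ : GHom G U')
    (hφ : ∀ x : U', φ.f (Additive.ofMul x) = 0 → (x : Hˣ) ∈ U) (π : U') (h : ℕ)
    (hπ : φ.f (Additive.ofMul π) = MonoidAlgebra.single 1 (h : ℤ)) (x : U') : U :=
  ⟨(x : Hˣ) ^ h * gp (-(φ.f (Additive.ofMul x))) (π : Hˣ), by
    have hE : Equi U' (RingHom.id _) φ.f := fun γ x y hxy => φ.equiv γ x y hxy
    have h1 := hφ (x ^ h * ⟨gp (-(φ.f (Additive.ofMul x))) (π : Hˣ), gp_mem hU' _ π.2⟩) (by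
      rw [ofMul_mul, ofMul_pow, map_add, map_nsmul,
        hE.gp hU' (-(φ.f (Additive.ofMul x))) π ⟨gp (-(φ.f (Additive.ofMul x))) (π : Hˣ), gp_mem hU' _ π.2⟩ rfl, hπ,
        RingHom.id_apply]
      have h2 : (MonoidAlgebra.single 1 (h : ℤ) : MonoidAlgebra ℤ G) = ((h : ℤ) : MonoidAlgebra ℤ G) := by
        rw [MonoidAlgebra.intCast_def]
        simp
      rw [h2, nsmul_eq_mul]
      push_cast
      ring)
    exact h1⟩

theorem proj_val {U U' : Subgroup Hˣ} (hU' : ∀ (γ : G) (x : Hˣ), x ∈ U' → act γ x ∈ U') (φ : GHom G U')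
    (hφ : ∀ x : U', φ.f (Additive.ofMul x) = 0 → (x : Hˣ) ∈ U) (π : U') (h : ℕ)
    (hπ : φ.f (Additive.ofMul π) = MonoidAlgebra.single 1 (h : ℤ)) (hle : U ≤ U') {R : Type} [CommRing R]
    {ι : MonoidAlgebra ℤ G →+* R} {E : Additive U' →+ R} (hE : Equi U' ι E) (x : U') :
    E (Additive.ofMul (Subgroup.inclusion hle (proj hU' φ hφ π h hπ x))) =
      h * E (Additive.ofMul x) - ι (φ.f (Additive.ofMul x)) * E (Additive.ofMul π) := by
  have h1 : Subgroup.inclusion hle (proj hU' φ hφ π h hπ x) =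
      x ^ h * ⟨gp (-(φ.f (Additive.ofMul x))) (π : Hˣ), gp_mem hU' _ π.2⟩ := Subtype.ext rfl
  rw [h1, ofMul_mul, ofMul_pow, map_add, map_nsmul,
    hE.gp hU' (-(φ.f (Additive.ofMul x))) π ⟨gp (-(φ.f (Additive.ofMul x))) (π : Hˣ), gp_mem hU' _ π.2⟩ rfl,
    nsmul_eq_mul, map_neg]
  ring

/-- the contraction of an element of `ℚ ⋀^(r+1) U'` with `φ`, as an element of `ℚ ⋀^r U` -/
def contract {r : ℕ} {U U' : Subgroup Hˣ} (hU' : ∀ (γ : G) (x : Hˣ), x ∈ U' → act γ x ∈ U') (φ : GHom G U')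
    (hφ : ∀ x : U', φ.f (Additive.ofMul x) = 0 → (x : Hˣ) ∈ U) (π : U') (h : ℕ)
    (hπ : φ.f (Additive.ofMul π) = MonoidAlgebra.single 1 (h : ℤ)) (u : Wedge G (r + 1) U') : Wedge G r U where
  n := u.n * (r + 1)
  c := fun i => u.c (finProdFinEquiv.symm i).1 * (algebraMap ℚ (MonoidAlgebra ℚ G) (((h : ℚ) ^ r)⁻¹) *
    ((-1) ^ ((finProdFinEquiv.symm i).2 : ℕ) *
      toQ (φ.f (Additive.ofMul (u.x (finProdFinEquiv.symm i).1 (finProdFinEquiv.symm i).2)))))
  x := fun i b => proj hU' φ hφ π h hπ (u.x (finProdFinEquiv.symm i).1 ((finProdFinEquiv.symm i).2.succAbove b))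

theorem ev_contract {r : ℕ} {U U' : Subgroup Hˣ} (hU' : ∀ (γ : G) (x : Hˣ), x ∈ U' → act γ x ∈ U') (φ : GHom G U')
    (hφ : ∀ x : U', φ.f (Additive.ofMul x) = 0 → (x : Hˣ) ∈ U) (π : U') (h : ℕ) (hh : 0 < h)
    (hπ : φ.f (Additive.ofMul π) = MonoidAlgebra.single 1 (h : ℤ)) (hle : U ≤ U') (u : Wedge G (r + 1) U')
    {R : Type} [CommRing R] (κ : MonoidAlgebra ℚ G →+* R) (E : Fin r → Additive U' →+ R)
    (hE : ∀ a, Equi U' (κ.comp toQ) (E a)) :
    ev κ (contract hU' φ hφ π h hπ u) (fun a => (E a).comp (MonoidHom.toAdditive (Subgroup.inclusion hle))) =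
      ev κ u (Fin.cons ((κ.comp toQ : MonoidAlgebra ℤ G →+* R).toAddMonoidHom.comp φ.f) E) := by
  unfold ev
  have hn : (contract hU' φ hφ π h hπ u).n = u.n * (r + 1) := rfl
  have h1 : ∑ i : Fin (u.n * (r + 1)), κ ((contract hU' φ hφ π h hπ u).c i) * Matrix.det (Matrix.of fun a b =>
        ((E a).comp (MonoidHom.toAdditive (Subgroup.inclusion hle)))
          (Additive.ofMul ((contract hU' φ hφ π h hπ u).x i b))) =
      ∑ p : Fin u.n × Fin (r + 1), κ (u.c p.1 * (algebraMap ℚ (MonoidAlgebra ℚ G) (((h : ℚ) ^ r)⁻¹) *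
        ((-1) ^ (p.2 : ℕ) * toQ (φ.f (Additive.ofMul (u.x p.1 p.2)))))) *
        Matrix.det (Matrix.of fun a b => (E a) (Additive.ofMul (Subgroup.inclusion hle
          (proj hU' φ hφ π h hπ (u.x p.1 (p.2.succAbove b)))))) := by
    rw [← finProdFinEquiv.symm.sum_comp]
    rfl
  refine Eq.trans h1 ?_
  rw [Fintype.sum_prod_type]
  refine Finset.sum_congr rfl fun k _ => ?_
  have h2 := contr_det (R := R) (fun b => κ (toQ (φ.f (Additive.ofMul (u.x k b)))))
    (fun a b => E a (Additive.ofMul (u.x k b))) (fun a => E a (Additive.ofMul π)) (h : R)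
  have h3 : (Fin.cons (fun b => κ (toQ (φ.f (Additive.ofMul (u.x k b))))) (fun a b => E a (Additive.ofMul (u.x k b))) :
      Fin (r + 1) → Fin (r + 1) → R) = fun a b => (Fin.cons ((κ.comp toQ : MonoidAlgebra ℤ G →+* R).toAddMonoidHom.comp φ.f) E :
        Fin (r + 1) → Additive U' →+ R) a (Additive.ofMul (u.x k b)) := by
    funext a b
    refine Fin.cases ?_ (fun a => ?_) a
    · rfl
    · rfl
  rw [h3] at h2
  have h4 : κ (algebraMap ℚ (MonoidAlgebra ℚ G) (((h : ℚ) ^ r)⁻¹)) * (h : R) ^ r = 1 := by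
    have h5 : (h : R) ^ r = κ (algebraMap ℚ (MonoidAlgebra ℚ G) ((h : ℚ) ^ r)) := by
      rw [map_pow, map_natCast, map_pow, map_natCast]
    rw [h5, ← map_mul, ← map_mul, inv_mul_cancel₀ (by positivity), map_one, map_one]
  have h6 : κ (u.c k) * (κ (algebraMap ℚ (MonoidAlgebra ℚ G) (((h : ℚ) ^ r)⁻¹)) *
      ((h : R) ^ r * Matrix.det (Matrix.of fun a b => (Fin.cons ((κ.comp toQ : MonoidAlgebra ℤ G →+* R).toAddMonoidHom.comp φ.f) E :
        Fin (r + 1) → Additive U' →+ R) a (Additive.ofMul (u.x k b))))) =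
      κ (u.c k) * Matrix.det (Matrix.of fun a b => (Fin.cons ((κ.comp toQ : MonoidAlgebra ℤ G →+* R).toAddMonoidHom.comp φ.f) E :
        Fin (r + 1) → Additive U' →+ R) a (Additive.ofMul (u.x k b))) := by
    rw [← mul_assoc (κ (algebraMap ℚ (MonoidAlgebra ℚ G) (((h : ℚ) ^ r)⁻¹))), h4, one_mul]
  rw [← h6, ← h2, Finset.mul_sum, Finset.mul_sum]
  refine Finset.sum_congr rfl fun b _ => ?_
  have h7 : (Matrix.of fun (a : Fin r) (b' : Fin r) => (E a) (Additive.ofMul (Subgroup.inclusion hle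
      (proj hU' φ hφ π h hπ (u.x k (b.succAbove b')))))) =
      Matrix.of fun (a : Fin r) (b' : Fin r) => (h : R) * E a (Additive.ofMul (u.x k (b.succAbove b'))) -
        κ (toQ (φ.f (Additive.ofMul (u.x k (b.succAbove b'))))) * E a (Additive.ofMul π) := by
    ext a b'
    exact proj_val hU' φ hφ π h hπ hle (hE a) _
  rw [h7]
  simp only [map_mul, map_pow, map_neg, map_one]
  ring

end ev

end Pool.Agent.T9h51.PS
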