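import Pool.Agent.K3h33.RS.Sieve

/-!
# Ideals in a given class without prime divisors in a thin set
-/

set_option autoImplicit false
set_option linter.unusedSectionVars false

open NumberField IsDedekindDomain Filter Topology

noncomputable section

namespace Pool.Agent.T9h51.PS

open Pool.Agent.K3h33.RS

variable {K : Type} [Field K] [NumberField K]

/-- the class of a prime ideal -/
def cl (v : HeightOneSpectrum (𝓞 K)) : ClassGroup (𝓞 K) :=
  ClassGroup.mk0 ⟨v.asIdeal, mem_nonZeroDivisors_of_ne_zero v.ne_bot⟩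

/-- the ideal `a` has class `c` -/
def HasCl (c : ClassGroup (𝓞 K)) (a : Ideal (𝓞 K)) : Prop :=
  ∃ h : a ∈ nonZeroDivisors (Ideal (𝓞 K)), ClassGroup.mk0 ⟨a, h⟩ = c

theorem hasCl_mul (c : ClassGroup (𝓞 K)) (v : HeightOneSpectrum (𝓞 K)) (b : Ideal (𝓞 K)) :
    HasCl c (v.asIdeal * b) ↔ HasCl (c * (cl v)⁻¹) b := by
  have hv : v.asIdeal ∈ nonZeroDivisors (Ideal (𝓞 K)) := mem_nonZeroDivisors_of_ne_zero v.ne_bot
  constructor
  · rintro ⟨h, h1⟩
    have hb : b ∈ nonZeroDivisors (Ideal (𝓞 K)) := by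
      apply mem_nonZeroDivisors_of_ne_zero
      rintro rfl
      rw [mul_zero] at h
      exact zero_notMem_nonZeroDivisors h
    refine ⟨hb, ?_⟩
    have h2 : (⟨v.asIdeal * b, h⟩ : nonZeroDivisors (Ideal (𝓞 K))) = ⟨v.asIdeal, hv⟩ * ⟨b, hb⟩ := rfl
    rw [← h1, h2, map_mul]
    unfold cl
    rw [mul_comm (ClassGroup.mk0 (⟨v.asIdeal, hv⟩ : nonZeroDivisors (Ideal (𝓞 K)))), mul_inv_cancel_right]
  · rintro ⟨hb, h1⟩
    refine ⟨mul_mem hv hb, ?_⟩
    have h2 : (⟨v.asIdeal * b, mul_mem hv hb⟩ : nonZeroDivisors (Ideal (𝓞 K))) = ⟨v.asIdeal, hv⟩ * ⟨b, hb⟩ := rfl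
    rw [h2, map_mul, h1]
    unfold cl
    rw [mul_comm, inv_mul_cancel_right]

/-- the ideals of class `c` and of norm at most `X` prime to `M` -/
def CS (c : ClassGroup (𝓞 K)) (M : Finset (HeightOneSpectrum (𝓞 K))) (X : ℕ) : Set (Ideal (𝓞 K)) :=
  {a | HasCl c a ∧ Ideal.absNorm a ≤ X ∧ ∀ v ∈ M, ¬ v.asIdeal ∣ a}

lemma CS_fin (c : ClassGroup (𝓞 K)) (M : Finset (HeightOneSpectrum (𝓞 K))) (X : ℕ) : (CS c M X).Finite :=
  (Ideal.finite_setOfPred_absNorm_le X).subset fun _ ha => ha.2.1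

lemma mem_mul_iff' {M : Finset (HeightOneSpectrum (𝓞 K))} {v : HeightOneSpectrum (𝓞 K)}
    (hv : v ∉ M) (c : ClassGroup (𝓞 K)) (X : ℕ) (b : Ideal (𝓞 K)) :
    v.asIdeal * b ∈ CS c M X ↔ b ∈ CS (c * (cl v)⁻¹) M (X / Ideal.absNorm v.asIdeal) := by
  have h2 := norm_two v
  unfold CS
  simp only [Set.mem_ofPred_eq]
  refine and_congr (hasCl_mul c v b) (and_congr ?_ ?_)
  · rw [map_mul, Nat.le_div_iff_mul_le (by omega), mul_comm]
  · refine forall₂_congr fun u hu => not_congr ?_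
    have hp : Prime u.asIdeal := u.prime
    rw [hp.dvd_mul]
    constructor
    · rintro (h | h)
      · exact absurd h (not_dvd_of_ne (by rintro rfl; exact hv hu))
      · exact h
    · exact Or.inr

open Classical in
lemma count_step' {M : Finset (HeightOneSpectrum (𝓞 K))} {v : HeightOneSpectrum (𝓞 K)}
    (hv : v ∉ M) (c : ClassGroup (𝓞 K)) (X : ℕ) :
    (CS c M X).ncard = (CS c (insert v M) X).ncard + (CS (c * (cl v)⁻¹) M (X / Ideal.absNorm v.asIdeal)).ncard := by
  have e1 : CS c M X = CS c (insert v M) X ∪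
      (fun b => v.asIdeal * b) '' CS (c * (cl v)⁻¹) M (X / Ideal.absNorm v.asIdeal) := by
    ext a
    constructor
    · intro ha
      by_cases hd : v.asIdeal ∣ a
      · obtain ⟨b, rfl⟩ := hd
        exact Or.inr ⟨b, (mem_mul_iff' hv c X b).1 ha, rfl⟩
      · refine Or.inl ⟨ha.1, ha.2.1, fun u hu => ?_⟩
        rcases Finset.mem_insert.1 hu with rfl | hu
        · exact hd
        · exact ha.2.2 u hu
    · rintro (ha | ⟨b, hb, rfl⟩)
      · exact ⟨ha.1, ha.2.1, fun u hu => ha.2.2 u (Finset.mem_insert_of_mem hu)⟩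
      · exact (mem_mul_iff' hv c X b).2 hb
  have e2 : Disjoint (CS c (insert v M) X)
      ((fun b => v.asIdeal * b) '' CS (c * (cl v)⁻¹) M (X / Ideal.absNorm v.asIdeal)) := by
    rw [Set.disjoint_left]
    rintro a ha ⟨b, _, rfl⟩
    exact ha.2.2 v (Finset.mem_insert_self _ _) (dvd_mul_right _ _)
  have e3 : Function.Injective (fun b : Ideal (𝓞 K) => v.asIdeal * b) := by
    intro b c hbc
    have h0 : v.asIdeal ≠ 0 := v.ne_bot
    exact mul_left_cancel₀ h0 hbc
  rw [e1, Set.ncard_union_eq e2 (CS_fin _ _ _) ((CS_fin _ _ _).image _),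
    Set.ncard_image_of_injective _ e3]

variable (K) in
theorem count_lim : ∃ κ : ℝ, 0 < κ ∧ ∀ (M : Finset (HeightOneSpectrum (𝓞 K))) (c : ClassGroup (𝓞 K)),
    Tendsto (fun X : ℕ => ((CS c M X).ncard : ℝ) / X) atTop
      (𝓝 (κ * ∏ v ∈ M, (1 - ((Ideal.absNorm v.asIdeal : ℝ))⁻¹))) := by
  classical
  refine ⟨(2 ^ InfinitePlace.nrRealPlaces K * (2 * Real.pi) ^ InfinitePlace.nrComplexPlaces K *
    Units.regulator K) / (Units.torsionOrder K * Real.sqrt |(discr K : ℝ)|), ?_, ?_⟩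
  · have h1 : 0 < Units.regulator K := Units.regulator_pos K
    have h3 : (0 : ℝ) < Units.torsionOrder K := by exact_mod_cast Units.torsionOrder_pos K
    have h4 : (0 : ℝ) < |(discr K : ℝ)| := by
      rw [abs_pos]
      exact_mod_cast discr_ne_zero K
    positivity
  · intro M
    induction M using Finset.induction_on with
    | empty =>
      intro c
      rw [Finset.prod_empty, mul_one]
      have h1 := (NumberField.Ideal.tendsto_norm_le_and_mk_eq_div_atTop K c).comp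
        (tendsto_natCast_atTop_atTop (R := ℝ))
      refine h1.congr fun X => ?_
      simp only [Function.comp_apply]
      congr 2
      rw [← Nat.card_coe_set_eq]
      refine Nat.card_congr ?_
      refine ⟨fun I => ⟨I.1.1, ⟨⟨I.1.2, I.2.2⟩, by exact_mod_cast I.2.1, fun v hv => absurd hv (Finset.notMem_empty v)⟩⟩,
        fun I => ⟨⟨I.1, I.2.1.1⟩, by exact_mod_cast I.2.2.1, I.2.1.2⟩, fun I => rfl, fun I => rfl⟩
    | insert v M hv ih =>
      intro c
      have h1 := lim_div (u := fun X => ((CS (c * (cl v)⁻¹) M X).ncard : ℝ)) (Ideal.absNorm v.asIdeal)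
        (norm_two v) (ih _)
      have h2 := (ih c).sub h1
      rw [Finset.prod_insert hv]
      refine (h2.congr fun X => ?_).trans (le_of_eq ?_)
      · rw [count_step' hv c X]
        push_cast
        ring
      · congr 1
        ring

variable (K) in
theorem count_bound : ∃ C : ℝ, 0 < C ∧ ∀ X : ℕ, ((Ss (∅ : Finset (HeightOneSpectrum (𝓞 K))) X).ncard : ℝ) ≤ C * X := by
  obtain ⟨c, hc, h⟩ := sieve_aux K
  have h1 := h ∅
  obtain ⟨B, hB⟩ := h1.bddAbove_range
  refine ⟨max B 1, lt_max_of_lt_right one_pos, fun X => ?_⟩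
  rcases Nat.eq_zero_or_pos X with rfl | hX
  · have h2 : Ss (∅ : Finset (HeightOneSpectrum (𝓞 K))) 0 = ∅ := by
      rw [Set.eq_empty_iff_forall_notMem]
      rintro a ⟨ha, ha', -⟩
      have h3 : Ideal.absNorm a = 0 := by omega
      rw [Ideal.absNorm_eq_zero_iff] at h3
      exact ha h3
    rw [h2, Set.ncard_empty]
    simp
  · have hX' : (0 : ℝ) < X := by exact_mod_cast hX
    have h2 := hB ⟨X, rfl⟩
    simp only at h2
    rw [div_le_iff₀ hX'] at h2
    exact h2.trans (mul_le_mul_of_nonneg_right (le_max_left _ _) hX'.le)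

theorem exp_bound {x : ℝ} (h0 : 0 ≤ x) (h1 : x ≤ 1 / 2) : Real.exp (-(2 * x)) ≤ 1 - x := by
  have h2 : 1 + 2 * x ≤ Real.exp (2 * x) := by
    have := Real.add_one_le_exp (2 * x)
    linarith
  rw [Real.exp_neg]
  have h3 : (Real.exp (2 * x))⁻¹ ≤ (1 + 2 * x)⁻¹ := inv_anti₀ (by positivity) h2
  refine h3.trans ?_
  rw [inv_le_iff_one_le_mul₀ (by positivity)]
  nlinarith

/-- **Every ideal class contains ideals of large norm without prime divisors in a thin set of prime ideals.** -/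
theorem exists_in_class (Q : HeightOneSpectrum (𝓞 K) → Prop)
    (hQ : Summable fun v : HeightOneSpectrum (𝓞 K) => ({v | Q v} : Set (HeightOneSpectrum (𝓞 K))).indicator
      (fun v => ((Ideal.absNorm v.asIdeal : ℝ))⁻¹) v) (c : ClassGroup (𝓞 K)) (N₀ : ℕ) :
    ∃ a : Ideal (𝓞 K), HasCl c a ∧ N₀ < Ideal.absNorm a ∧ ∀ v, Q v → ¬ v.asIdeal ∣ a := by
  classical
  by_contra hcon
  push Not at hcon
  obtain ⟨κ, hκ, hlim⟩ := count_lim K
  obtain ⟨C, hC, hbd⟩ := count_bound K
  set g : HeightOneSpectrum (𝓞 K) → ℝ := fun v => ({v | Q v} : Set (HeightOneSpectrum (𝓞 K))).indicator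
      (fun v => ((Ideal.absNorm v.asIdeal : ℝ))⁻¹) v with hg
  have hg0 : ∀ v, 0 ≤ g v := fun v => Set.indicator_nonneg (fun v _ => by positivity) v
  set A : ℝ := ∑' v, g v with hA
  set ρ : ℝ := Real.exp (-(2 * A)) with hρ
  have hρ0 : 0 < ρ := Real.exp_pos _
  set δ : ℝ := κ * ρ / (2 * C) with hδ
  have hδ0 : 0 < δ := by positivity
  obtain ⟨M₀, hM₀⟩ := summable_iff_vanishing_norm.1 hQ δ hδ0
  set M := M₀.filter Q with hM
  have hMQ : ∀ v ∈ M, Q v := fun v hv => (Finset.mem_filter.1 hv).2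
  -- the product
  have hprod : ρ ≤ ∏ v ∈ M, (1 - ((Ideal.absNorm v.asIdeal : ℝ))⁻¹) := by
    calc ρ ≤ Real.exp (-(2 * ∑ v ∈ M, g v)) := by
          rw [hρ]
          apply Real.exp_le_exp.2
          have := hQ.sum_le_tsum M fun v _ => hg0 v
          linarith
      _ = ∏ v ∈ M, Real.exp (-(2 * g v)) := by
          rw [← Real.exp_sum, Finset.mul_sum, Finset.sum_neg_distrib]
      _ ≤ _ := by
          refine Finset.prod_le_prod (fun v _ => (Real.exp_pos _).le) fun v hv => ?_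
          have h1 : g v = ((Ideal.absNorm v.asIdeal : ℝ))⁻¹ := Set.indicator_of_mem (hMQ v hv) _
          rw [h1]
          refine exp_bound (by positivity) ?_
          have h2 : (2 : ℝ) ≤ Ideal.absNorm v.asIdeal := by exact_mod_cast norm_two v
          rw [one_div]
          exact inv_anti₀ two_pos h2
  -- the upper bound
  have hup : ∀ X : ℕ, ((CS c M X).ncard : ℝ) ≤ C * N₀ + C * δ * X := by
    intro X
    have hTfin : {v : HeightOneSpectrum (𝓞 K) | Ideal.absNorm v.asIdeal ≤ X}.Finite := by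
      refine Set.Finite.of_finite_image ((Ideal.finite_setOfPred_absNorm_le (S := 𝓞 K) X).subset ?_)
        (f := fun v : HeightOneSpectrum (𝓞 K) => v.asIdeal) fun v _ v' _ h => HeightOneSpectrum.ext h
      rintro _ ⟨v, hv, rfl⟩
      exact hv
    set T : Finset (HeightOneSpectrum (𝓞 K)) := hTfin.toFinset.filter fun v => Q v ∧ v ∉ M₀ with hT
    have hsub : CS c M X ⊆ Ss ∅ N₀ ∪
        ⋃ v ∈ T, (fun b : Ideal (𝓞 K) => v.asIdeal * b) '' Ss ∅ (X / Ideal.absNorm v.asIdeal) := by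
      rintro a ⟨ha1, ha2, ha3⟩
      have ha0 : a ≠ ⊥ := by
        obtain ⟨h, -⟩ := ha1
        exact nonZeroDivisors.ne_zero h
      rcases Nat.lt_or_ge N₀ (Ideal.absNorm a) with hN0 | hN0
      swap
      · exact Or.inl ⟨ha0, hN0, fun v' hv' => absurd hv' (Finset.notMem_empty v')⟩
      refine Or.inr ?_
      obtain ⟨v, hv, hva⟩ := hcon a ha1 hN0
      obtain ⟨b, rfl⟩ := hva
      have hb0 : b ≠ ⊥ := by
        rintro rfl
        exact ha0 (mul_zero _)
      have hN2 := norm_two v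
      have hNb : Ideal.absNorm b ≠ 0 := by rwa [Ne, Ideal.absNorm_eq_zero_iff]
      rw [map_mul] at ha2
      refine Set.mem_biUnion (x := v) ?_ ⟨b, ⟨hb0, ?_, fun v' hv' => absurd hv' (Finset.notMem_empty v')⟩, rfl⟩
      · rw [Finset.mem_coe, hT, Finset.mem_filter, Set.Finite.mem_toFinset]
        refine ⟨?_, hv, fun h => ?_⟩
        · exact le_trans (Nat.le_mul_of_pos_right _ (Nat.pos_of_ne_zero hNb)) ha2
        · exact ha3 v (Finset.mem_filter.2 ⟨h, hv⟩) (dvd_mul_right _ _)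
      · rw [Nat.le_div_iff_mul_le (by omega), mul_comm]
        exact ha2
    have hfin : ∀ v ∈ T, ((fun b : Ideal (𝓞 K) => v.asIdeal * b) '' Ss ∅ (X / Ideal.absNorm v.asIdeal)).Finite :=
      fun v _ => (Ss_fin _ _).image _
    have h1 : (CS c M X).ncard ≤ (Ss (∅ : Finset (HeightOneSpectrum (𝓞 K))) N₀).ncard +
        ∑ v ∈ T, (Ss (∅ : Finset (HeightOneSpectrum (𝓞 K))) (X / Ideal.absNorm v.asIdeal)).ncard := by
      refine (Set.ncard_le_ncard hsub ((Ss_fin _ _).union (Set.Finite.biUnion T.finite_toSet hfin))).trans ?_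
      refine (Set.ncard_union_le _ _).trans (add_le_add le_rfl ?_)
      refine (Finset.set_ncard_biUnion_le T _).trans ?_
      exact Finset.sum_le_sum fun v _ => Set.ncard_image_le (Ss_fin _ _)
    have h2 : ((CS c M X).ncard : ℝ) ≤ C * N₀ + ∑ v ∈ T, C * (X * ((Ideal.absNorm v.asIdeal : ℝ))⁻¹) := by
      refine (Nat.cast_le.2 h1).trans ?_
      push_cast
      refine add_le_add (hbd N₀) ?_
      refine Finset.sum_le_sum fun v _ => (hbd _).trans ?_
      refine mul_le_mul_of_nonneg_left ?_ hC.le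
      rw [← div_eq_mul_inv]
      exact Nat.cast_div_le
    have h3 : ∑ v ∈ T, g v ≤ δ := by
      have h4 := hM₀ T (by
        rw [Finset.disjoint_left]
        intro v hv
        exact (Finset.mem_filter.1 hv).2.2)
      exact (le_abs_self _).trans h4.le
    have h4 : ∑ v ∈ T, C * (X * ((Ideal.absNorm v.asIdeal : ℝ))⁻¹) = C * (X * ∑ v ∈ T, g v) := by
      rw [Finset.mul_sum, Finset.mul_sum]
      refine Finset.sum_congr rfl fun v hv => ?_
      have h5 : g v = ((Ideal.absNorm v.asIdeal : ℝ))⁻¹ := Set.indicator_of_mem (Finset.mem_filter.1 hv).2.1 _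
      rw [h5]
    rw [h4] at h2
    refine h2.trans ?_
    have h5 : (X : ℝ) * ∑ v ∈ T, g v ≤ X * δ := mul_le_mul_of_nonneg_left h3 (Nat.cast_nonneg _)
    have h6 := mul_le_mul_of_nonneg_left h5 hC.le
    refine add_le_add le_rfl ?_
    calc _ ≤ C * ((X : ℝ) * δ) := h6
      _ = _ := by ring
  -- the limit
  have h1 : κ * ∏ v ∈ M, (1 - ((Ideal.absNorm v.asIdeal : ℝ))⁻¹) ≤ C * δ := by
    have hl : Tendsto (fun X : ℕ => C * N₀ / (X : ℝ) + C * δ) atTop (𝓝 (0 + C * δ)) :=
      (tendsto_const_div_atTop_nhds_zero_nat (C * N₀)).add_const _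
    rw [zero_add] at hl
    refine le_of_tendsto_of_tendsto (hlim M c) hl ?_
    filter_upwards [eventually_gt_atTop 0] with X hX
    have hX' : (0 : ℝ) < X := by exact_mod_cast hX
    have h8 := hup X
    rw [div_le_iff₀ hX', add_mul, div_mul_cancel₀ _ hX'.ne']
    exact h8
  have h2 : κ * ρ ≤ κ * ∏ v ∈ M, (1 - ((Ideal.absNorm v.asIdeal : ℝ))⁻¹) := mul_le_mul_of_nonneg_left hprod hκ.le
  have h3 : C * δ = κ * ρ / 2 := by
    rw [hδ]
    field_simp
  have h4 : 0 < κ * ρ := by positivity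
  linarith

/-- the rational prime below -/
def bel (q : HeightOneSpectrum (𝓞 K)) : ℕ := Ideal.absNorm (Ideal.under ℤ q.asIdeal)

lemma bel_prime (q : HeightOneSpectrum (𝓞 K)) : (bel q).Prime := by
  have := q.isPrime
  have : NeZero q.asIdeal := ⟨q.ne_bot⟩
  exact Nat.absNorm_under_prime q.asIdeal

lemma bel_over (q : HeightOneSpectrum (𝓞 K)) : q.asIdeal.LiesOver (Ideal.span {((bel q : ℕ) : ℤ)}) := by
  refine ⟨?_⟩
  exact Int.ideal_span_absNorm_eq_self _

lemma fibre_card (T : Finset (HeightOneSpectrum (𝓞 K))) (n : ℕ) :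
    (T.filter (fun q => bel q = n)).card ≤ Module.finrank ℚ K := by
  classical
  by_cases hn : n.Prime
  · let I : Ideal ℤ := Ideal.span {(n : ℤ)}
    have hI : I ≠ ⊥ := by
      simp only [I, ne_eq, Ideal.span_singleton_eq_bot]
      exact_mod_cast hn.ne_zero
    have hIp : I.IsPrime := (Ideal.span_singleton_prime (by exact_mod_cast hn.ne_zero)).mpr
      (Nat.prime_iff_prime_int.mp hn)
    have hIm : I.IsMaximal := hIp.isMaximal hI
    have h1 := Ideal.card_primesOverFinset_le_finrank (R := ℤ) (S := 𝓞 K) (K := ℚ) (L := K)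
      (p := I) hI
    refine le_trans ?_ h1
    refine Finset.card_le_card_of_injOn (fun q => q.asIdeal) ?_ ?_
    · intro q hq
      rw [Finset.mem_coe, Finset.mem_filter] at hq
      rw [Finset.mem_coe, IsDedekindDomain.mem_primesOverFinset_iff hI]
      refine ⟨q.isPrime, ?_⟩
      have h2 := bel_over q
      rw [hq.2] at h2
      exact h2
    · intro q _ q' _ h
      exact HeightOneSpectrum.ext h
  · have h1 : T.filter (fun q => bel q = n) = ∅ := by
      rw [Finset.filter_eq_empty_iff]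
      intro q _ h
      exact hn (h ▸ bel_prime q)
    rw [h1, Finset.card_empty]
    exact Nat.zero_le _

variable (K) in
theorem summable_bel : Summable (fun q : HeightOneSpectrum (𝓞 K) => (((bel q : ℕ) : ℝ) ^ 2)⁻¹) := by
  classical
  have h0 : Summable (fun n : ℕ => (((n : ℕ) : ℝ) ^ 2)⁻¹) := Real.summable_nat_pow_inv.2 (by norm_num)
  have hpos : ∀ n : ℕ, 0 ≤ (((n : ℕ) : ℝ) ^ 2)⁻¹ := fun n => by positivity
  refine summable_of_sum_le (c := Module.finrank ℚ K * ∑' n : ℕ, (((n : ℕ) : ℝ) ^ 2)⁻¹)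
    (fun q => hpos _) fun T => ?_
  calc ∑ q ∈ T, (((bel q : ℕ) : ℝ) ^ 2)⁻¹
      = ∑ n ∈ T.image bel, ∑ q ∈ T.filter (fun q => bel q = n), (((bel q : ℕ) : ℝ) ^ 2)⁻¹ :=
        (Finset.sum_fiberwise_of_maps_to (fun q hq => Finset.mem_image_of_mem _ hq) _).symm
    _ = ∑ n ∈ T.image bel, ((T.filter (fun q => bel q = n)).card : ℝ) * (((n : ℕ) : ℝ) ^ 2)⁻¹ := by
        refine Finset.sum_congr rfl fun n _ => ?_
        rw [← nsmul_eq_mul, ← Finset.sum_const]
        refine Finset.sum_congr rfl fun q hq => ?_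
        rw [(Finset.mem_filter.mp hq).2]
    _ ≤ ∑ n ∈ T.image bel, (Module.finrank ℚ K : ℝ) * (((n : ℕ) : ℝ) ^ 2)⁻¹ := by
        refine Finset.sum_le_sum fun n _ => ?_
        refine mul_le_mul_of_nonneg_right ?_ (hpos n)
        exact_mod_cast fibre_card T n
    _ = (Module.finrank ℚ K : ℝ) * ∑ n ∈ T.image bel, (((n : ℕ) : ℝ) ^ 2)⁻¹ := by
        rw [Finset.mul_sum]
    _ ≤ _ := mul_le_mul_of_nonneg_left (h0.sum_le_tsum _ fun n _ => hpos n) (Nat.cast_nonneg _)

/-- a prime ideal whose norm is not a prime number -/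
theorem bel_sq_le (q : HeightOneSpectrum (𝓞 K)) (h : ¬ (Ideal.absNorm q.asIdeal).Prime) :
    bel q ^ 2 ≤ Ideal.absNorm q.asIdeal := by
  have := bel_over q
  have h1 := Ideal.absNorm_eq_pow_inertiaDeg' q.asIdeal (bel_prime q)
  set f := (Ideal.span {((bel q : ℕ) : ℤ)}).inertiaDeg' q.asIdeal
  have h2 := norm_two q
  rw [h1] at h h2 ⊢
  rcases Nat.lt_or_ge f 2 with h3 | h3
  · interval_cases f
    · simp at h2
    · rw [pow_one] at h
      exact absurd (bel_prime q) h
  · exact Nat.pow_le_pow_right (bel_prime q).pos h3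

end Pool.Agent.T9h51.PS
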