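import Pool.Agent.T9h51.PS.Alg

/-!
# The condition that `H(ε^(1/w)) / F` is abelian
-/

set_option autoImplicit false
set_option linter.unusedSectionVars false

open NumberField IsDedekindDomain

noncomputable section

namespace Pool.Agent.T9h51.PS

open Pool.Agent.K3h30.RS

/-- The extension `H(ε ^ (1 / w)) / F` is abelian, `w` the number of the roots of unity in `H`: all automorphisms over
`F` of an algebraic closure commute on the `w`-th roots of `ε`. -/
def IsAb (F : Type) {H : Type} [Field F] [Field H] [NumberField H] [Algebra F H] (ε : Hˣ) : Prop :=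
  ∀ x : AlgebraicClosure H, x ^ (Units.torsionOrder H) = algebraMap H (AlgebraicClosure H) (ε : H) →
    ∀ s t : AlgebraicClosure H ≃ₐ[F] AlgebraicClosure H, s (t x) = t (s x)

variable {F H G : Type} [Field F] [NumberField F] [Field H] [NumberField H] [Algebra F H]
  [CommGroup G] [Finite G] [MulSemiringAction G H] [IsGaloisGroup G F H]

theorem exists_lift (s : G) : ∃ t : AlgebraicClosure H ≃ₐ[F] AlgebraicClosure H,
    ∀ x : H, t (algebraMap H (AlgebraicClosure H) x) = algebraMap H (AlgebraicClosure H) (s • x) := by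
  haveI : IsGalois F H := IsGaloisGroup.isGalois G F H
  haveI : IsAlgClosure F (AlgebraicClosure H) := ⟨inferInstance, Algebra.IsAlgebraic.trans F H _⟩
  haveI : Normal F (AlgebraicClosure H) := IsAlgClosure.normal F _
  refine ⟨(IsGaloisGroup.mulEquivAlgEquiv G F H s).liftNormal (AlgebraicClosure H), fun x => ?_⟩
  rw [AlgEquiv.liftNormal_commutes]
  rfl

theorem exists_restrict (t : AlgebraicClosure H ≃ₐ[F] AlgebraicClosure H) : ∃ s : G,
    ∀ x : H, t (algebraMap H (AlgebraicClosure H) x) = algebraMap H (AlgebraicClosure H) (s • x) := by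
  haveI : IsGalois F H := IsGaloisGroup.isGalois G F H
  obtain ⟨s, hs⟩ := (IsGaloisGroup.mulEquivAlgEquiv G F H).surjective (t.restrictNormal H)
  refine ⟨s, fun x => ?_⟩
  rw [← AlgEquiv.restrictNormal_commutes t H x, ← hs]
  rfl

variable (H) in
/-- the number of the roots of unity -/
abbrev wH : ℕ := Units.torsionOrder H

variable (H) in
theorem exists_prim : ∃ ζ : H, IsPrimitiveRoot ζ (wH H) := by
  obtain ⟨μ, hμ⟩ : ∃ μ : Units.torsion H, orderOf μ = Units.torsionOrder H :=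
    IsCyclic.exists_ofOrder_eq_natCard
  rw [← IsPrimitiveRoot.iff_orderOf, ← IsPrimitiveRoot.coe_submonoidClass_iff,
    ← IsPrimitiveRoot.coe_units_iff] at hμ
  exact ⟨_, hμ.map_of_injective (FaithfulSMul.algebraMap_injective (𝓞 H) H)⟩

theorem exists_exp (s : G) : ∃ n : ℤ, ∀ ζ : Hˣ, ζ ^ (wH H) = 1 → act s ζ = ζ ^ n := by
  haveI : NeZero (wH H) := ⟨Units.torsionOrder_ne_zero H⟩
  obtain ⟨m, hm⟩ := rootsOfUnity.integer_power_of_ringEquiv (wH H) (MulSemiringAction.toRingEquiv G H s)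
  refine ⟨m, fun ζ hζ => ?_⟩
  have h1 := hm ⟨ζ, (mem_rootsOfUnity _ _).2 hζ⟩
  apply Units.ext
  exact h1

/-- the roots of unity of order dividing `w` in the algebraic closure are in `H` -/
theorem root_mem (y : AlgebraicClosure H) (hy : y ^ (wH H) = 1) :
    ∃ ζ : Hˣ, ζ ^ (wH H) = 1 ∧ y = algebraMap H (AlgebraicClosure H) (ζ : H) := by
  obtain ⟨ζ, hζ⟩ := exists_prim H
  have hζ' := hζ.map_of_injective (FaithfulSMul.algebraMap_injective H (AlgebraicClosure H))
  haveI : NeZero (wH H) := ⟨Units.torsionOrder_ne_zero H⟩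
  obtain ⟨i, -, hi⟩ := hζ'.eq_pow_of_pow_eq_one hy
  have hz0 : ζ ≠ 0 := hζ.ne_zero (Units.torsionOrder_ne_zero H)
  refine ⟨Units.mk0 ζ hz0 ^ i, ?_, ?_⟩
  · apply Units.ext
    push_cast
    rw [Units.val_mk0, ← pow_mul, mul_comm, pow_mul, hζ.pow_eq_one, one_pow]
  · rw [← hi]
    push_cast
    rw [Units.val_mk0]

/-- the exponents by which `G` acts on the roots of unity -/
def IsExp (n : G → ℤ) : Prop := ∀ (s : G) (ζ : Hˣ), ζ ^ (wH H) = 1 → act s ζ = ζ ^ n s

/-- Tate's description of the condition. -/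
def Kum (n : G → ℤ) (ε : Hˣ) : Prop := ∃ e : G → Hˣ, (∀ s, act s ε = ε ^ n s * e s ^ (wH H)) ∧
  ∀ s t, act s (e t) * e s ^ n t = act t (e s) * e t ^ n s

theorem kum_of_ab {n : G → ℤ} (hn : IsExp (H := H) n) {ε : Hˣ} (h : IsAb F ε) : Kum n ε := by
  have hw : 0 < wH H := Units.torsionOrder_pos H
  have hinj : Function.Injective (algebraMap H (AlgebraicClosure H)) := FaithfulSMul.algebraMap_injective _ _
  obtain ⟨x, hx⟩ := IsAlgClosed.exists_pow_nat_eq (algebraMap H (AlgebraicClosure H) (ε : H)) hw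
  have hab := h x hx
  have hx0 : x ≠ 0 := by
    intro h0
    rw [h0, zero_pow hw.ne'] at hx
    exact ε.ne_zero (hinj (by rw [map_zero]; exact hx.symm))
  choose l hl using fun s : G => exists_lift (F := F) (H := H) s
  have hfix : ∀ s : G, ∃ e : Hˣ, l s x = algebraMap H (AlgebraicClosure H) (e : H) * x ^ n s := by
    intro s
    have hlx0 : l s x ≠ 0 := by
      intro h0
      exact hx0 ((map_eq_zero_iff (l s) (l s).injective).1 h0)
    haveI : IsGalois H (AlgebraicClosure H) := inferInstance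
    have h1 : l s x / x ^ n s ∈ Set.range (algebraMap H (AlgebraicClosure H)) := by
      rw [InfiniteGalois.mem_range_algebraMap_iff_fixed]
      intro τ
      have h2 : (τ x / x) ^ (wH H) = 1 := by
        rw [div_pow, ← map_pow, hx, AlgEquiv.commutes, ← hx]
        exact div_self (pow_ne_zero _ hx0)
      obtain ⟨ζ, hζ, hζx⟩ := root_mem _ h2
      have h3 : τ x = algebraMap H (AlgebraicClosure H) (ζ : H) * x := by
        rw [← hζx, div_mul_cancel₀ _ hx0]
      have h4 := hab (τ.restrictScalars F) (l s)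
      have h5 : (τ.restrictScalars F) (l s x) = τ (l s x) := rfl
      have h6 : (τ.restrictScalars F) x = τ x := rfl
      rw [h5, h6, h3, map_mul, hl] at h4
      have h7 : s • (ζ : H) = ((ζ ^ n s : Hˣ) : H) := by
        rw [← hn s ζ hζ]
        rfl
      have hζ0 : algebraMap H (AlgebraicClosure H) (ζ : H) ≠ 0 := by
        rw [Ne, map_eq_zero_iff _ hinj]
        exact ζ.ne_zero
      rw [h7, Units.val_zpow_eq_zpow_val, map_zpow₀] at h4
      rw [map_div₀, h4, map_zpow₀, h3, mul_zpow]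
      exact mul_div_mul_left _ _ (zpow_ne_zero _ hζ0)
    obtain ⟨e, he⟩ := h1
    have he0 : e ≠ 0 := by
      intro h0
      rw [h0, map_zero] at he
      exact div_ne_zero hlx0 (zpow_ne_zero _ hx0) he.symm
    refine ⟨Units.mk0 e he0, ?_⟩
    rw [Units.val_mk0, he, div_mul_cancel₀ _ (zpow_ne_zero _ hx0)]
  choose e he using hfix
  refine ⟨e, fun s => ?_, fun s t => ?_⟩
  · apply Units.ext
    apply hinj
    have h1 := hl s (ε : H)
    rw [← hx, map_pow, he, mul_pow, ← zpow_natCast, ← zpow_natCast, ← zpow_mul, mul_comm (n s), zpow_mul,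
      zpow_natCast x, hx] at h1
    rw [act_val, ← h1, Units.val_mul, Units.val_zpow_eq_zpow_val, Units.val_pow_eq_pow_val, map_mul, map_zpow₀,
      map_pow, mul_comm, zpow_natCast]
  · apply Units.ext
    apply hinj
    have h1 := hab (l s) (l t)
    rw [he t, he s, map_mul, map_mul, hl, hl, map_zpow₀, map_zpow₀, he, he, mul_zpow, mul_zpow, ← zpow_mul,
      ← zpow_mul, mul_comm (n t) (n s), ← mul_assoc, ← mul_assoc] at h1
    have h2 := mul_right_cancel₀ (zpow_ne_zero _ hx0) h1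
    rw [Units.val_mul, Units.val_mul, Units.val_zpow_eq_zpow_val, Units.val_zpow_eq_zpow_val, map_mul, map_mul,
      map_zpow₀, map_zpow₀]
    exact h2

theorem ab_of_kum {n : G → ℤ} (hn : IsExp (H := H) n) {ε : Hˣ} (h : Kum n ε) : IsAb F ε := by
  have hw : 0 < wH H := Units.torsionOrder_pos H
  have hinj : Function.Injective (algebraMap H (AlgebraicClosure H)) := FaithfulSMul.algebraMap_injective _ _
  obtain ⟨e, he1, he2⟩ := h
  intro x hx s' t'
  have hx0 : x ≠ 0 := by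
    intro h0
    rw [h0, zero_pow hw.ne'] at hx
    exact ε.ne_zero (hinj (by rw [map_zero]; exact hx.symm))
  have key : ∀ (s' : AlgebraicClosure H ≃ₐ[F] AlgebraicClosure H) (s : G),
      (∀ x : H, s' (algebraMap H (AlgebraicClosure H) x) = algebraMap H (AlgebraicClosure H) (s • x)) →
      ∃ ζ : Hˣ, ζ ^ (wH H) = 1 ∧ s' x = algebraMap H (AlgebraicClosure H) ((ζ * e s : Hˣ) : H) * x ^ n s := by
    intro s' s hs
    have he0 : algebraMap H (AlgebraicClosure H) (e s : H) ≠ 0 := by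
      rw [Ne, map_eq_zero_iff _ hinj]
      exact (e s).ne_zero
    have h1 : (s' x / (algebraMap H (AlgebraicClosure H) (e s : H) * x ^ n s)) ^ (wH H) = 1 := by
      rw [div_pow, ← map_pow, hx, hs]
      have h2 : s • (ε : H) = ((ε ^ n s * e s ^ (wH H) : Hˣ) : H) := by rw [← he1 s]; rfl
      rw [h2, Units.val_mul, Units.val_zpow_eq_zpow_val, Units.val_pow_eq_pow_val, map_mul, map_zpow₀, map_pow, mul_pow, ← hx, ← zpow_natCast x, ← zpow_mul, mul_comm ((wH H : ℕ) : ℤ),
        zpow_mul, zpow_natCast, mul_comm]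
      exact div_self (mul_ne_zero (pow_ne_zero _ he0) (pow_ne_zero _ (zpow_ne_zero _ hx0)))
    obtain ⟨ζ, hζ, hζx⟩ := root_mem _ h1
    refine ⟨ζ, hζ, ?_⟩
    rw [div_eq_iff (mul_ne_zero he0 (zpow_ne_zero _ hx0))] at hζx
    rw [hζx, Units.val_mul, map_mul]
    ring
  obtain ⟨s, hs⟩ := exists_restrict (G := G) s'
  obtain ⟨t, ht⟩ := exists_restrict (G := G) t'
  obtain ⟨ζ, hζ, h1⟩ := key s' s hs
  obtain ⟨ξ, hξ, h2⟩ := key t' t ht
  have h3 : s' (t' x) = algebraMap H (AlgebraicClosure H)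
      ((act s (ξ * e t) * (ζ * e s) ^ n t : Hˣ) : H) * x ^ (n s * n t) := by
    have h5 : ((act s (ξ * e t) * (ζ * e s) ^ n t : Hˣ) : H) = s • ((ξ * e t : Hˣ) : H) * ((ζ * e s : Hˣ) : H) ^ n t := by
      rw [Units.val_mul, Units.val_zpow_eq_zpow_val]
      rfl
    rw [h5, h2, map_mul, hs, map_zpow₀, h1, mul_zpow, ← zpow_mul, ← map_zpow₀, ← mul_assoc, ← map_mul]
  have h4 : t' (s' x) = algebraMap H (AlgebraicClosure H)
      ((act t (ζ * e s) * (ξ * e t) ^ n s : Hˣ) : H) * x ^ (n t * n s) := by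
    have h5 : ((act t (ζ * e s) * (ξ * e t) ^ n s : Hˣ) : H) = t • ((ζ * e s : Hˣ) : H) * ((ξ * e t : Hˣ) : H) ^ n s := by
      rw [Units.val_mul, Units.val_zpow_eq_zpow_val]
      rfl
    rw [h5, h1, map_mul, ht, map_zpow₀, h2, mul_zpow, ← zpow_mul, ← map_zpow₀, ← mul_assoc, ← map_mul]
  rw [h3, h4, mul_comm (n t) (n s)]
  congr 3
  rw [act_map_mul, act_map_mul, mul_zpow, mul_zpow, hn s ξ hξ, hn t ζ hζ]
  have h5 := he2 s t
  calc ξ ^ n s * act s (e t) * (ζ ^ n t * e s ^ n t) = ξ ^ n s * ζ ^ n t * (act s (e t) * e s ^ n t) := by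
        simp only [mul_comm, mul_left_comm, mul_assoc]
    _ = ξ ^ n s * ζ ^ n t * (act t (e s) * e t ^ n s) := by rw [h5]
    _ = ζ ^ n t * act t (e s) * (ξ ^ n s * e t ^ n s) := by
        simp only [mul_comm, mul_left_comm, mul_assoc]

variable (H G) in
theorem exists_isExp : ∃ n : G → ℤ, IsExp (H := H) n := by
  choose n hn using fun s : G => exists_exp (H := H) s
  exact ⟨n, fun s ζ hζ => hn s ζ hζ⟩

theorem ab_iff {n : G → ℤ} (hn : IsExp (H := H) n) (ε : Hˣ) : IsAb F ε ↔ Kum n ε :=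
  ⟨kum_of_ab hn, ab_of_kum hn⟩

theorem act_zpow (γ : G) (x : Hˣ) (n : ℤ) : act γ (x ^ n) = act γ x ^ n :=
  map_zpow (Units.map (MulSemiringAction.toRingHom G H γ : H →* H)) _ _

theorem Kum.mul {n : G → ℤ} {ε ε' : Hˣ} (h : Kum n ε) (h' : Kum n ε') : Kum n (ε * ε') := by
  obtain ⟨e, h1, h2⟩ := h
  obtain ⟨e', h1', h2'⟩ := h'
  refine ⟨fun s => e s * e' s, fun s => ?_, fun s t => ?_⟩
  · rw [act_map_mul, h1, h1', mul_zpow, mul_pow]
    simp only [mul_comm, mul_left_comm, mul_assoc]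
  · rw [act_map_mul, act_map_mul, mul_zpow, mul_zpow]
    calc act s (e t) * act s (e' t) * (e s ^ n t * e' s ^ n t) =
          (act s (e t) * e s ^ n t) * (act s (e' t) * e' s ^ n t) := by
          simp only [mul_comm, mul_left_comm, mul_assoc]
      _ = (act t (e s) * e t ^ n s) * (act t (e' s) * e' t ^ n s) := by rw [h2, h2']
      _ = _ := by simp only [mul_comm, mul_left_comm, mul_assoc]

theorem Kum.zpow {n : G → ℤ} {ε : Hˣ} (h : Kum n ε) (m : ℤ) : Kum n (ε ^ m) := by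
  obtain ⟨e, h1, h2⟩ := h
  refine ⟨fun s => e s ^ m, fun s => ?_, fun s t => ?_⟩
  · rw [act_zpow, h1, mul_zpow, ← zpow_mul, ← zpow_mul, mul_comm (n s) m, ← zpow_natCast (e s), ← zpow_natCast (e s ^ m),
      ← zpow_mul, ← zpow_mul, mul_comm m ((wH H : ℕ) : ℤ)]
  · rw [act_zpow, act_zpow, ← zpow_mul, ← zpow_mul, mul_comm m (n t), mul_comm m (n s), zpow_mul, zpow_mul,
      ← mul_zpow, ← mul_zpow, h2]

theorem Kum.actG {n : G → ℤ} {ε : Hˣ} (h : Kum n ε) (γ : G) : Kum n (act γ ε) := by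
  obtain ⟨e, h1, h2⟩ := h
  refine ⟨fun s => act γ (e s), fun s => ?_, fun s t => ?_⟩
  · rw [← act_mul, mul_comm, act_mul, h1, act_map_mul, act_zpow, act_pow]
  · rw [← act_mul, ← act_mul, mul_comm s γ, mul_comm t γ, act_mul, act_mul, ← act_zpow, ← act_zpow, ← act_map_mul,
      ← act_map_mul, h2]

theorem Kum.one (n : G → ℤ) : Kum n (1 : Hˣ) :=
  ⟨fun _ => 1, fun s => by simp [act_map_one], fun s t => by simp [act_map_one]⟩

theorem Kum.gpow {n : G → ℤ} {ε : Hˣ} (h : Kum n ε) (z : MonoidAlgebra ℤ G) : Kum n (gp z ε) := by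
  induction z using MonoidAlgebra.induction_linear with
  | zero => rw [gp_zero]; exact Kum.one n
  | add a b ha hb => rw [gp_add]; exact ha.mul hb
  | single δ m => rw [gp_single]; exact (h.actG δ).zpow m

theorem Kum.prod {n : G → ℤ} {ι : Type} (s : Finset ι) (f : ι → Hˣ) (h : ∀ i ∈ s, Kum n (f i)) :
    Kum n (∏ i ∈ s, f i) := by
  classical
  induction s using Finset.induction_on with
  | empty => rw [Finset.prod_empty]; exact Kum.one n
  | insert a s ha ih =>
    rw [Finset.prod_insert ha]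
    exact (h a (Finset.mem_insert_self _ _)).mul (ih fun i hi => h i (Finset.mem_insert_of_mem hi))

theorem gp_zsmul (n : ℤ) (z : MonoidAlgebra ℤ G) (x : Hˣ) : gp (n • z) x = gp z x ^ n := by
  have h := map_zsmul (gpHom (G := G) x) n z
  exact congrArg Additive.toMul h

/-- **The main lemma**: if `ε` is abelian then the powers `π ^ φ(ε)` are abelian, for all `π`. -/
theorem Kum.pow_hom {n : G → ℤ} {U : Subgroup Hˣ} (hU : ∀ (γ : G) (x : Hˣ), x ∈ U → act γ x ∈ U)
    (hsat : ∀ x : Hˣ, x ^ (wH H) ∈ U → x ∈ U) (ε : U) (h : Kum n (ε : Hˣ)) (φ : GHom G U) (π : Hˣ) :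
    Kum n (gp (φ.f (Additive.ofMul ε)) π) := by
  obtain ⟨e, h1, h2⟩ := h
  have he : ∀ s, e s ∈ U := by
    intro s
    apply hsat
    have h3 : e s ^ (wH H) = ((ε : Hˣ) ^ n s)⁻¹ * act s (ε : Hˣ) := by rw [h1]; group
    rw [h3]
    exact U.mul_mem (U.inv_mem (U.zpow_mem ε.2 _)) (hU _ _ ε.2)
  have h3 : ∀ s, MonoidAlgebra.single s 1 * φ.f (Additive.ofMul ε) =
      n s • φ.f (Additive.ofMul ε) + (wH H) • φ.f (Additive.ofMul ⟨e s, he s⟩) := by
    intro s
    rw [← φ.equiv s ε (ε ^ n s * ⟨e s, he s⟩ ^ (wH H)) (by rw [h1 s]; rfl), ofMul_mul, ofMul_zpow, ofMul_pow, map_add,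
      map_zsmul, map_nsmul]
  refine ⟨fun s => gp (φ.f (Additive.ofMul ⟨e s, he s⟩)) π, fun s => ?_, fun s t => ?_⟩
  · rw [← gp_single_mul, h3, gp_add, gp_zsmul, gp_nsmul]
  · rw [← gp_single_mul, ← gp_single_mul, ← gp_zsmul, ← gp_zsmul, ← gp_add, ← gp_add]
    congr 1
    have key : ∀ s t, MonoidAlgebra.single s 1 * φ.f (Additive.ofMul ⟨e t, he t⟩) +
        n t • φ.f (Additive.ofMul ⟨e s, he s⟩) =
        φ.f (Additive.ofMul (⟨act s (e t), hU _ _ (he t)⟩ * ⟨e s, he s⟩ ^ n t)) := by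
      intro s t
      rw [ofMul_mul, ofMul_zpow, map_add, map_zsmul, φ.equiv s ⟨e t, he t⟩ ⟨act s (e t), hU _ _ (he t)⟩ rfl]
    rw [key, key]
    congr 2
    exact Subtype.ext (h2 s t)

end Pool.Agent.T9h51.PS
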