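import Pool.Agent.T9h51.PS.Val
import Pool.Agent.T9h51.PS.Kummer

/-!
# Popescu's conjecture: definitions

`F ⊆ H` are number fields, `H / F` is Galois with finite commutative group `G`. A finite set `S` of places of `F`
containing the archimedean ones is given by its set of prime ideals. The places of `H`, the elements of `ℚ ⋀^r U` (formal
sums), their regulators and the homomorphisms `U → ℤ[G]` are as in `Pool.Agent.K3h30.RS.Defs`.
-/

set_option autoImplicit false
set_option linter.unusedSectionVars false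

open NumberField IsDedekindDomain Filter Topology

noncomputable section

namespace Pool.Agent.T9h51.PS

open Pool.Agent.K3h30.RS

variable {F H G : Type} [Field F] [NumberField F] [Field H] [NumberField H] [Algebra F H]
  [CommGroup G] [Finite G] [MulSemiringAction G H]

/-- `S` contains all prime ideals which ramify in `H`: condition (H1). -/
def Unram (H : Type) [Field H] [NumberField H] [Algebra F H] (S : Finset (HeightOneSpectrum (𝓞 F))) : Prop :=
  ∀ v : HeightOneSpectrum (𝓞 F), v ∉ S → Squarefree (v.asIdeal.map (algebraMap (𝓞 F) (𝓞 H)))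

variable (F H G) in
/-- The Frobenius automorphisms `σ v` and the functions `L_S(s, χ)`: their analytic continuations, holomorphic for
`s ≠ 1`, equal to the Euler product over the prime ideals not in `S` for `re s > 1`. -/
structure LData where
  /-- the Frobenius automorphisms -/
  σ : HeightOneSpectrum (𝓞 F) → G
  frob : ∀ v : HeightOneSpectrum (𝓞 F), Squarefree (v.asIdeal.map (algebraMap (𝓞 F) (𝓞 H))) →
    IsFrob (H := H) v (σ v)
  /-- the function `L_S(s, χ)` -/
  L : Finset (HeightOneSpectrum (𝓞 F)) → (G →* ℂˣ) → ℂ → ℂ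
  analytic : ∀ S, Unram H S → ∀ χ, DifferentiableOn ℂ (L S χ) {1}ᶜ
  euler : ∀ S, Unram H S → ∀ (χ : G →* ℂˣ) (s : ℂ), 1 < s.re →
    HasProd (fun v : {v : HeightOneSpectrum (𝓞 F) // v ∉ S} =>
      (1 - (χ (σ v) : ℂ) * (Ideal.absNorm (v : HeightOneSpectrum (𝓞 F)).asIdeal : ℂ) ^ (-s))⁻¹)
      (L S χ s)

/-- Conditions (H2) and (H3): `w_1, ..., w_r` lie over distinct places `v_1, ..., v_r` of `S` which split completely, and
`S` contains a further place. -/
structure System (G : Type) [CommGroup G] [MulSemiringAction G H] (S : Finset (HeightOneSpectrum (𝓞 F))) {r : ℕ}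
    (w : Fin r → Place H) : Prop where
  inS : ∀ i, InS (S : Set (HeightOneSpectrum (𝓞 F))) (w i)
  splits : ∀ i, ∀ γ : G, Fixes (w i) γ → γ = 1
  distinct : ∀ i j, Conj G (w i) (w j) → i = j
  more : ∃ u : Place H, InS (S : Set (HeightOneSpectrum (𝓞 F))) u ∧ ∀ i, ¬ Conj G u (w i)

/-- The set of characters used in the conjecture, by the formula for the order of vanishing: `χ` is not trivial on the
decomposition groups of the places of `S` other than `v_1, ..., v_r`, or `χ = 1` and there is only one such place. -/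
def Active (S : Finset (HeightOneSpectrum (𝓞 F))) {r : ℕ} (w : Fin r → Place H) (χ : G →* ℂˣ) : Prop :=
  (∀ u : Place H, InS (S : Set (HeightOneSpectrum (𝓞 F))) u → (∀ i, ¬ Conj G u (w i)) →
    ∃ γ : G, Fixes u γ ∧ χ γ ≠ 1) ∨
  (χ = 1 ∧ ∀ u u' : Place H, InS (S : Set (HeightOneSpectrum (𝓞 F))) u →
    InS (S : Set (HeightOneSpectrum (𝓞 F))) u' → (∀ i, ¬ Conj G u (w i)) →
    (∀ i, ¬ Conj G u' (w i)) → Conj G u u')

/-- The element `η'` of `ℚ ⋀^r E_S(H)`: its coefficients are in `e' ℚ[G]`, and for the characters `χ` above the limit of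
`s ^ (-r) L_S(s, χ)` at `s = 0` is the value of `χ⁻¹` at `R (η')`, where `R = (-1) ^ r det (log)`. -/
structure IsEta (Λ : LData F H G) (S : Finset (HeightOneSpectrum (𝓞 F))) {r : ℕ} (w : Fin r → Place H)
    (u : Wedge G r (US H S)) : Prop where
  inE : ∀ χ : G →* ℂˣ, ¬ Active S w χ → ∀ k, charValue χ (toR (u.c k)) = 0
  stark : ∀ χ : G →* ℂˣ, Active S w χ → Tendsto (fun s : ℂ => (s ^ r)⁻¹ * Λ.L S χ s) (𝓝[≠] 0)
    (𝓝 ((-1) ^ r * charValue χ⁻¹ (u.regulator w)))

/-- `w_H u` belongs to Popescu's lattice: for all `φ_1, ..., φ_(r-1)` the element `(φ_1 ∧ ... ∧ φ_(r-1)) (w_H u)` is the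
image of some `ε` in `E_S(H)` with `H(ε ^ (1 / w_H)) / F` abelian. The equality in `ℚ E_S(H)` is tested with all
homomorphisms `ψ`. -/
def InLattice {S : Finset (HeightOneSpectrum (𝓞 F))} {m : ℕ} (u : Wedge G (m + 1) (US H S)) : Prop :=
  ∀ φ : Fin m → GHom G (US H S), ∃ ε : US H S, IsAb F (ε : Hˣ) ∧ ∀ ψ : GHom G (US H S),
    (Units.torsionOrder H : MonoidAlgebra ℚ G) * u.value (Fin.snoc φ ψ) = toQ (ψ.f (Additive.ofMul ε))

/-- Popescu's conjecture for `H / F`, `S`, `r = m + 1` and the places `w_1, ..., w_r`. -/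
def Popescu (Λ : LData F H G) (S : Finset (HeightOneSpectrum (𝓞 F))) {m : ℕ} (w : Fin (m + 1) → Place H) : Prop :=
  ∃ u : Wedge G (m + 1) (US H S), IsEta Λ S w u ∧ InLattice u

end Pool.Agent.T9h51.PS
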