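import Pool.Agent.T9h51.PS.Reg

/-!
# Places which split completely: from `S ∪ {v}` to `S`
-/

set_option autoImplicit false
set_option linter.unusedSectionVars false

open NumberField IsDedekindDomain Filter Topology

noncomputable section

namespace Pool.Agent.T9h51.PS

open Pool.Agent.K3h30.RS

variable {F H G : Type} [Field F] [NumberField F] [Field H] [NumberField H] [Algebra F H]
  [CommGroup G] [Finite G] [MulSemiringAction G H] [IsGaloisGroup G F H]

/-- the places of `S` other than the `v_i` -/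
def Oth (G : Type) [CommGroup G] [MulSemiringAction G H] (S : Finset (HeightOneSpectrum (𝓞 F))) {r : ℕ}
    (w : Fin r → Place H) (u : Place H) : Prop :=
  InS (S : Set (HeightOneSpectrum (𝓞 F))) u ∧ ∀ i, ¬ Conj G u (w i)

theorem active_iff (S : Finset (HeightOneSpectrum (𝓞 F))) {r : ℕ} (w : Fin r → Place H) (χ : G →* ℂˣ) :
    Active S w χ ↔ (∀ u : Place H, Oth G S w u → ∃ γ : G, Fixes u γ ∧ χ γ ≠ 1) ∨
      (χ = 1 ∧ ∀ u u' : Place H, Oth G S w u → Oth G S w u' → Conj G u u') := by
  constructor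
  · rintro (h | ⟨h1, h2⟩)
    · exact Or.inl fun u hu => h u hu.1 hu.2
    · exact Or.inr ⟨h1, fun u u' hu hu' => h2 u u' hu.1 hu'.1 hu.2 hu'.2⟩
  · rintro (h | ⟨h1, h2⟩)
    · exact Or.inl fun u hu hu' => h u ⟨hu, hu'⟩
    · exact Or.inr ⟨h1, fun u u' a b c d => h2 u u' ⟨a, c⟩ ⟨b, d⟩⟩

theorem active_congr {S S' : Finset (HeightOneSpectrum (𝓞 F))} {r r' : ℕ} {w : Fin r → Place H}
    {w' : Fin r' → Place H} (h : ∀ u, Oth G S w u ↔ Oth G S' w' u) (χ : G →* ℂˣ) : Active S w χ ↔ Active S' w' χ := by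
  rw [active_iff, active_iff]
  simp only [h]

section insert

variable [DecidableEq (HeightOneSpectrum (𝓞 F))] {v : HeightOneSpectrum (𝓞 F)} {S : Finset (HeightOneSpectrum (𝓞 F))}
  {P : HeightOneSpectrum (𝓞 H)} {r : ℕ} {w : Fin r → Place H}

theorem inS_insert (u : Place H) (h : InS (S : Set (HeightOneSpectrum (𝓞 F))) u) :
    InS ((insert v S : Finset (HeightOneSpectrum (𝓞 F))) : Set (HeightOneSpectrum (𝓞 F))) u := by
  rcases u with q | w'
  · trivial
  · exact (above_insert_iff w').2 (Or.inr h)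

theorem not_conj_P (hv : v ∉ S) (hP : Above {v} P) {u : Place H} (h : InS (S : Set (HeightOneSpectrum (𝓞 F))) u) :
    ¬ Conj G u (Sum.inr P) := by
  intro hc
  have h1 := (inS_conj (S : Set (HeightOneSpectrum (𝓞 F))) hc).1 h
  exact not_above_of hv hP h1

theorem oth_cons (hv : v ∉ S) (hP : Above {v} P) (u : Place H) :
    Oth G (insert v S) (Fin.cons (Sum.inr P) w : Fin (r + 1) → Place H) u ↔ Oth G S w u := by
  constructor
  · rintro ⟨h1, h2⟩
    refine ⟨?_, fun i => ?_⟩
    · rcases u with q | w'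
      · trivial
      · rcases (above_insert_iff w').1 h1 with h3 | h3
        · exact absurd (conj_above hP h3) (by simpa using h2 0)
        · exact h3
    · have := h2 i.succ
      rwa [Fin.cons_succ] at this
  · rintro ⟨h1, h2⟩
    refine ⟨inS_insert u h1, fun i => ?_⟩
    refine Fin.cases ?_ (fun i => ?_) i
    · rw [Fin.cons_zero]
      exact not_conj_P hv hP h1
    · rw [Fin.cons_succ]
      exact h2 i

theorem system_cons (hv : v ∉ S) (hP : Above {v} P) (hs : ∀ γ : G, Fixes (Sum.inr P : Place H) γ → γ = 1)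
    (hw : System G S w) : System G (insert v S) (Fin.cons (Sum.inr P) w : Fin (r + 1) → Place H) where
  inS i := by
    refine Fin.cases ?_ (fun i => ?_) i
    · rw [Fin.cons_zero]
      exact (above_insert_iff P).2 (Or.inl hP)
    · rw [Fin.cons_succ]
      exact inS_insert _ (hw.inS i)
  splits i := by
    refine Fin.cases ?_ (fun i => ?_) i
    · rw [Fin.cons_zero]
      exact hs
    · rw [Fin.cons_succ]
      exact hw.splits i
  distinct i j := by
    refine Fin.cases ?_ (fun i => ?_) i
    · refine Fin.cases ?_ (fun j => ?_) j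
      · intro _
        rfl
      · rw [Fin.cons_zero, Fin.cons_succ]
        intro h
        exact absurd (conj_symm h) (not_conj_P hv hP (hw.inS j))
    · refine Fin.cases ?_ (fun j => ?_) j
      · rw [Fin.cons_zero, Fin.cons_succ]
        intro h
        exact absurd h (not_conj_P hv hP (hw.inS i))
      · rw [Fin.cons_succ, Fin.cons_succ]
        intro h
        rw [hw.distinct i j h]
  more := by
    obtain ⟨u, hu1, hu2⟩ := hw.more
    exact ⟨u, (oth_cons hv hP u).2 ⟨hu1, hu2⟩⟩

end insert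

section evl

variable {R : Type} [CommRing R]

theorem ev_cons_mul {r : ℕ} {U : Subgroup Hˣ} (κ : MonoidAlgebra ℚ G →+* R) (u : Wedge G (r + 1) U)
    (f0 f0' : Additive U →+ R) (E : Fin r → Additive U →+ R) (c : R) (h : ∀ x, f0' x = c * f0 x) :
    ev κ u (Fin.cons f0' E) = c * ev κ u (Fin.cons f0 E) := by
  unfold ev
  rw [Finset.mul_sum]
  refine Finset.sum_congr rfl fun k _ => ?_
  rw [Matrix.det_succ_row_zero, Matrix.det_succ_row_zero, Finset.mul_sum, Finset.mul_sum, Finset.mul_sum]
  refine Finset.sum_congr rfl fun j _ => ?_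
  simp only [Matrix.of_apply, Fin.cons_zero]
  have h1 : (Matrix.of fun (a : Fin (r + 1)) b => (Fin.cons f0' E : Fin (r + 1) → Additive U →+ R) a
      (Additive.ofMul (u.x k b))).submatrix Fin.succ j.succAbove =
      (Matrix.of fun (a : Fin (r + 1)) b => (Fin.cons f0 E : Fin (r + 1) → Additive U →+ R) a
      (Additive.ofMul (u.x k b))).submatrix Fin.succ j.succAbove := by
    ext a b
    simp only [Matrix.submatrix_apply, Matrix.of_apply, Fin.cons_succ]
  rw [h1, h]
  ring

/-- equal homomorphisms give the value zero -/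
theorem ev_eq_zero {r : ℕ} {U : Subgroup Hˣ} (κ : MonoidAlgebra ℚ G →+* R) (u : Wedge G r U)
    (E : Fin r → Additive U →+ R) {i j : Fin r} (hij : i ≠ j) (h : E i = E j) : ev κ u E = 0 := by
  unfold ev
  refine Finset.sum_eq_zero fun k _ => ?_
  rw [Matrix.det_zero_of_row_eq hij, mul_zero]
  funext b
  simp only [Matrix.of_apply, h]

end evl

theorem charValue_zero_of_mul (χ : G →* ℂˣ) (a b : MonoidAlgebra ℚ G) (h : charValue χ (toR a) = 0) :
    charValue χ (toR (a * b)) = 0 := by
  rw [map_mul, Pool.Agent.K3h62.RS.charValue_mul, h, zero_mul]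

theorem charValue_algebraMap (χ : G →* ℂˣ) (c : ℝ) (y : MonoidAlgebra ℝ G) :
    charValue χ (algebraMap ℝ (MonoidAlgebra ℝ G) c * y) = (c : ℂ) * charValue χ y := by
  rw [Pool.Agent.K3h62.RS.charValue_mul, Pool.Agent.K3h62.RS.charValue_eq χ (algebraMap ℝ _ c), AlgHom.commutes]
  rfl

theorem toQ_injective : Function.Injective (toQ : MonoidAlgebra ℤ G →+* MonoidAlgebra ℚ G) := by
  intro a b h
  ext γ
  have h1 := congrArg (fun z : MonoidAlgebra ℚ G => z.coeff γ) h
  have h2 : ∀ z : MonoidAlgebra ℤ G, (toQ z).coeff γ = ((z.coeff γ : ℤ) : ℚ) := by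
    intro z
    simp [toQ]
  simp only [h2] at h1
  exact_mod_cast h1

section down

variable [DecidableEq (HeightOneSpectrum (𝓞 F))] {v : HeightOneSpectrum (𝓞 F)} {S : Finset (HeightOneSpectrum (𝓞 F))}
  {P : HeightOneSpectrum (𝓞 H)} {m : ℕ} {w : Fin (m + 1) → Place H}

theorem sigma_one (Λ : LData F H G) (hS : Unram H S) (hv : v ∉ S) (hP : Above {v} P)
    (hs : ∀ γ : G, Fixes (Sum.inr P : Place H) γ → γ = 1) : Λ.σ v = 1 :=
  hs _ (frob_fixes (Λ.frob v (hS v hv)) hP)

/-- **From `S ∪ {v}` to `S`**, `v` split completely. -/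
theorem popescu_down (Λ : LData F H G) (hS : Unram H S) (hv : v ∉ S) (hP : Above {v} P)
    (hs : ∀ γ : G, Fixes (Sum.inr P : Place H) γ → γ = 1)
    (h : Popescu Λ (insert v S) (Fin.cons (Sum.inr P) w : Fin (m + 1 + 1) → Place H)) : Popescu Λ S w := by
  obtain ⟨u', hE, hL⟩ := h
  have hσ := sigma_one Λ hS hv hP hs
  have hN : Ideal.absNorm P.asIdeal = Ideal.absNorm v.asIdeal := by
    have h1 := Λ.frob v (hS v hv)
    rw [hσ] at h1
    exact absNorm_of_frob_one h1 hP
  obtain ⟨h, x, hh, hx1, hx2⟩ := exists_gen P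
  have hxU : x ∈ US H (insert v S) := mem_insert_of hP x fun w' h1 _ => hx2 w' h1
  have hle : US H S ≤ US H (insert v S) := US_mono (Finset.subset_insert v S)
  have hπ : (ordG (G := G) (insert v S) P).f (Additive.ofMul ⟨x, hxU⟩) = MonoidAlgebra.single 1 (h : ℤ) :=
    ordG_gen hv hP hs ⟨x, hxU⟩ h hx1 fun w' h1 _ => hx2 w' h1
  have hker : ∀ y : US H (insert v S), (ordG (G := G) (insert v S) P).f (Additive.ofMul y) = 0 → (y : Hˣ) ∈ US H S :=
    fun y => (ordG_zero_iff hv hP y).1
  have hker0 : ∀ y : US H S, (ordG (G := G) (insert v S) P).f (Additive.ofMul (Subgroup.inclusion hle y)) = 0 :=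
    fun y => (ordG_zero_iff hv hP _).2 y.2
  have hU' := US_act (G := G) (H := H) (insert v S)
  refine ⟨contract hU' (ordG (insert v S) P) hker ⟨x, hxU⟩ h hπ u', ⟨fun χ hχ k => ?_, fun χ hχ => ?_⟩, fun φ => ?_⟩
  · refine charValue_zero_of_mul χ _ _ (hE.inE χ ?_ _)
    rw [active_congr (oth_cons hv hP) χ]
    exact hχ
  · have h1 : Active (insert v S) (Fin.cons (Sum.inr P) w : Fin (m + 1 + 1) → Place H) χ := by
      rw [active_congr (oth_cons hv hP) χ]
      exact hχ
    have h2 := hE.stark χ h1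
    have h3 : u'.regulator (Fin.cons (Sum.inr P) w : Fin (m + 1 + 1) → Place H) =
        algebraMap ℝ (MonoidAlgebra ℝ G) (-Real.log (Ideal.absNorm P.asIdeal : ℝ)) *
        (contract hU' (ordG (insert v S) P) hker ⟨x, hxU⟩ h hπ u').regulator w := by
      have h4 : (contract hU' (ordG (insert v S) P) hker ⟨x, hxU⟩ h hπ u').regulator w =
          ev (toR (G := G)) u' (Fin.cons (((toR (G := G)).comp toQ : MonoidAlgebra ℤ G →+* MonoidAlgebra ℝ G).toAddMonoidHom.comp
            (ordG (insert v S) P).f) fun a => regHom G (w a) (US H (insert v S))) :=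
        ev_contract hU' (ordG (insert v S) P) hker ⟨x, hxU⟩ h hh hπ hle u' (toR (G := G))
          (fun a => regHom G (w a) (US H (insert v S))) fun a => equi_reg _ _
      rw [h4, ← ev_cons_mul (f0' := regHom G (Sum.inr P) (US H (insert v S)))]
      · rw [regulator_eq_ev]
        congr 1
        funext a
        refine Fin.cases ?_ (fun a => ?_) a
        · rfl
        · rfl
      · intro y
        have h5 := reg_ordG (G := G) (insert v S) P (Additive.toMul y)
        rw [Algebra.smul_def] at h5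
        exact h5
    rw [h3, charValue_algebraMap, hN] at h2
    refine lim_down Λ hS hv hσ χ (m + 1) ?_
    have h4 : (-1 : ℂ) ^ (m + 1 + 1) * (((-Real.log (Ideal.absNorm v.asIdeal : ℝ) : ℝ) : ℂ) *
        charValue χ⁻¹ ((contract hU' (ordG (insert v S) P) hker ⟨x, hxU⟩ h hπ u').regulator w)) =
        (Real.log (Ideal.absNorm v.asIdeal) : ℂ) * ((-1) ^ (m + 1) *
          charValue χ⁻¹ ((contract hU' (ordG (insert v S) P) hker ⟨x, hxU⟩ h hπ u').regulator w)) := by
      push_cast
      ring
    rw [← h4]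
    exact h2
  · have hU := US_act (G := G) (H := H) S
    choose φ' hφ' using fun i => ext_ghom hle hU hU' (ordG (G := G) (insert v S) P).f hker hker0 (φ i)
    obtain ⟨ε', hab, hε'⟩ := hL (Fin.cons (ordG (insert v S) P) φ')
    have h1 : (ordG (G := G) (insert v S) P).f (Additive.ofMul ε') = 0 := by
      apply toQ_injective
      rw [← hε', map_zero, value_eq, ev_eq_zero (i := 0) (j := Fin.last (m + 1)), mul_zero]
      · exact (Fin.last_pos).ne
      · have e1 : (Fin.snoc (Fin.cons (ordG (G := G) (insert v S) P) φ' : Fin (m + 1) → GHom G (US H (insert v S)))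
            (ordG (insert v S) P) : Fin (m + 1 + 1) → GHom G (US H (insert v S))) 0 = ordG (insert v S) P := by
          have : (0 : Fin (m + 1 + 1)) = Fin.castSucc 0 := rfl
          rw [this, Fin.snoc_castSucc, Fin.cons_zero]
        have e2 : (Fin.snoc (Fin.cons (ordG (G := G) (insert v S) P) φ' : Fin (m + 1) → GHom G (US H (insert v S)))
            (ordG (insert v S) P) : Fin (m + 1 + 1) → GHom G (US H (insert v S))) (Fin.last (m + 1)) =
            ordG (insert v S) P := Fin.snoc_last _ _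
        simp only [e1, e2]
    refine ⟨⟨(ε' : Hˣ), hker ε' h1⟩, hab, fun ψ => ?_⟩
    obtain ⟨ψ', hψ'⟩ := ext_ghom hle hU hU' (ordG (G := G) (insert v S) P).f hker hker0 ψ
    have h2 := hε' ψ'
    have h3 : (contract hU' (ordG (insert v S) P) hker ⟨x, hxU⟩ h hπ u').value (Fin.snoc φ ψ) =
        u'.value (Fin.snoc (Fin.cons (ordG (G := G) (insert v S) P) φ' : Fin (m + 1) → GHom G (US H (insert v S))) ψ') := by
      have h4 := ev_contract hU' (ordG (insert v S) P) hker ⟨x, hxU⟩ h hh hπ hle u' (RingHom.id (MonoidAlgebra ℚ G))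
        (fun a => (toQ (G := G) : MonoidAlgebra ℤ G →+ MonoidAlgebra ℚ G).comp
          ((Fin.snoc φ' ψ' : Fin (m + 1) → GHom G (US H (insert v S))) a).f) fun a => equi_toQ _
      rw [value_eq, value_eq]
      have h5 : (fun a => ((toQ (G := G) : MonoidAlgebra ℤ G →+ MonoidAlgebra ℚ G).comp
          ((Fin.snoc φ' ψ' : Fin (m + 1) → GHom G (US H (insert v S))) a).f).comp
          (MonoidHom.toAdditive (Subgroup.inclusion hle))) =
          fun a => (toQ (G := G) : MonoidAlgebra ℤ G →+ MonoidAlgebra ℚ G).comp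
            ((Fin.snoc φ ψ : Fin (m + 1) → GHom G (US H S)) a).f := by
        funext a
        refine AddMonoidHom.ext fun y => ?_
        change toQ (((Fin.snoc φ' ψ' : Fin (m + 1) → GHom G (US H (insert v S))) a).f
          (Additive.ofMul (Subgroup.inclusion hle (Additive.toMul y)))) =
          toQ (((Fin.snoc φ ψ : Fin (m + 1) → GHom G (US H S)) a).f (Additive.ofMul (Additive.toMul y)))
        refine Fin.lastCases ?_ (fun a => ?_) a
        · rw [Fin.snoc_last, Fin.snoc_last, hψ']
        · rw [Fin.snoc_castSucc, Fin.snoc_castSucc, hφ']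
      rw [h5] at h4
      rw [h4]
      congr 1
      funext a
      rw [← Fin.cons_snoc_eq_snoc_cons]
      refine Fin.cases ?_ (fun a => ?_) a
      · rfl
      · rfl
    rw [h3, h2]
    congr 1
    have h6 := hψ' ⟨(ε' : Hˣ), hker ε' h1⟩
    rw [← h6]
    rfl

end down

end Pool.Agent.T9h51.PS
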