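import Pool.Agent.T9h51.PS.Spl

/-!
# The existence of the set `S₁`
-/

set_option autoImplicit false
set_option linter.unusedSectionVars false

open NumberField IsDedekindDomain Filter Topology

noncomputable section

namespace Pool.Agent.T9h51.PS

open Pool.Agent.K3h30.RS

variable {F H G : Type} [Field F] [NumberField F] [Field H] [NumberField H] [Algebra F H]
  [CommGroup G] [Finite G] [MulSemiringAction G H] [IsGaloisGroup G F H]

theorem above_finite (S : Finset (HeightOneSpectrum (𝓞 F))) :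
    {P : HeightOneSpectrum (𝓞 H) | Above (S : Set (HeightOneSpectrum (𝓞 F))) P}.Finite := by
  refine (S.finite_toSet.biUnion fun v _ => (Pool.Agent.K3h25.RS.t_OVER F H v).2).subset fun P hP => ?_
  obtain ⟨v, hv, hP'⟩ := above_mem hP
  exact Set.mem_biUnion hv hP'

/-- The prime ideals over a finite set or of norm not a prime number are a thin set. -/
theorem summable_bad (S : Finset (HeightOneSpectrum (𝓞 F))) :
    Summable fun P : HeightOneSpectrum (𝓞 H) => ({P | Above (S : Set (HeightOneSpectrum (𝓞 F))) P ∨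
      ¬ (Ideal.absNorm P.asIdeal).Prime} : Set (HeightOneSpectrum (𝓞 H))).indicator
      (fun P => ((Ideal.absNorm P.asIdeal : ℝ))⁻¹) P := by
  classical
  have h1 : Summable fun P : HeightOneSpectrum (𝓞 H) =>
      (if P ∈ (above_finite (H := H) S).toFinset then (1 : ℝ) else 0) :=
    summable_of_ne_finset_zero (s := (above_finite (H := H) S).toFinset) fun P hP => if_neg hP
  refine Summable.of_nonneg_of_le (fun P => Set.indicator_nonneg (fun P _ => by positivity) P) (fun P => ?_)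
    (h1.add (summable_bel H))
  have h2 : (2 : ℝ) ≤ Ideal.absNorm P.asIdeal := by exact_mod_cast Pool.Agent.K3h33.RS.norm_two P
  have hb : (0 : ℝ) < bel P := by exact_mod_cast (bel_prime P).pos
  by_cases hQ : P ∈ ({P | Above (S : Set (HeightOneSpectrum (𝓞 F))) P ∨
      ¬ (Ideal.absNorm P.asIdeal).Prime} : Set (HeightOneSpectrum (𝓞 H)))
  · rw [Set.indicator_of_mem hQ]
    rcases hQ with hQ | hQ
    · rw [if_pos ((above_finite S).mem_toFinset.2 hQ)]
      have h3 : ((Ideal.absNorm P.asIdeal : ℝ))⁻¹ ≤ 1 := inv_le_one_of_one_le₀ (by linarith)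
      have h4 : (0 : ℝ) ≤ (((bel P : ℕ) : ℝ) ^ 2)⁻¹ := by positivity
      linarith
    · have h3 : (((bel P ^ 2 : ℕ) : ℝ)) ≤ Ideal.absNorm P.asIdeal := by exact_mod_cast bel_sq_le P hQ
      have h4 : ((Ideal.absNorm P.asIdeal : ℝ))⁻¹ ≤ (((bel P : ℕ) : ℝ) ^ 2)⁻¹ := by
        push_cast at h3
        exact inv_anti₀ (by positivity) h3
      have h5 : (0 : ℝ) ≤ if P ∈ (above_finite (H := H) S).toFinset then (1 : ℝ) else 0 := by
        split_ifs <;> norm_num
      linarith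
  · rw [Set.indicator_of_notMem hQ]
    have h5 : (0 : ℝ) ≤ if P ∈ (above_finite (H := H) S).toFinset then (1 : ℝ) else 0 := by
      split_ifs <;> norm_num
    positivity

/-- a generator of a product of a prime ideal with an ideal prime to it -/
theorem gen_of_class (P : HeightOneSpectrum (𝓞 H)) (J : Ideal (𝓞 H)) (hJ : HasCl (cl P)⁻¹ J) (hPJ : ¬ P.asIdeal ∣ J) :
    ∃ x : Hˣ, od P (Additive.ofMul x) = 1 ∧ ∀ w' : HeightOneSpectrum (𝓞 H), w' ≠ P → ¬ w'.asIdeal ∣ J →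
      od w' (Additive.ofMul x) = 0 := by
  have h1 : HasCl (1 : ClassGroup (𝓞 H)) (P.asIdeal * J) := (hasCl_mul 1 P J).2 (by rw [one_mul]; exact hJ)
  obtain ⟨h2, h3⟩ := h1
  rw [ClassGroup.mk0_eq_one_iff] at h3
  obtain ⟨a, ha⟩ := h3
  have ha' : P.asIdeal * J = Ideal.span {a} := ha
  have hne : P.asIdeal * J ≠ ⊥ := nonZeroDivisors.ne_zero h2
  have ha0 : a ≠ 0 := by
    rintro rfl
    rw [Ideal.span_singleton_eq_bot.2 rfl] at ha'
    exact hne ha'
  have haH : (a : H) ≠ 0 := by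
    intro h0
    exact ha0 (FaithfulSMul.algebraMap_injective (𝓞 H) H (by rw [map_zero]; exact h0))
  have hmem : ∀ (w' : HeightOneSpectrum (𝓞 H)) (n : ℕ), a ∈ w'.asIdeal ^ n ↔ w'.asIdeal ^ n ∣ P.asIdeal * J := by
    intro w' n
    rw [Ideal.dvd_iff_le, ha', Ideal.span_le, Set.singleton_subset_iff]
    rfl
  refine ⟨Units.mk0 (a : H) haH, ?_, fun w' hw' hw'J => ?_⟩
  · have h4 := (od_ge_iff P a (Units.mk0 (a : H) haH) rfl 1).2 (by
      rw [hmem, pow_one]
      exact dvd_mul_right _ _)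
    have h5 : ¬ ((2 : ℕ) : ℤ) ≤ od P (Additive.ofMul (Units.mk0 (a : H) haH)) := by
      rw [od_ge_iff P a (Units.mk0 (a : H) haH) rfl, hmem, pow_two]
      intro h6
      exact hPJ ((mul_dvd_mul_iff_left (show P.asIdeal ≠ 0 from P.ne_bot)).1 h6)
    push_cast at h4 h5
    omega
  · have h4 := (od_ge_iff w' a (Units.mk0 (a : H) haH) rfl 0).2 (by rw [pow_zero, Ideal.one_eq_top]; trivial)
    have h5 : ¬ ((1 : ℕ) : ℤ) ≤ od w' (Additive.ofMul (Units.mk0 (a : H) haH)) := by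
      rw [od_ge_iff w' a (Units.mk0 (a : H) haH) rfl, hmem, pow_one]
      intro h6
      rcases w'.prime.dvd_or_dvd h6 with h7 | h7
      · exact Pool.Agent.K3h33.RS.not_dvd_of_ne hw' h7
      · exact hw'J h7
    push_cast at h4 h5
    omega

/-- **The set `S₁`.** -/
theorem exists_S1 (u₁ : Place H) (h₁ : ∃ γ : G, Fixes u₁ γ ∧ γ ≠ 1) (B : Finset (HeightOneSpectrum (𝓞 F)))
    (hB : ∀ v ∈ B, Squarefree (v.asIdeal.map (algebraMap (𝓞 F) (𝓞 H))) ∧
      ∀ P : HeightOneSpectrum (𝓞 H), u₁ = Sum.inr P → ¬ Above {v} P) :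
    ∃ (S₁ : Finset (HeightOneSpectrum (𝓞 F))) (m₁ : ℕ) (w₁ : Fin (m₁ + 1) → Place H),
      Unram H S₁ ∧ InS (S₁ : Set (HeightOneSpectrum (𝓞 F))) u₁ ∧ Disjoint S₁ B ∧ System G S₁ w₁ ∧ Full G S₁ w₁ ∧
      (∀ P : HeightOneSpectrum (𝓞 H), ¬ Above (S₁ : Set (HeightOneSpectrum (𝓞 F))) P → ∃ x : Hˣ,
        od P (Additive.ofMul x) = 1 ∧ ∀ w' : HeightOneSpectrum (𝓞 H), w' ≠ P →
          ¬ Above (S₁ : Set (HeightOneSpectrum (𝓞 F))) w' → od w' (Additive.ofMul x) = 0) ∧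
      ∀ S : Finset (HeightOneSpectrum (𝓞 F)), Unram H S → InS (S : Set (HeightOneSpectrum (𝓞 F))) u₁ →
        ∀ v ∈ S₁, v ∉ S → ∀ P : HeightOneSpectrum (𝓞 H), Above {v} P → ∀ γ : G,
          Fixes (Sum.inr P : Place H) γ → γ = 1 := by
  classical
  obtain ⟨U₁, hU₁, hU₁'⟩ : ∃ U₁ : Finset (HeightOneSpectrum (𝓞 F)),
      (∀ S : Set (HeightOneSpectrum (𝓞 F)), InS S u₁ ↔ (U₁ : Set (HeightOneSpectrum (𝓞 F))) ⊆ S) ∧
      ∀ v ∈ U₁, ∃ P : HeightOneSpectrum (𝓞 H), u₁ = Sum.inr P ∧ Above {v} P := by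
    rcases u₁ with q | P
    · refine ⟨∅, fun S => ⟨fun _ => by simp, fun _ => trivial⟩, fun v hv => absurd hv (Finset.notMem_empty v)⟩
    · obtain ⟨v, hv⟩ := exists_above (F := F) P
      refine ⟨{v}, fun S => ?_, fun v' hv' => ⟨P, rfl, ?_⟩⟩
      · rw [Finset.coe_singleton, Set.singleton_subset_iff]
        exact above_iff hv
      · rw [Finset.mem_singleton.1 hv']
        exact hv
  set R : Finset (HeightOneSpectrum (𝓞 F)) := (ram_finite F H).toFinset with hR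
  have hRm : ∀ v, v ∈ R ↔ ¬ Squarefree (v.asIdeal.map (algebraMap (𝓞 F) (𝓞 H))) := by
    intro v
    rw [hR, Set.Finite.mem_toFinset]
    rfl
  set S₀ := R ∪ U₁ with hS₀
  -- ideals in all classes
  choose a ha1 ha2 ha3 using fun c : ClassGroup (𝓞 H) => exists_in_class (K := H)
    (fun P => Above ((S₀ ∪ B : Finset (HeightOneSpectrum (𝓞 F))) : Set (HeightOneSpectrum (𝓞 F))) P ∨
      ¬ (Ideal.absNorm P.asIdeal).Prime) (summable_bad (S₀ ∪ B)) c 1
  have ha0 : ∀ c, a c ≠ 0 := fun c => nonZeroDivisors.ne_zero (ha1 c).1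
  have hfin : {P : HeightOneSpectrum (𝓞 H) | ∃ c, P.asIdeal ∣ a c}.Finite := by
    have : {P : HeightOneSpectrum (𝓞 H) | ∃ c, P.asIdeal ∣ a c} =
        ⋃ c, {P : HeightOneSpectrum (𝓞 H) | P.asIdeal ∣ a c} := by
      ext P
      simp
    rw [this]
    exact Set.finite_iUnion fun c => Ideal.finite_factors (ha0 c)
  choose below hbelow using fun P : HeightOneSpectrum (𝓞 H) => exists_above (F := F) P
  set D : Finset (HeightOneSpectrum (𝓞 F)) := hfin.toFinset.image below with hD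
  have hDm : ∀ (P : HeightOneSpectrum (𝓞 H)) (c), P.asIdeal ∣ a c → below P ∈ D := by
    intro P c h
    rw [hD, Finset.mem_image]
    exact ⟨P, hfin.mem_toFinset.2 ⟨c, h⟩, rfl⟩
  have hDs : ∀ v ∈ D, v ∉ S₀ ∧ v ∉ B ∧ ∀ P : HeightOneSpectrum (𝓞 H), Above {v} P → ∀ γ : G,
      Fixes (Sum.inr P : Place H) γ → γ = 1 := by
    intro v hv
    rw [hD, Finset.mem_image] at hv
    obtain ⟨P, hP, rfl⟩ := hv
    rw [hfin.mem_toFinset] at hP
    obtain ⟨c, hc⟩ := hP
    have h1 : ¬ (Above ((S₀ ∪ B : Finset (HeightOneSpectrum (𝓞 F))) : Set (HeightOneSpectrum (𝓞 F))) P ∨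
        ¬ (Ideal.absNorm P.asIdeal).Prime) := fun h => ha3 c P h hc
    rw [not_or, not_not, above_iff (hbelow P), Finset.mem_coe, Finset.mem_union, not_or] at h1
    obtain ⟨⟨h2, h3⟩, h4⟩ := h1
    refine ⟨h2, h3, fun P' hP' γ hγ => ?_⟩
    have h5 : Squarefree ((below P).asIdeal.map (algebraMap (𝓞 F) (𝓞 H))) := by
      by_contra h6
      exact h2 (Finset.mem_union_left _ ((hRm _).2 h6))
    exact split_of_norm h5 (hbelow P) (norm_eq_of_prime (hbelow P) h4) γ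
      ((fixes_conj (conj_above (hbelow P) hP') γ).1 hγ)
  have hur : Unram H (S₀ ∪ D) := by
    intro v hv
    by_contra h
    exact hv (Finset.mem_union_left _ (Finset.mem_union_left _ ((hRm v).2 h)))
  have hu₁ : InS ((S₀ ∪ D : Finset (HeightOneSpectrum (𝓞 F))) : Set (HeightOneSpectrum (𝓞 F))) u₁ := by
    rw [hU₁]
    intro v hv
    rw [Finset.mem_coe] at hv ⊢
    exact Finset.mem_union_left _ (Finset.mem_union_right _ hv)
  obtain ⟨r, w, hw1, hw2, hw3, hw4⟩ := exists_full (G := G) (H := H) (S₀ ∪ D)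
  -- there is a place which splits completely
  have hr : r ≠ 0 := by
    rintro rfl
    have h2 : a 1 ≠ ⊤ := by
      intro h
      have := ha2 1
      rw [h, Ideal.absNorm_top] at this
      exact lt_irrefl _ this
    obtain ⟨Q, hQm, hQ⟩ := Ideal.exists_le_maximal _ h2
    have hQ0 : Q ≠ ⊥ := by
      intro h0
      rw [h0, le_bot_iff] at hQ
      exact ha0 1 hQ
    let P : HeightOneSpectrum (𝓞 H) := ⟨Q, hQm.isPrime, hQ0⟩
    have hPa : P.asIdeal ∣ a 1 := Ideal.dvd_iff_le.2 hQ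
    have h3 := hDm P 1 hPa
    have h4 := (hDs _ h3).2.2 P (hbelow P)
    obtain ⟨i, -⟩ := hw4 (Sum.inr P) (by
      change Above _ P
      rw [above_iff (hbelow P), Finset.mem_coe]
      exact Finset.mem_union_right _ h3) h4
    exact i.elim0
  obtain ⟨m, rfl⟩ := Nat.exists_eq_succ_of_ne_zero hr
  refine ⟨S₀ ∪ D, m, w, hur, hu₁, ?_, ⟨hw1, hw2, hw3, u₁, hu₁, fun i hi => ?_⟩, hw4, fun P hP => ?_, fun S hS hSu v hv hvS => ?_⟩
  · rw [Finset.disjoint_left]
    intro v hv hvB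
    rw [Finset.mem_union, hS₀, Finset.mem_union] at hv
    rcases hv with (hv | hv) | hv
    · exact (hRm v).1 hv (hB v hvB).1
    · obtain ⟨P, h5, h6⟩ := hU₁' v hv
      exact (hB v hvB).2 P h5 h6
    · exact (hDs v hv).2.1 hvB
  · obtain ⟨γ, hγ1, hγ2⟩ := h₁
    exact hγ2 (hw2 i γ ((fixes_conj hi γ).1 hγ1))
  · have hPD : ∀ (P' : HeightOneSpectrum (𝓞 H)) (c), P'.asIdeal ∣ a c →
        Above ((S₀ ∪ D : Finset (HeightOneSpectrum (𝓞 F))) : Set (HeightOneSpectrum (𝓞 F))) P' := by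
      intro P' c h
      rw [above_iff (hbelow P'), Finset.mem_coe]
      exact Finset.mem_union_right _ (hDm P' c h)
    obtain ⟨x, hx1, hx2⟩ := gen_of_class P (a (cl P)⁻¹) (ha1 _) fun h => hP (hPD P _ h)
    exact ⟨x, hx1, fun w' h5 h6 => hx2 w' h5 fun h7 => h6 (hPD w' _ h7)⟩
  · rw [Finset.mem_union] at hv
    rcases hv with hv | hv
    · exfalso
      rw [hS₀, Finset.mem_union] at hv
      rcases hv with hv | hv
      · exact (hRm v).1 hv (hS v hvS)
      · exact hvS ((hU₁ _).1 hSu (Finset.mem_coe.2 hv))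
    · exact (hDs v hv).2.2

/-- there are prime ideals outside a finite set which split completely -/
theorem exists_split (G : Type) [CommGroup G] [Finite G] [MulSemiringAction G H] [IsGaloisGroup G F H]
    (S : Finset (HeightOneSpectrum (𝓞 F))) : ∃ (v : HeightOneSpectrum (𝓞 F)) (P : HeightOneSpectrum (𝓞 H)),
    v ∉ S ∧ Above {v} P ∧ ∀ γ : G, Fixes (Sum.inr P : Place H) γ → γ = 1 := by
  classical
  set R : Finset (HeightOneSpectrum (𝓞 F)) := (ram_finite F H).toFinset with hR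
  have hRm : ∀ v, v ∈ R ↔ ¬ Squarefree (v.asIdeal.map (algebraMap (𝓞 F) (𝓞 H))) := by
    intro v
    rw [hR, Set.Finite.mem_toFinset]
    rfl
  obtain ⟨a, ha1, ha2, ha3⟩ := exists_in_class (K := H)
    (fun P => Above ((R ∪ S : Finset (HeightOneSpectrum (𝓞 F))) : Set (HeightOneSpectrum (𝓞 F))) P ∨
      ¬ (Ideal.absNorm P.asIdeal).Prime) (summable_bad (R ∪ S)) 1 1
  have ha0 : a ≠ 0 := nonZeroDivisors.ne_zero ha1.1
  have h2 : a ≠ ⊤ := by
    intro h
    rw [h, Ideal.absNorm_top] at ha2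
    exact lt_irrefl _ ha2
  obtain ⟨Q, hQm, hQ⟩ := Ideal.exists_le_maximal _ h2
  have hQ0 : Q ≠ ⊥ := by
    intro h0
    rw [h0, le_bot_iff] at hQ
    exact ha0 hQ
  let P : HeightOneSpectrum (𝓞 H) := ⟨Q, hQm.isPrime, hQ0⟩
  have hPa : P.asIdeal ∣ a := Ideal.dvd_iff_le.2 hQ
  obtain ⟨v, hv⟩ := exists_above (F := F) P
  have h1 : ¬ (Above ((R ∪ S : Finset (HeightOneSpectrum (𝓞 F))) : Set (HeightOneSpectrum (𝓞 F))) P ∨
      ¬ (Ideal.absNorm P.asIdeal).Prime) := fun h => ha3 P h hPa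
  rw [not_or, not_not, above_iff hv, Finset.mem_coe, Finset.mem_union, not_or] at h1
  obtain ⟨⟨h2, h3⟩, h4⟩ := h1
  have h5 : Squarefree (v.asIdeal.map (algebraMap (𝓞 F) (𝓞 H))) := by
    by_contra h6
    exact h2 ((hRm _).2 h6)
  exact ⟨v, P, h3, hv, fun γ hγ => split_of_norm h5 hv (norm_eq_of_prime hv h4) γ hγ⟩

end Pool.Agent.T9h51.PS
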