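import Pool.Agent.T9h51.PS.Defs

/-!
# The `L`-functions of `S` and of `S ∪ {v}`
-/

set_option autoImplicit false
set_option linter.unusedSectionVars false

open NumberField IsDedekindDomain Filter Topology

noncomputable section

namespace Pool.Agent.T9h51.PS

open Pool.Agent.K3h30.RS

variable {F H G : Type} [Field F] [NumberField F] [Field H] [NumberField H] [Algebra F H]
  [CommGroup G] [Finite G] [MulSemiringAction G H]

theorem norm_char (χ : G →* ℂˣ) (g : G) : ‖(χ g : ℂ)‖ = 1 := by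
  have h1 : (χ g : ℂ) ^ (orderOf g) = 1 := by
    rw [← Units.val_pow_eq_pow_val, ← map_pow, pow_orderOf_eq_one, map_one, Units.val_one]
  exact Complex.norm_eq_one_of_pow_eq_one h1 (orderOf_pos g).ne'

/-- the Euler factor -/
def fac (a : ℂ) (N : ℕ) (s : ℂ) : ℂ := 1 - a * (N : ℂ) ^ (-s)

theorem fac_ne_zero {a : ℂ} (ha : ‖a‖ = 1) {N : ℕ} (hN : 2 ≤ N) {s : ℂ} (hs : 1 < s.re) : fac a N s ≠ 0 := by
  intro h
  unfold fac at h
  have h1 : a * (N : ℂ) ^ (-s) = 1 := (sub_eq_zero.1 h).symm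
  have h2 := congrArg (fun z : ℂ => ‖z‖) h1
  simp only [norm_mul, ha, one_mul, norm_one] at h2
  rw [Complex.norm_natCast_cpow_of_pos (by omega), Complex.neg_re] at h2
  have h3 : (N : ℝ) ^ (-s.re) < 1 := Real.rpow_lt_one_of_one_lt_of_neg (by exact_mod_cast (by omega : 1 < N)) (by linarith)
  linarith

theorem fac_differentiable (a : ℂ) {N : ℕ} (hN : 2 ≤ N) : Differentiable ℂ (fac a N) := by
  intro s
  unfold fac
  refine DifferentiableAt.sub (differentiableAt_const _) (DifferentiableAt.const_mul ?_ _)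
  exact DifferentiableAt.const_cpow (differentiableAt_id.neg) (Or.inl (by exact_mod_cast (by omega : N ≠ 0)))

theorem fac_tendsto (a : ℂ) {N : ℕ} (hN : 2 ≤ N) : Tendsto (fac a N) (𝓝[≠] 0) (𝓝 (1 - a)) := by
  have h1 : fac a N 0 = 1 - a := by
    unfold fac
    rw [neg_zero, Complex.cpow_zero, mul_one]
  rw [← h1]
  exact ((fac_differentiable a hN).continuous.tendsto 0).mono_left nhdsWithin_le_nhds

theorem fac_slope {N : ℕ} (hN : 2 ≤ N) : Tendsto (fun s => s⁻¹ * fac 1 N s) (𝓝[≠] 0) (𝓝 (Real.log N : ℂ)) := by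
  have hN0 : (N : ℂ) ≠ 0 := by exact_mod_cast (by omega : N ≠ 0)
  have h1 : HasDerivAt (fun s : ℂ => fac 1 N s) (Real.log N : ℂ) 0 := by
    unfold fac
    have h2 : HasDerivAt (fun s : ℂ => (N : ℂ) ^ (-s)) ((N : ℂ) ^ (-(0 : ℂ)) * Complex.log N * (-1)) 0 :=
      HasDerivAt.const_cpow (hasDerivAt_id (0 : ℂ)).neg (Or.inl hN0)
    rw [neg_zero, Complex.cpow_zero, one_mul] at h2
    have h3 := (h2.const_mul (1 : ℂ)).const_sub 1
    have h4 : -((1 : ℂ) * (Complex.log N * (-1))) = (Real.log N : ℂ) := by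
      rw [Complex.ofReal_log (by positivity)]
      push_cast
      ring
    rw [h4] at h3
    exact h3
  have h5 := h1.tendsto_slope
  refine h5.congr' ?_
  refine Filter.Eventually.of_forall fun s => ?_
  have h6 : fac 1 N 0 = 0 := by
    unfold fac
    rw [neg_zero, Complex.cpow_zero, mul_one, sub_self]
  simp only [slope_def_field, h6, sub_zero]
  rw [div_eq_mul_inv, mul_comm]

/-- the `L`-functions of `S` and `S ∪ {v}` -/
theorem L_insert [DecidableEq (HeightOneSpectrum (𝓞 F))] (Λ : LData F H G) {S : Finset (HeightOneSpectrum (𝓞 F))}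
    (hS : Unram H S) {v : HeightOneSpectrum (𝓞 F)} (hv : v ∉ S) (χ : G →* ℂˣ) {s : ℂ} (hs : s ≠ 1) :
    Λ.L (insert v S) χ s = fac (χ (Λ.σ v)) (Ideal.absNorm v.asIdeal) s * Λ.L S χ s := by
  have hS' : Unram H (insert v S) := fun v' hv' => hS v' fun h => hv' (Finset.mem_insert_of_mem h)
  have hN := Pool.Agent.K3h62.RS.two_le_absNorm v
  have key : ∀ s : ℂ, 1 < s.re →
      Λ.L (insert v S) χ s = fac (χ (Λ.σ v)) (Ideal.absNorm v.asIdeal) s * Λ.L S χ s := by
    intro s hs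
    let f : HeightOneSpectrum (𝓞 F) → ℂ := fun v => (1 - (χ (Λ.σ v) : ℂ) * (Ideal.absNorm v.asIdeal : ℂ) ^ (-s))⁻¹
    have h1 : HasProd (f ∘ ((↑) : ({v | v ∉ S} : Set (HeightOneSpectrum (𝓞 F))) → HeightOneSpectrum (𝓞 F)))
        (Λ.L S χ s) := Λ.euler S hS χ s hs
    have h2 : HasProd (f ∘ ((↑) : ({v' | v' ∉ insert v S} : Set (HeightOneSpectrum (𝓞 F))) →
        HeightOneSpectrum (𝓞 F))) (Λ.L (insert v S) χ s) := Λ.euler (insert v S) hS' χ s hs
    rw [hasProd_subtype_iff_mulIndicator] at h1 h2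
    have h3 : HasProd (fun v' => if v' = v then f v else 1) (f v) := hasProd_ite_eq v (f v)
    have h4 := h3.mul h2
    have h5 : (fun v' => (if v' = v then f v else 1) * ({v' | v' ∉ insert v S} : Set _).mulIndicator f v') =
        ({v | v ∉ S} : Set (HeightOneSpectrum (𝓞 F))).mulIndicator f := by
      funext v'
      by_cases h6 : v' = v
      · subst h6
        rw [if_pos rfl, Set.mulIndicator_of_notMem, Set.mulIndicator_of_mem, mul_one]
        · exact hv
        · simp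
      · rw [if_neg h6, one_mul]
        by_cases h7 : v' ∈ S
        · rw [Set.mulIndicator_of_notMem, Set.mulIndicator_of_notMem]
          · simpa using h7
          · simp [h7]
        · rw [Set.mulIndicator_of_mem, Set.mulIndicator_of_mem]
          · exact h7
          · simp [h7, h6]
    rw [h5] at h4
    have h6 := h1.unique h4
    rw [h6]
    have h7 : fac (χ (Λ.σ v)) (Ideal.absNorm v.asIdeal) s * f v = 1 :=
      mul_inv_cancel₀ (fac_ne_zero (norm_char χ _) hN hs)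
    rw [← mul_assoc, h7, one_mul]
  have h1 : AnalyticOnNhd ℂ (Λ.L (insert v S) χ) {1}ᶜ := (Λ.analytic _ hS' χ).analyticOnNhd isOpen_compl_singleton
  have h2 : AnalyticOnNhd ℂ (fun s => fac (χ (Λ.σ v)) (Ideal.absNorm v.asIdeal) s * Λ.L S χ s) {1}ᶜ :=
    ((fac_differentiable _ hN).differentiableOn.mul (Λ.analytic _ hS χ)).analyticOnNhd isOpen_compl_singleton
  have h3 : IsPreconnected ({1}ᶜ : Set ℂ) := by
    refine (isConnected_compl_singleton_of_one_lt_rank ?_ 1).isPreconnected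
    rw [Complex.rank_real_complex]
    exact Nat.one_lt_ofNat
  have h4 : (2 : ℂ) ∈ ({1}ᶜ : Set ℂ) := by
    simp
  have h5 : Λ.L (insert v S) χ =ᶠ[𝓝 2] fun s => fac (χ (Λ.σ v)) (Ideal.absNorm v.asIdeal) s * Λ.L S χ s := by
    have h6 : {s : ℂ | 1 < s.re} ∈ 𝓝 (2 : ℂ) := by
      refine (isOpen_lt continuous_const Complex.continuous_re).mem_nhds ?_
      change (1 : ℝ) < (2 : ℂ).re
      norm_num
    filter_upwards [h6] with s hs using key s hs
  exact h1.eqOn_of_preconnected_of_eventuallyEq h2 h3 h4 h5 hs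

theorem eventually_ne_one : ∀ᶠ s : ℂ in 𝓝[≠] 0, s ≠ 1 := by
  refine (Filter.Eventually.filter_mono nhdsWithin_le_nhds ?_)
  exact isOpen_compl_singleton.mem_nhds (by simp)

/-- the limit for a place which is added -/
theorem lim_insert [DecidableEq (HeightOneSpectrum (𝓞 F))] (Λ : LData F H G) {S : Finset (HeightOneSpectrum (𝓞 F))}
    (hS : Unram H S) {v : HeightOneSpectrum (𝓞 F)} (hv : v ∉ S) (χ : G →* ℂˣ) (r : ℕ) {c : ℂ}
    (h : Tendsto (fun s : ℂ => (s ^ r)⁻¹ * Λ.L S χ s) (𝓝[≠] 0) (𝓝 c)) :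
    Tendsto (fun s : ℂ => (s ^ r)⁻¹ * Λ.L (insert v S) χ s) (𝓝[≠] 0) (𝓝 ((1 - (χ (Λ.σ v) : ℂ)) * c)) := by
  have hN := Pool.Agent.K3h62.RS.two_le_absNorm v
  refine ((fac_tendsto (χ (Λ.σ v)) hN).mul h).congr' ?_
  filter_upwards [eventually_ne_one] with s hs
  rw [L_insert Λ hS hv χ hs]
  ring

/-- the limit for a place which splits completely and is added to the `v_i` -/
theorem lim_up [DecidableEq (HeightOneSpectrum (𝓞 F))] (Λ : LData F H G) {S : Finset (HeightOneSpectrum (𝓞 F))}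
    (hS : Unram H S) {v : HeightOneSpectrum (𝓞 F)} (hv : v ∉ S) (hσ : Λ.σ v = 1) (χ : G →* ℂˣ) (r : ℕ) {c : ℂ}
    (h : Tendsto (fun s : ℂ => (s ^ r)⁻¹ * Λ.L S χ s) (𝓝[≠] 0) (𝓝 c)) :
    Tendsto (fun s : ℂ => (s ^ (r + 1))⁻¹ * Λ.L (insert v S) χ s) (𝓝[≠] 0)
      (𝓝 ((Real.log (Ideal.absNorm v.asIdeal) : ℂ) * c)) := by
  have hN := Pool.Agent.K3h62.RS.two_le_absNorm v
  refine ((fac_slope hN).mul h).congr' ?_
  filter_upwards [eventually_ne_one] with s hs
  rw [L_insert Λ hS hv χ hs, hσ, map_one, Units.val_one, pow_succ, mul_inv]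
  ring

theorem lim_down [DecidableEq (HeightOneSpectrum (𝓞 F))] (Λ : LData F H G) {S : Finset (HeightOneSpectrum (𝓞 F))}
    (hS : Unram H S) {v : HeightOneSpectrum (𝓞 F)} (hv : v ∉ S) (hσ : Λ.σ v = 1) (χ : G →* ℂˣ) (r : ℕ) {c : ℂ}
    (h : Tendsto (fun s : ℂ => (s ^ (r + 1))⁻¹ * Λ.L (insert v S) χ s) (𝓝[≠] 0)
      (𝓝 ((Real.log (Ideal.absNorm v.asIdeal) : ℂ) * c))) :
    Tendsto (fun s : ℂ => (s ^ r)⁻¹ * Λ.L S χ s) (𝓝[≠] 0) (𝓝 c) := by
  have hN := Pool.Agent.K3h62.RS.two_le_absNorm v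
  have hlog : (Real.log (Ideal.absNorm v.asIdeal) : ℂ) ≠ 0 := by
    have : 0 < Real.log (Ideal.absNorm v.asIdeal) := Real.log_pos (by exact_mod_cast (by omega : 1 < Ideal.absNorm v.asIdeal))
    exact_mod_cast this.ne'
  have h1 := h.mul ((fac_slope hN).inv₀ hlog)
  have h2 : (Real.log (Ideal.absNorm v.asIdeal) : ℂ) * c * (Real.log (Ideal.absNorm v.asIdeal) : ℂ)⁻¹ = c := by
    field_simp
  rw [h2] at h1
  refine h1.congr' ?_
  have h3 : ∀ᶠ s : ℂ in 𝓝[≠] 0, s⁻¹ * fac 1 (Ideal.absNorm v.asIdeal) s ≠ 0 :=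
    (fac_slope hN).eventually_ne hlog
  filter_upwards [eventually_ne_one, h3, self_mem_nhdsWithin] with s hs hs3 hs0
  have hs0' : s ≠ 0 := hs0
  have hf : fac 1 (Ideal.absNorm v.asIdeal) s ≠ 0 := right_ne_zero_of_mul hs3
  rw [L_insert Λ hS hv χ hs, hσ, map_one, Units.val_one, pow_succ]
  field_simp

end Pool.Agent.T9h51.PS
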