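import Pool.Agent.T9h51.PS.Add

/-!
# Popescu's conjecture for all `S` from one set `S₁`
-/

set_option autoImplicit false
set_option linter.unusedSectionVars false

open NumberField IsDedekindDomain Filter Topology

noncomputable section

namespace Pool.Agent.T9h51.PS

open Pool.Agent.K3h30.RS

variable {F H G : Type} [Field F] [NumberField F] [Field H] [NumberField H] [Algebra F H]
  [CommGroup G] [Finite G] [MulSemiringAction G H] [IsGaloisGroup G F H]

/-- `w_1, ..., w_r` represent all places of `S` which split completely. -/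
def Full (G : Type) [CommGroup G] [MulSemiringAction G H] (S : Finset (HeightOneSpectrum (𝓞 F))) {r : ℕ}
    (w : Fin r → Place H) : Prop :=
  ∀ u : Place H, InS (S : Set (HeightOneSpectrum (𝓞 F))) u → (∀ γ : G, Fixes u γ → γ = 1) → ∃ i, Conj G u (w i)

theorem popescu_full (Λ : LData F H G) {S : Finset (HeightOneSpectrum (𝓞 F))} {m m' : ℕ} {w : Fin (m + 1) → Place H}
    {w' : Fin (m' + 1) → Place H} (hw : System G S w) (fw : Full G S w) (hw' : System G S w') (fw' : Full G S w')
    (h : Popescu Λ S w) : Popescu Λ S w' := by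
  choose f hf using fun i => fw (w' i) (hw'.inS i) (hw'.splits i)
  choose g hg using fun i => fw' (w i) (hw.inS i) (hw.splits i)
  have hfi : Function.Injective f := by
    intro i j hij
    apply hw'.distinct
    have h1 := hf j
    rw [← hij] at h1
    exact conj_trans (hf i) (conj_symm h1)
  have hgi : Function.Injective g := by
    intro i j hij
    apply hw.distinct
    have h1 := hg j
    rw [← hij] at h1
    exact conj_trans (hg i) (conj_symm h1)
  have h1 := Fintype.card_le_of_injective f hfi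
  have h2 := Fintype.card_le_of_injective g hgi
  rw [Fintype.card_fin, Fintype.card_fin] at h1 h2
  have h3 : m' = m := by omega
  subst h3
  exact popescu_change Λ (Equiv.ofBijective f (Finite.injective_iff_bijective.1 hfi)) hf h

section ins

variable [DecidableEq (HeightOneSpectrum (𝓞 F))] {v : HeightOneSpectrum (𝓞 F)} {S : Finset (HeightOneSpectrum (𝓞 F))}
  {P : HeightOneSpectrum (𝓞 H)} {r : ℕ} {w : Fin r → Place H}

theorem full_cons (hP : Above {v} P) (fw : Full G S w) :
    Full G (insert v S) (Fin.cons (Sum.inr P) w : Fin (r + 1) → Place H) := by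
  intro u hu hs
  have key : InS (S : Set (HeightOneSpectrum (𝓞 F))) u → ∃ i, Conj G u ((Fin.cons (Sum.inr P) w : Fin (r + 1) → Place H) i) := by
    intro h
    obtain ⟨i, hi⟩ := fw u h hs
    exact ⟨i.succ, by rwa [Fin.cons_succ]⟩
  rcases u with q | w'
  · exact key trivial
  · rcases (above_insert_iff w').1 hu with h | h
    · exact ⟨0, by rw [Fin.cons_zero]; exact conj_above hP h⟩
    · exact key h

theorem full_insert (hP : Above {v} P) (hns : ¬ ∀ γ : G, Fixes (Sum.inr P : Place H) γ → γ = 1) (fw : Full G S w) :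
    Full G (insert v S) w := by
  intro u hu hs
  rcases u with q | w'
  · exact fw _ trivial hs
  · rcases (above_insert_iff w').1 hu with h | h
    · exfalso
      apply hns
      intro γ hγ
      exact hs γ ((fixes_conj (conj_above hP h) γ).2 hγ)
    · exact fw _ h hs

end ins

/-- the first half: from `S₁` to larger sets -/
theorem up_all (Λ : LData F H G) [DecidableEq (HeightOneSpectrum (𝓞 F))] {S₁ : Finset (HeightOneSpectrum (𝓞 F))} (hS : Unram H S₁)
    (hpr : ∀ P : HeightOneSpectrum (𝓞 H), ¬ Above (S₁ : Set (HeightOneSpectrum (𝓞 F))) P → ∃ x : Hˣ,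
      od P (Additive.ofMul x) = 1 ∧ ∀ w' : HeightOneSpectrum (𝓞 H), w' ≠ P →
        ¬ Above (S₁ : Set (HeightOneSpectrum (𝓞 F))) w' → od w' (Additive.ofMul x) = 0)
    {m₁ : ℕ} {w₁ : Fin (m₁ + 1) → Place H} (hw₁ : System G S₁ w₁) (fw₁ : Full G S₁ w₁) (h : Popescu Λ S₁ w₁)
    (T : Finset (HeightOneSpectrum (𝓞 F))) : ∃ (m : ℕ) (w : Fin (m + 1) → Place H), System G (S₁ ∪ T) w ∧
      Full G (S₁ ∪ T) w ∧ Popescu Λ (S₁ ∪ T) w := by
  induction T using Finset.induction_on with
  | empty =>
    rw [Finset.union_empty]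
    exact ⟨m₁, w₁, hw₁, fw₁, h⟩
  | insert v T hvT ih =>
    obtain ⟨m, w, hw, fw, hp⟩ := ih
    by_cases hv : v ∈ S₁ ∪ T
    · rw [Finset.union_insert, Finset.insert_eq_self.2 hv]
      exact ⟨m, w, hw, fw, hp⟩
    · rw [Finset.union_insert]
      have hS' : Unram H (S₁ ∪ T) := fun v' hv' => hS v' fun h => hv' (Finset.mem_union_left _ h)
      obtain ⟨P, hP⟩ := (Pool.Agent.K3h25.RS.t_OVER F H v).1
      by_cases hs : ∀ γ : G, Fixes (Sum.inr P : Place H) γ → γ = 1
      · have hv₁ : v ∉ S₁ := fun h => hv (Finset.mem_union_left _ h)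
        obtain ⟨x, hx1, hx2⟩ := hpr P (not_above_of hv₁ hP)
        refine ⟨m + 1, Fin.cons (Sum.inr P) w, system_cons hv hP hs hw, full_cons hP fw,
          popescu_up Λ hS' hv hP hs x hx1 (fun w' h1 h2 => hx2 w' h1 fun h3 => h2 ?_) hp⟩
        obtain ⟨v', hv', h4⟩ := h3
        exact ⟨v', by rw [Finset.coe_union]; exact Or.inl hv', h4⟩
      · exact ⟨m, w, system_insert hw, full_insert hP hs fw, popescu_add Λ hS' hv hP hw hp⟩

/-- the second half: places which split completely are removed -/
theorem down_all (Λ : LData F H G) [DecidableEq (HeightOneSpectrum (𝓞 F))] {S : Finset (HeightOneSpectrum (𝓞 F))} (hS : Unram H S)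
    (A : Finset (HeightOneSpectrum (𝓞 F)))
    (hA : ∀ v ∈ A, v ∉ S → ∀ P : HeightOneSpectrum (𝓞 H), Above {v} P → ∀ γ : G, Fixes (Sum.inr P : Place H) γ → γ = 1)
    (h : ∀ (m : ℕ) (w : Fin (m + 1) → Place H), System G (S ∪ A) w → Full G (S ∪ A) w → Popescu Λ (S ∪ A) w) :
    ∀ (m : ℕ) (w : Fin (m + 1) → Place H), System G S w → Full G S w → Popescu Λ S w := by
  induction A using Finset.induction_on with
  | empty => rwa [Finset.union_empty] at h
  | insert v A hvA ih =>
    refine ih (fun v' hv' => hA v' (Finset.mem_insert_of_mem hv')) fun m w hw fw => ?_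
    by_cases hv : v ∈ S ∪ A
    · rw [Finset.union_insert, Finset.insert_eq_self.2 hv] at h
      exact h m w hw fw
    · rw [Finset.union_insert] at h
      have hS' : Unram H (S ∪ A) := fun v' hv' => hS v' fun h => hv' (Finset.mem_union_left _ h)
      obtain ⟨P, hP⟩ := (Pool.Agent.K3h25.RS.t_OVER F H v).1
      have hs := hA v (Finset.mem_insert_self _ _) (fun h => hv (Finset.mem_union_left _ h)) P hP
      exact popescu_down Λ hS' hv hP hs (h (m + 1) _ (system_cons hv hP hs hw) (full_cons hP fw))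

/-- **All sets `S` from `S₁`.** -/
theorem popescu_all (Λ : LData F H G) {S₁ : Finset (HeightOneSpectrum (𝓞 F))} (hS₁ : Unram H S₁)
    (hpr : ∀ P : HeightOneSpectrum (𝓞 H), ¬ Above (S₁ : Set (HeightOneSpectrum (𝓞 F))) P → ∃ x : Hˣ,
      od P (Additive.ofMul x) = 1 ∧ ∀ w' : HeightOneSpectrum (𝓞 H), w' ≠ P →
        ¬ Above (S₁ : Set (HeightOneSpectrum (𝓞 F))) w' → od w' (Additive.ofMul x) = 0)
    {m₁ : ℕ} {w₁ : Fin (m₁ + 1) → Place H} (hw₁ : System G S₁ w₁) (fw₁ : Full G S₁ w₁) (h : Popescu Λ S₁ w₁)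
    {S : Finset (HeightOneSpectrum (𝓞 F))} (hS : Unram H S)
    (hsp : ∀ v ∈ S₁, v ∉ S → ∀ P : HeightOneSpectrum (𝓞 H), Above {v} P → ∀ γ : G, Fixes (Sum.inr P : Place H) γ → γ = 1)
    (hns : ∃ u : Place H, InS (S : Set (HeightOneSpectrum (𝓞 F))) u ∧ ∃ γ : G, Fixes u γ ∧ γ ≠ 1)
    {m : ℕ} {w : Fin (m + 1) → Place H} (hw : System G S w) : Popescu Λ S w := by
  classical
  by_cases fw : Full G S w
  · refine down_all Λ hS S₁ hsp (fun m' w' hw' fw' => ?_) m w hw fw
    obtain ⟨m₂, w₂, hw₂, fw₂, h₂⟩ := up_all Λ hS₁ hpr hw₁ fw₁ h S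
    rw [Finset.union_comm] at hw₂ fw₂ h₂
    exact popescu_full Λ hw₂ fw₂ hw' fw' h₂
  · have h1 : ∃ u : Place H, InS (S : Set (HeightOneSpectrum (𝓞 F))) u ∧ (∀ γ : G, Fixes u γ → γ = 1) ∧
        ∀ i, ¬ Conj G u (w i) := by
      unfold Full at fw
      push Not at fw
      exact fw
    obtain ⟨u, hu1, hu2, hu3⟩ := h1
    obtain ⟨u', hu'1, γ, hγ1, hγ2⟩ := hns
    have ho : Oth G S w u := ⟨hu1, hu3⟩
    have ho' : Oth G S w u' := ⟨hu'1, fun i hi => hγ2 (hw.splits i γ ((fixes_conj hi γ).1 hγ1))⟩
    refine popescu_trivial Λ fun χ hχ => ?_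
    rw [active_iff] at hχ
    rcases hχ with hχ | ⟨-, hχ⟩
    · obtain ⟨δ, hδ1, hδ2⟩ := hχ u ho
      rw [hu2 δ hδ1, map_one] at hδ2
      exact hδ2 rfl
    · exact hγ2 (hu2 γ ((fixes_conj (hχ u u' ho ho') γ).2 hγ1))

/-- systems containing all places which split completely exist -/
theorem exists_full (S : Finset (HeightOneSpectrum (𝓞 F))) : ∃ (r : ℕ) (w : Fin r → Place H),
    (∀ i, InS (S : Set (HeightOneSpectrum (𝓞 F))) (w i)) ∧ (∀ i, ∀ γ : G, Fixes (w i) γ → γ = 1) ∧
    (∀ i j, Conj G (w i) (w j) → i = j) ∧ Full G S w := by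
  classical
  induction S using Finset.induction_on with
  | empty =>
    let A : Set ℕ := {r | ∃ w : Fin r → InfinitePlace H, (∀ i, ∀ γ : G, Fixes (Sum.inl (w i) : Place H) γ → γ = 1) ∧
      ∀ i j, Conj G (Sum.inl (w i) : Place H) (Sum.inl (w j)) → i = j}
    have hA0 : A.Nonempty := ⟨0, Fin.elim0, fun i => i.elim0, fun i => i.elim0⟩
    have hAb : BddAbove A := by
      refine ⟨Fintype.card (InfinitePlace H), ?_⟩
      rintro r ⟨w, -, hw⟩
      have h1 : Function.Injective w := by
        intro i j hij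
        apply hw
        rw [hij]
        exact conj_refl _
      have h2 := Fintype.card_le_of_injective w h1
      rwa [Fintype.card_fin] at h2
    obtain ⟨w, hw1, hw2⟩ : sSup A ∈ A := Nat.sSup_mem hA0 hAb
    refine ⟨sSup A, fun i => Sum.inl (w i), fun i => trivial, hw1, hw2, ?_⟩
    intro u hu hs
    rcases u with q | w'
    · by_contra hcon
      push Not at hcon
      have h1 : sSup A + 1 ∈ A := by
        refine ⟨Fin.cons q w, fun i => ?_, fun i j => ?_⟩
        · refine Fin.cases ?_ (fun i => ?_) i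
          · rw [Fin.cons_zero]
            exact hs
          · rw [Fin.cons_succ]
            exact hw1 i
        · refine Fin.cases ?_ (fun i => ?_) i
          · refine Fin.cases ?_ (fun j => ?_) j
            · intro _
              rfl
            · rw [Fin.cons_zero, Fin.cons_succ]
              intro h
              exact absurd h (hcon j)
          · refine Fin.cases ?_ (fun j => ?_) j
            · rw [Fin.cons_zero, Fin.cons_succ]
              intro h
              exact absurd (conj_symm h) (hcon i)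
            · rw [Fin.cons_succ, Fin.cons_succ]
              intro h
              rw [hw2 i j h]
      have h2 := le_csSup hAb h1
      omega
    · obtain ⟨v, hv, -⟩ := hu
      simp at hv
  | insert v S hv ih =>
    obtain ⟨r, w, h1, h2, h3, h4⟩ := ih
    obtain ⟨P, hP⟩ := (Pool.Agent.K3h25.RS.t_OVER F H v).1
    by_cases hs : ∀ γ : G, Fixes (Sum.inr P : Place H) γ → γ = 1
    · refine ⟨r + 1, Fin.cons (Sum.inr P) w, fun i => ?_, fun i => ?_, fun i j => ?_, full_cons hP h4⟩
      · refine Fin.cases ?_ (fun i => ?_) i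
        · rw [Fin.cons_zero]
          exact (above_insert_iff P).2 (Or.inl hP)
        · rw [Fin.cons_succ]
          exact inS_insert _ (h1 i)
      · refine Fin.cases ?_ (fun i => ?_) i
        · rw [Fin.cons_zero]
          exact hs
        · rw [Fin.cons_succ]
          exact h2 i
      · refine Fin.cases ?_ (fun i => ?_) i
        · refine Fin.cases ?_ (fun j => ?_) j
          · intro _
            rfl
          · rw [Fin.cons_zero, Fin.cons_succ]
            intro h
            exact absurd (conj_symm h) (not_conj_P hv hP (h1 j))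
        · refine Fin.cases ?_ (fun j => ?_) j
          · rw [Fin.cons_zero, Fin.cons_succ]
            intro h
            exact absurd h (not_conj_P hv hP (h1 i))
          · rw [Fin.cons_succ, Fin.cons_succ]
            intro h
            rw [h3 i j h]
    · exact ⟨r, w, fun i => inS_insert _ (h1 i), h2, h3, full_insert hP hs h4⟩

end Pool.Agent.T9h51.PS
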