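import Pool.Agent.T9h51.PS.LF

/-!
# The regulators
-/

set_option autoImplicit false
set_option linter.unusedSectionVars false

open NumberField IsDedekindDomain Filter Topology

noncomputable section

namespace Pool.Agent.T9h51.PS

open Pool.Agent.K3h30.RS

variable {F H G : Type} [Field F] [NumberField F] [Field H] [NumberField H] [Algebra F H]
  [CommGroup G] [Finite G] [MulSemiringAction G H]

theorem av_mul (p : Place H) (x y : H) : av p (x * y) = av p x * av p y := by
  rcases p with q | w
  · change q (x * y) ^ q.mult = q x ^ q.mult * q y ^ q.mult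
    rw [map_mul, mul_pow]
  · change NumberField.HeightOneSpectrum.adicAbv H w (x * y) = _ * _
    rw [map_mul]
    rfl

theorem av_ne_zero (p : Place H) (x : Hˣ) : av p (x : H) ≠ 0 := by
  rcases p with q | w
  · change q (x : H) ^ q.mult ≠ 0
    exact pow_ne_zero _ (by rw [Ne, map_eq_zero]; exact x.ne_zero)
  · change NumberField.HeightOneSpectrum.adicAbv H w (x : H) ≠ 0
    rw [Ne, map_eq_zero]
    exact x.ne_zero

theorem coeff_reg (p : Place H) (x : Hˣ) (γ : G) : (reg G p x).coeff γ = Real.log (av p ((act γ⁻¹ x : Hˣ) : H)) := by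
  classical
  unfold reg
  simp only [MonoidAlgebra.coeff_sum, MonoidAlgebra.coeff_single]
  rw [Finset.sum_apply', Finset.sum_eq_single γ]
  · simp
  · intro δ _ hδ
    rw [Finsupp.single_apply, if_neg hδ]
  · intro h
    exact absurd (@Finset.mem_univ G (Fintype.ofFinite G) γ) h

theorem reg_mul (p : Place H) (x y : Hˣ) : reg G p (x * y) = reg G p x + reg G p y := by
  ext γ
  rw [MonoidAlgebra.coeff_add, Finsupp.add_apply, coeff_reg, coeff_reg, coeff_reg, act_map_mul, Units.val_mul, av_mul,
    Real.log_mul (av_ne_zero _ _) (av_ne_zero _ _)]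

/-- the regulator as a homomorphism -/
def regHom (G : Type) [CommGroup G] [Finite G] [MulSemiringAction G H] (p : Place H) (U : Subgroup Hˣ) :
    Additive U →+ MonoidAlgebra ℝ G where
  toFun x := reg G p ((Additive.toMul x : U) : Hˣ)
  map_zero' := by
    have h := reg_mul (G := G) p 1 1
    rw [mul_one] at h
    have h2 : reg G p (1 : Hˣ) = 0 := by
      have h3 : reg G p (1 : Hˣ) + 0 = reg G p (1 : Hˣ) + reg G p (1 : Hˣ) := by rw [add_zero]; exact h
      exact (add_left_cancel h3).symm
    exact h2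
  map_add' x y := by
    change reg G p (((Additive.toMul x * Additive.toMul y : U)) : Hˣ) = _
    rw [Subgroup.coe_mul, reg_mul]

theorem regHom_apply (p : Place H) (U : Subgroup Hˣ) (x : U) : regHom G p U (Additive.ofMul x) = reg G p (x : Hˣ) := rfl

theorem toRQ_single (γ : G) : ((toR : MonoidAlgebra ℚ G →+* MonoidAlgebra ℝ G).comp toQ) (MonoidAlgebra.single γ 1) =
    MonoidAlgebra.single γ 1 := by
  simp [toR, toQ]

theorem reg_act (p : Place H) (γ : G) (x : Hˣ) : reg G p (act γ x) = MonoidAlgebra.single γ 1 * reg G p x := by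
  ext δ
  rw [MonoidAlgebra.coeff_single_mul_apply, one_mul, coeff_reg, coeff_reg, ← act_mul]
  congr 4
  group

theorem equi_reg (p : Place H) (U : Subgroup Hˣ) :
    Equi U ((toR : MonoidAlgebra ℚ G →+* MonoidAlgebra ℝ G).comp toQ) (regHom G p U) := by
  intro γ x y hxy
  rw [regHom_apply, regHom_apply, hxy, reg_act, toRQ_single]

theorem equi_toQ {U : Subgroup Hˣ} (ψ : GHom G U) : Equi U ((RingHom.id (MonoidAlgebra ℚ G)).comp toQ)
    ((toQ (G := G) : MonoidAlgebra ℤ G →+ MonoidAlgebra ℚ G).comp ψ.f) := by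
  intro γ x y hxy
  change toQ (ψ.f (Additive.ofMul y)) = toQ (MonoidAlgebra.single γ 1) * toQ (ψ.f (Additive.ofMul x))
  rw [ψ.equiv γ x y hxy, map_mul]

theorem regulator_eq_ev {r : ℕ} {U : Subgroup Hˣ} (u : Wedge G r U) (w : Fin r → Place H) :
    u.regulator w = ev (toR (G := G)) u fun a => regHom G (w a) U := rfl

/-- the regulator at a conjugate place -/
theorem reg_conj {p p' : Place H} {γ : G} (h : ∀ x : H, av p x = av p' (γ • x)) (x : Hˣ) :
    reg G p x = MonoidAlgebra.single γ 1 * reg G p' x := by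
  rw [← reg_act]
  ext δ
  rw [coeff_reg, coeff_reg, h, ← act_val, ← act_mul, ← act_mul, mul_comm]

variable [IsGaloisGroup G F H]

/-- the regulator at a prime ideal -/
theorem reg_ordG (S : Finset (HeightOneSpectrum (𝓞 F))) (w : HeightOneSpectrum (𝓞 H)) (x : US H S) :
    reg G (Sum.inr w) (x : Hˣ) = (-Real.log (Ideal.absNorm w.asIdeal : ℝ)) •
      ((toR (G := G)).comp toQ) ((ordG (G := G) S w).f (Additive.ofMul x)) := by
  ext γ
  rw [coeff_reg, log_av, MonoidAlgebra.coeff_smul, Finsupp.smul_apply]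
  have h1 : (((toR (G := G)).comp toQ) ((ordG (G := G) S w).f (Additive.ofMul x))).coeff γ =
      ((((ordG (G := G) S w).f (Additive.ofMul x)).coeff γ : ℤ) : ℝ) := by
    simp [toR, toQ]
  rw [h1, coeff_ordG, smul_eq_mul]
  ring

end Pool.Agent.T9h51.PS
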