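import Pool.Agent.T9h51.PS.Main
import Pool.Agent.T9h51.PS.Cls
import Pool.Agent.K3h23.RS.Tors

/-!
# Prime ideals which split completely in every ideal class; the set `S₁`
-/

set_option autoImplicit false
set_option linter.unusedSectionVars false

open NumberField IsDedekindDomain Filter Topology

noncomputable section

namespace Pool.Agent.T9h51.PS

open Pool.Agent.K3h30.RS

/-- Divisors of `p` are squarefree if `p` does not divide the discriminant. -/
theorem squarefree_of (L : Type) [Field L] [NumberField L] (p : ℕ) (hp : p.Prime)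
    (hd : ¬ p ∣ (discr L).natAbs) (I : Ideal (𝓞 L)) (hI : ((p : ℕ) : 𝓞 L) ∈ I) :
    Squarefree I := by
  intro x hx
  have hspan : (Ideal.span {(p : ℤ)}).map (algebraMap ℤ (𝓞 L)) = Ideal.span {((p : ℕ) : 𝓞 L)} := by
    rw [Ideal.map_span, Set.image_singleton]
    simp
  have hle : Ideal.span {((p : ℕ) : 𝓞 L)} ≤ I := by
    rw [Ideal.span_le, Set.singleton_subset_iff]
    exact hI
  have hm : (Ideal.span {(p : ℤ)}).IsMaximal :=
    PrincipalIdealRing.isMaximal_of_irreducible (Nat.prime_iff_prime_int.1 hp).irreducible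
  have h0 : (Ideal.span {(p : ℤ)}) ≠ ⊥ := by
    rw [Ne, Ideal.span_singleton_eq_bot]
    exact_mod_cast hp.ne_zero
  have h1 : x ^ 2 ∣ (Ideal.span {(p : ℤ)}).map (algebraMap ℤ (𝓞 L)) := by
    rw [pow_two, hspan]
    exact hx.trans (Ideal.dvd_iff_le.2 hle)
  have h2 := pow_sub_one_dvd_differentIdeal ℤ x 2 h0 h1
  rw [show 2 - 1 = 1 from rfl, pow_one] at h2
  have h3 : Ideal.absNorm x ∣ (discr L).natAbs := by
    rw [← NumberField.absNorm_differentIdeal (K := L) (𝒪 := 𝓞 L)]
    exact Ideal.absNorm_dvd_absNorm_of_le (Ideal.dvd_iff_le.1 h2)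
  have h4 : Ideal.absNorm x ∣ p ^ Module.finrank ℤ (𝓞 L) := by
    have h5 : Ideal.span {((p : ℕ) : 𝓞 L)} ≤ x :=
      hle.trans (Ideal.dvd_iff_le.1 ((dvd_mul_right x x).trans hx))
    have h6 := Ideal.absNorm_dvd_absNorm_of_le h5
    rwa [Ideal.absNorm_span_singleton, show ((p : ℕ) : 𝓞 L) = algebraMap ℤ (𝓞 L) (p : ℤ) by simp,
      Algebra.norm_algebraMap, Int.natAbs_pow, Int.natAbs_natCast] at h6
  have h7 : Nat.Coprime (p ^ Module.finrank ℤ (𝓞 L)) (discr L).natAbs :=
    Nat.Coprime.pow_left _ ((Nat.Prime.coprime_iff_not_dvd hp).2 hd)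
  have h8 : Ideal.absNorm x = 1 := Nat.eq_one_of_dvd_coprimes h7 h4 h3
  rw [Ideal.absNorm_eq_one_iff] at h8
  rw [h8, ← Ideal.one_eq_top]
  exact isUnit_one

section ram

variable (F H : Type) [Field F] [NumberField F] [Field H] [NumberField H] [Algebra F H]

/-- finitely many prime ideals ramify -/
theorem ram_finite : {v : HeightOneSpectrum (𝓞 F) | ¬ Squarefree (v.asIdeal.map (algebraMap (𝓞 F) (𝓞 H)))}.Finite := by
  have h0 : (discr H).natAbs ≠ 0 := Int.natAbs_ne_zero.2 (discr_ne_zero H)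
  have h1 : Ideal.span {(((discr H).natAbs : ℕ) : 𝓞 F)} ≠ 0 := by
    rw [Ne, Ideal.zero_eq_bot, Ideal.span_singleton_eq_bot]
    exact_mod_cast h0
  refine (Ideal.finite_factors h1).subset fun v hv => ?_
  change v.asIdeal ∣ _
  rw [Ideal.dvd_iff_le, Ideal.span_le, Set.singleton_subset_iff]
  have hp := bel_prime v
  have hpv : ((bel v : ℕ) : 𝓞 F) ∈ v.asIdeal := by
    have h2 := bel_over v
    have h3 : ((bel v : ℕ) : ℤ) ∈ Ideal.span {((bel v : ℕ) : ℤ)} := Ideal.mem_span_singleton_self _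
    rw [h2.over] at h3
    have h4 : algebraMap ℤ (𝓞 F) ((bel v : ℕ) : ℤ) ∈ v.asIdeal := h3
    simpa using h4
  have h2 : bel v ∣ (discr H).natAbs := by
    by_contra hd
    apply hv
    refine squarefree_of H (bel v) hp hd _ ?_
    have h3 := Ideal.mem_map_of_mem (algebraMap (𝓞 F) (𝓞 H)) hpv
    rwa [map_natCast] at h3
  obtain ⟨k, hk⟩ := h2
  change (((discr H).natAbs : ℕ) : 𝓞 F) ∈ v.asIdeal
  rw [hk]
  push_cast
  exact v.asIdeal.mul_mem_right _ hpv

end ram

variable {F H G : Type} [Field F] [NumberField F] [Field H] [NumberField H] [Algebra F H]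
  [CommGroup G] [Finite G] [MulSemiringAction G H] [IsGaloisGroup G F H]

theorem norm_eq_of_prime {v : HeightOneSpectrum (𝓞 F)} {P : HeightOneSpectrum (𝓞 H)} (hP : Above {v} P)
    (h : (Ideal.absNorm P.asIdeal).Prime) : Ideal.absNorm P.asIdeal = Ideal.absNorm v.asIdeal := by
  rw [above_singleton] at hP
  have hl : P.asIdeal.LiesOver v.asIdeal := ⟨hP.symm⟩
  have h1 := Ideal.absNorm_eq_pow_inertiaDeg'_of_liesOver P.asIdeal v.asIdeal v.isPrime v.ne_bot
  have h2 : v.asIdeal.inertiaDeg' P.asIdeal = 1 := by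
    rw [h1] at h
    exact Nat.Prime.eq_one_of_pow h
  rw [h1, h2, pow_one]

/-- unramified prime ideals of relative degree one split completely -/
theorem split_of_norm {v : HeightOneSpectrum (𝓞 F)} (hv : Squarefree (v.asIdeal.map (algebraMap (𝓞 F) (𝓞 H))))
    {P : HeightOneSpectrum (𝓞 H)} (hP : Above {v} P) (hN : Ideal.absNorm P.asIdeal = Ideal.absNorm v.asIdeal) (γ : G)
    (hγ : Fixes (Sum.inr P : Place H) γ) : γ = 1 := by
  have hPm := P.isMaximal
  have hvm := v.isMaximal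
  let _ : Field (𝓞 H ⧸ P.asIdeal) := Ideal.Quotient.field _
  haveI : Finite (𝓞 H ⧸ P.asIdeal) := Ideal.finiteQuotientOfFreeOfNeBot _ P.ne_bot
  haveI : Finite (𝓞 F ⧸ v.asIdeal) := Ideal.finiteQuotientOfFreeOfNeBot _ v.ne_bot
  have hcm := above_singleton.1 hP
  -- the residue fields are equal
  have hsur : Function.Surjective (Ideal.quotientMap P.asIdeal (algebraMap (𝓞 F) (𝓞 H)) hcm.ge) := by
    have hinj : Function.Injective (Ideal.quotientMap P.asIdeal (algebraMap (𝓞 F) (𝓞 H)) hcm.ge) :=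
      Ideal.quotientMap_injective' hcm.le
    rw [Ideal.absNorm_apply, Ideal.absNorm_apply, Submodule.cardQuot_apply, Submodule.cardQuot_apply] at hN
    exact ((Nat.bijective_iff_injective_and_card _).2 ⟨hinj, hN.symm⟩).2
  have hrep : ∀ y : 𝓞 H, ∃ a : 𝓞 F, y - algebraMap (𝓞 F) (𝓞 H) a ∈ P.asIdeal := by
    intro y
    obtain ⟨z, hz⟩ := hsur (Ideal.Quotient.mk P.asIdeal y)
    obtain ⟨a, rfl⟩ := Ideal.Quotient.mk_surjective z
    refine ⟨a, ?_⟩
    rw [Ideal.quotientMap_mk] at hz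
    rw [← Ideal.Quotient.eq]
    exact hz.symm
  have hpow : ∀ y : 𝓞 H, y ^ Ideal.absNorm v.asIdeal - y ∈ P.asIdeal := by
    intro y
    rw [← hN, ← Ideal.Quotient.eq, map_pow]
    let _ := Fintype.ofFinite (𝓞 H ⧸ P.asIdeal)
    have h1 : Ideal.absNorm P.asIdeal = Fintype.card (𝓞 H ⧸ P.asIdeal) := by
      rw [Ideal.absNorm_apply, Submodule.cardQuot_apply, Nat.card_eq_fintype_card]
    rw [h1]
    exact FiniteField.pow_card _
  -- automorphisms fixing the place act trivially on the residue field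
  have key : ∀ δ : G, Fixes (Sum.inr P : Place H) δ → IsFrob (H := H) v δ := by
    intro δ hδ
    have hmem : ∀ y : 𝓞 H, y ∈ P.asIdeal → δ • y ∈ P.asIdeal := by
      intro y hy
      have h1 : NumberField.HeightOneSpectrum.adicAbv H P (y : H) < 1 :=
        (HeightOneSpectrum.adicAbv_coe_lt_one_iff P _ _).2 hy
      have h2 := hδ (y : H)
      have h3 : NumberField.HeightOneSpectrum.adicAbv H P ((δ • y : 𝓞 H) : H) = NumberField.HeightOneSpectrum.adicAbv H P (y : H) := h2
      have h4 : NumberField.HeightOneSpectrum.adicAbv H P ((δ • y : 𝓞 H) : H) < 1 ↔ δ • y ∈ P.asIdeal :=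
        HeightOneSpectrum.adicAbv_coe_lt_one_iff P _ _
      rw [← h4, h3]
      exact h1
    have hfix : ∀ y : 𝓞 H, δ • y - y ∈ P.asIdeal := by
      intro y
      obtain ⟨a, ha⟩ := hrep y
      have h1 := hmem _ ha
      have h2 : δ • algebraMap (𝓞 F) (𝓞 H) a = algebraMap (𝓞 F) (𝓞 H) a := by
        have hc : SMulCommClass G F H := IsGaloisGroup.commutes
        apply RingOfIntegers.ext
        have h3 : ((algebraMap (𝓞 F) (𝓞 H) a : 𝓞 H) : H) = algebraMap F H (a : F) :=
          (IsScalarTower.algebraMap_apply (𝓞 F) (𝓞 H) H a).symm.trans (IsScalarTower.algebraMap_apply (𝓞 F) F H a)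
        change δ • ((algebraMap (𝓞 F) (𝓞 H) a : 𝓞 H) : H) = _
        rw [h3, smul_algebraMap]
      rw [smul_sub, h2] at h1
      have h3 := P.asIdeal.sub_mem h1 ha
      have h4 : δ • y - algebraMap (𝓞 F) (𝓞 H) a - (y - algebraMap (𝓞 F) (𝓞 H) a) = δ • y - y := by ring
      rwa [h4] at h3
    intro w' hw' x
    obtain ⟨β, hβ⟩ := (Pool.Agent.K3h25.RS.t_TRANS F H G v P hP).2 w' hw'
    rw [hβ]
    have h5 : β • (δ • (x : H) - (x : H) ^ Ideal.absNorm v.asIdeal) =
        (((δ • (β • x) - (β • x)) - ((β • x) ^ Ideal.absNorm v.asIdeal - (β • x)) : 𝓞 H) : H) := by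
      have h6 : ((β • x : 𝓞 H) : H) = β • (x : H) := rfl
      have h7 : ((δ • (β • x) : 𝓞 H) : H) = δ • β • (x : H) := rfl
      push_cast
      rw [smul_sub, smul_pow', smul_comm β δ]
      ring
    rw [h5]
    have h8 := P.asIdeal.sub_mem (hfix (β • x)) (hpow (β • x))
    exact (HeightOneSpectrum.valuation_lt_one_iff_mem (K := H) P _).2 h8
  exact Pool.Agent.K3h23.RS.t_FROBUNIQ F H G v hv γ 1 (key γ hγ) (key 1 fun x => by rw [one_smul])

end Pool.Agent.T9h51.PS
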