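import Pool.Agent.T9h51.PS.Down

/-!
# From `S` to `S ∪ {v}`
-/

set_option autoImplicit false
set_option linter.unusedSectionVars false

open NumberField IsDedekindDomain Filter Topology

noncomputable section

namespace Pool.Agent.T9h51.PS

open Pool.Agent.K3h30.RS

variable {F H G : Type} [Field F] [NumberField F] [Field H] [NumberField H] [Algebra F H]
  [CommGroup G] [Finite G] [MulSemiringAction G H] [IsGaloisGroup G F H]

theorem ev_zero_row {R : Type} [CommRing R] {r : ℕ} {U : Subgroup Hˣ} (κ : MonoidAlgebra ℚ G →+* R) (u : Wedge G r U)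
    (E : Fin r → Additive U →+ R) (i : Fin r) (h : ∀ x, E i x = 0) : ev κ u E = 0 := by
  unfold ev
  refine Finset.sum_eq_zero fun k _ => ?_
  rw [Matrix.det_eq_zero_of_row_eq_zero i, mul_zero]
  intro j
  exact h _

/-- the value of the restrictions -/
theorem value_res {r : ℕ} {U U' : Subgroup Hˣ} (hle : U ≤ U') (u : Wedge G r U) (ψ : Fin r → GHom G U') :
    (ev (RingHom.id (MonoidAlgebra ℚ G)) u fun a =>
      ((toQ (G := G) : MonoidAlgebra ℤ G →+ MonoidAlgebra ℚ G).comp (ψ a).f).comp
        (MonoidHom.toAdditive (Subgroup.inclusion hle))) = u.value fun a => res hle (ψ a) := by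
  rw [value_eq]
  rfl

theorem toQ_coe (z : MonoidAlgebra ℤ G) : (toQ (G := G) : MonoidAlgebra ℤ G →+ MonoidAlgebra ℚ G) z = toQ z := rfl

section up

variable [DecidableEq (HeightOneSpectrum (𝓞 F))] {v : HeightOneSpectrum (𝓞 F)} {S : Finset (HeightOneSpectrum (𝓞 F))}
  {P : HeightOneSpectrum (𝓞 H)} {m : ℕ} {w : Fin (m + 1) → Place H}

/-- **From `S` to `S ∪ {v}`**, `v` split completely and the prime ideal `P` over `v` principal outside `S`. -/
theorem popescu_up (Λ : LData F H G) (hS : Unram H S) (hv : v ∉ S) (hP : Above {v} P)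
    (hs : ∀ γ : G, Fixes (Sum.inr P : Place H) γ → γ = 1) (x : Hˣ) (hx1 : od P (Additive.ofMul x) = 1)
    (hx2 : ∀ w' : HeightOneSpectrum (𝓞 H), w' ≠ P → ¬ Above (S : Set (HeightOneSpectrum (𝓞 F))) w' →
      od w' (Additive.ofMul x) = 0)
    (h : Popescu Λ S w) : Popescu Λ (insert v S) (Fin.cons (Sum.inr P) w : Fin (m + 1 + 1) → Place H) := by
  classical
  obtain ⟨u, hE, hL⟩ := h
  have hσ := sigma_one Λ hS hv hP hs
  have hN : Ideal.absNorm P.asIdeal = Ideal.absNorm v.asIdeal := by
    have h1 := Λ.frob v (hS v hv)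
    rw [hσ] at h1
    exact absNorm_of_frob_one h1 hP
  have hxU : x ∈ US H (insert v S) := mem_insert_of hP x hx2
  have hle : US H S ≤ US H (insert v S) := US_mono (Finset.subset_insert v S)
  have hπ : (ordG (G := G) (insert v S) P).f (Additive.ofMul ⟨x, hxU⟩) = MonoidAlgebra.single 1 (1 : ℤ) :=
    ordG_gen hv hP hs ⟨x, hxU⟩ 1 hx1 hx2
  have hU' := US_act (G := G) (H := H) (insert v S)
  refine ⟨wedgeWith hle ⟨x, hxU⟩ u, ⟨fun χ hχ k => hE.inE χ ?_ k, fun χ hχ => ?_⟩, fun φ' => ?_⟩
  · rw [active_congr (oth_cons hv hP) χ] at hχ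
    exact hχ
  · rw [active_congr (oth_cons hv hP) χ] at hχ
    have h2 := lim_up Λ hS hv hσ χ (m + 1) (hE.stark χ hχ)
    have h3 : (wedgeWith hle ⟨x, hxU⟩ u).regulator (Fin.cons (Sum.inr P) w : Fin (m + 1 + 1) → Place H) =
        algebraMap ℝ (MonoidAlgebra ℝ G) (-Real.log (Ideal.absNorm P.asIdeal : ℝ)) * u.regulator w := by
      rw [regulator_eq_ev, ev_wedgeWith, Fin.sum_univ_succ]
      have h4 : ∑ i : Fin (m + 1), (-1) ^ ((i.succ : Fin (m + 1 + 1)) : ℕ) *
          regHom G ((Fin.cons (Sum.inr P) w : Fin (m + 1 + 1) → Place H) i.succ) (US H (insert v S))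
            (Additive.ofMul ⟨x, hxU⟩) * (ev (toR (G := G)) u fun b =>
          (regHom G ((Fin.cons (Sum.inr P) w : Fin (m + 1 + 1) → Place H) (i.succ.succAbove b)) (US H (insert v S))).comp
            (MonoidHom.toAdditive (Subgroup.inclusion hle))) = 0 := by
        refine Finset.sum_eq_zero fun i _ => ?_
        rw [ev_zero_row _ _ _ (0 : Fin (m + 1)), mul_zero]
        intro y
        have h5 : (i.succ.succAbove (0 : Fin (m + 1)) : Fin (m + 1 + 1)) = 0 := Fin.succ_succAbove_zero i
        rw [h5]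
        change reg G (Sum.inr P) ((Additive.toMul y : US H S) : Hˣ) = 0
        have h6 := reg_ordG (G := G) (insert v S) P (Subgroup.inclusion hle (Additive.toMul y))
        rw [(ordG_zero_iff hv hP _).2 (Additive.toMul y : US H S).2, map_zero, smul_zero] at h6
        exact h6
      refine (congrArg₂ (· + ·) ?_ h4).trans (add_zero _)
      have h5 : regHom G ((Fin.cons (Sum.inr P) w : Fin (m + 1 + 1) → Place H) 0) (US H (insert v S))
          (Additive.ofMul ⟨x, hxU⟩) = algebraMap ℝ (MonoidAlgebra ℝ G) (-Real.log (Ideal.absNorm P.asIdeal : ℝ)) := by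
        have h6 := reg_ordG (G := G) (insert v S) P ⟨x, hxU⟩
        rw [hπ] at h6
        have h7 : ((toR (G := G)).comp toQ) (MonoidAlgebra.single 1 (1 : ℤ)) = 1 := by
          have : (MonoidAlgebra.single 1 (1 : ℤ) : MonoidAlgebra ℤ G) = 1 := rfl
          rw [this, map_one]
        rw [h7, Algebra.smul_def, mul_one] at h6
        exact h6
      rw [h5]
      have h6 : (-1 : MonoidAlgebra ℝ G) ^ ((0 : Fin (m + 1 + 1)) : ℕ) = 1 := pow_zero _
      rw [h6, one_mul]
      congr 1
    rw [h3, charValue_algebraMap, hN]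
    have h8 : (Real.log (Ideal.absNorm v.asIdeal) : ℂ) * ((-1) ^ (m + 1) * charValue χ⁻¹ (u.regulator w)) =
        (-1) ^ (m + 1 + 1) * (((-Real.log (Ideal.absNorm v.asIdeal : ℝ) : ℝ) : ℂ) * charValue χ⁻¹ (u.regulator w)) := by
      push_cast
      ring
    rw [← h8]
    exact h2
  · have key : ∀ a : Fin (m + 1), ∃ ε : US H S, IsAb F (ε : Hˣ) ∧ ∀ ψ : GHom G (US H S),
        (Units.torsionOrder H : MonoidAlgebra ℚ G) *
          u.value (Fin.snoc (fun b : Fin m => res hle (φ' (a.succAbove b))) ψ) = toQ (ψ.f (Additive.ofMul ε)) :=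
      fun a => hL _
    choose ε hab hε using key
    obtain ⟨n, hn⟩ := exists_isExp H G
    let z : Fin (m + 1) → MonoidAlgebra ℤ G := fun a => (-1) ^ (a : ℕ) * (φ' a).f (Additive.ofMul ⟨x, hxU⟩)
    let y : MonoidAlgebra ℤ G := (-1) ^ (m + 1) *
      (φ' (Fin.last m)).f (Additive.ofMul (Subgroup.inclusion hle (ε (Fin.last m))))
    let e1 : Fin (m + 1) → US H (insert v S) := fun a =>
      ⟨gp (z a) ((Subgroup.inclusion hle (ε a) : US H (insert v S)) : Hˣ), gp_mem hU' _ (Subgroup.inclusion hle (ε a)).2⟩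
    let e2 : US H (insert v S) := ⟨gp y x, gp_mem hU' _ hxU⟩
    refine ⟨(∏ a, e1 a) * e2, ?_, fun ψ' => ?_⟩
    · rw [ab_iff hn, Subgroup.coe_mul, Subgroup.val_finsetProd]
      refine Kum.mul (Kum.prod _ _ fun a _ => ?_) ?_
      · exact ((ab_iff hn _).1 (hab a)).gpow (z a)
      · have h1 : Kum n (gp ((φ' (Fin.last m)).f (Additive.ofMul (Subgroup.inclusion hle (ε (Fin.last m))))) x) :=
          Kum.pow_hom hU' (fun x hx => US_sat _ _ (Units.torsionOrder_pos H) x hx) _
            ((ab_iff hn _).1 (hab (Fin.last m))) (φ' (Fin.last m)) x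
        change Kum n (gp y x)
        have h2 : y = (φ' (Fin.last m)).f (Additive.ofMul (Subgroup.inclusion hle (ε (Fin.last m)))) ∨
            y = -(φ' (Fin.last m)).f (Additive.ofMul (Subgroup.inclusion hle (ε (Fin.last m)))) := by
          rcases neg_one_pow_eq_or (MonoidAlgebra ℤ G) (m + 1) with h3 | h3
          · left
            change (-1) ^ (m + 1) * _ = _
            rw [h3, one_mul]
          · right
            change (-1) ^ (m + 1) * _ = _
            rw [h3, neg_one_mul]
        rcases h2 with h2 | h2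
        · rw [h2]
          exact h1
        · rw [h2, gp_neg]
          have := h1.zpow (-1)
          rwa [zpow_neg_one] at this
    · have hψ : Equi (US H (insert v S)) (RingHom.id _) ψ'.f := fun γ x y hxy => ψ'.equiv γ x y hxy
      have h1 : ψ'.f (Additive.ofMul ((∏ a, e1 a) * e2)) = ∑ a, z a * ψ'.f (Additive.ofMul (Subgroup.inclusion hle (ε a))) +
          y * ψ'.f (Additive.ofMul ⟨x, hxU⟩) := by
        rw [ofMul_mul, ofMul_prod, map_add, map_sum]
        congr 1
        · refine Finset.sum_congr rfl fun a _ => ?_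
          exact hψ.gp hU' (z a) _ _ rfl
        · exact hψ.gp hU' y ⟨x, hxU⟩ _ rfl
      rw [h1, value_eq, ev_wedgeWith, Fin.sum_univ_castSucc, mul_add, map_add, map_sum, Finset.mul_sum]
      congr 1
      · refine Finset.sum_congr rfl fun a _ => ?_
        have h2 := value_res hle u fun b => (Fin.snoc φ' ψ' : Fin (m + 1 + 1) → GHom G (US H (insert v S)))
          ((Fin.castSucc a).succAbove b)
        rw [h2]
        have h3 : (fun b => res hle ((Fin.snoc φ' ψ' : Fin (m + 1 + 1) → GHom G (US H (insert v S)))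
            ((Fin.castSucc a).succAbove b))) =
            (Fin.snoc (fun b : Fin m => res hle (φ' (a.succAbove b))) (res hle ψ') : Fin (m + 1) → GHom G (US H S)) := by
          funext b
          refine Fin.lastCases ?_ (fun b => ?_) b
          · have e3 : (Fin.castSucc a).succAbove (Fin.last m) = Fin.last (m + 1) := by
              rw [Fin.succAbove_of_le_castSucc _ _ (Fin.castSucc_le_castSucc_iff.2 (Fin.le_last a)), Fin.succ_last]
            rw [Fin.snoc_last, e3, Fin.snoc_last]
          · rw [Fin.snoc_castSucc, Fin.castSucc_succAbove_castSucc, Fin.snoc_castSucc]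
        rw [h3]
        have h4 := hε a (res hle ψ')
        have h5 : (Fin.snoc φ' ψ' : Fin (m + 1 + 1) → GHom G (US H (insert v S))) (Fin.castSucc a) = φ' a :=
          Fin.snoc_castSucc _ _ _
        rw [h5]
        have h6 : (res hle ψ').f (Additive.ofMul (ε a)) = ψ'.f (Additive.ofMul (Subgroup.inclusion hle (ε a))) := rfl
        rw [h6] at h4
        rw [map_mul, ← h4]
        change (Units.torsionOrder H : MonoidAlgebra ℚ G) * ((-1) ^ (a : ℕ) * toQ ((φ' a).f (Additive.ofMul ⟨x, hxU⟩)) * _) =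
          toQ ((-1) ^ (a : ℕ) * (φ' a).f (Additive.ofMul ⟨x, hxU⟩)) * _
        rw [map_mul, map_pow, map_neg, map_one]
        ring
      · have h2 := value_res hle u fun b => (Fin.snoc φ' ψ' : Fin (m + 1 + 1) → GHom G (US H (insert v S)))
          ((Fin.last (m + 1)).succAbove b)
        rw [h2]
        have h3 : (fun b => res hle ((Fin.snoc φ' ψ' : Fin (m + 1 + 1) → GHom G (US H (insert v S)))
            ((Fin.last (m + 1)).succAbove b))) =
            (Fin.snoc (fun b : Fin m => res hle (φ' ((Fin.last m).succAbove b))) (res hle (φ' (Fin.last m))) :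
              Fin (m + 1) → GHom G (US H S)) := by
          funext b
          rw [Fin.succAbove_last, Fin.snoc_castSucc]
          refine Fin.lastCases ?_ (fun b => ?_) b
          · rw [Fin.snoc_last]
          · rw [Fin.snoc_castSucc, Fin.succAbove_last]
        rw [h3]
        have h4 := hε (Fin.last m) (res hle (φ' (Fin.last m)))
        have h5 : (Fin.snoc φ' ψ' : Fin (m + 1 + 1) → GHom G (US H (insert v S))) (Fin.last (m + 1)) = ψ' :=
          Fin.snoc_last _ _
        rw [h5]
        have h6 : (res hle (φ' (Fin.last m))).f (Additive.ofMul (ε (Fin.last m))) =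
            (φ' (Fin.last m)).f (Additive.ofMul (Subgroup.inclusion hle (ε (Fin.last m)))) := rfl
        rw [h6] at h4
        change (Units.torsionOrder H : MonoidAlgebra ℚ G) * ((-1) ^ (m + 1) * toQ (ψ'.f (Additive.ofMul ⟨x, hxU⟩)) * _) =
          toQ ((-1) ^ (m + 1) * (φ' (Fin.last m)).f (Additive.ofMul (Subgroup.inclusion hle (ε (Fin.last m)))) * _)
        rw [map_mul, map_mul, ← h4, map_pow, map_neg, map_one]
        ring

end up

end Pool.Agent.T9h51.PS
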