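import Pool.Agent.T9h51.PS.Alg
import Pool.Agent.K3h25.RS.Trans
import Pool.Agent.K3h62.RS.LFUN

/-!
# Valuations and places
-/

set_option autoImplicit false
set_option linter.unusedSectionVars false

open NumberField IsDedekindDomain

noncomputable section

namespace Pool.Agent.T9h51.PS

open Pool.Agent.K3h30.RS

section ord

variable {H : Type} [Field H] [NumberField H]

/-- the order of `x` at the prime ideal `w` -/
def od (w : HeightOneSpectrum (𝓞 H)) : Additive Hˣ →+ ℤ where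
  toFun x := -(Multiplicative.toAdd (w.valuationOfNeZero (Additive.toMul x)))
  map_zero' := by simp
  map_add' x y := by
    rw [toMul_add, map_mul, toAdd_mul]
    ring

theorem val_od (w : HeightOneSpectrum (𝓞 H)) (x : Hˣ) :
    w.valuation H (x : H) = ((Multiplicative.ofAdd (-(od w (Additive.ofMul x))) : Multiplicative ℤ) : WithZero (Multiplicative ℤ)) := by
  rw [← HeightOneSpectrum.valuationOfNeZero_eq]
  congr 1
  change _ = Multiplicative.ofAdd (- -(Multiplicative.toAdd (w.valuationOfNeZero x)))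
  rw [neg_neg, ofAdd_toAdd]

theorem od_eq_of_val (w w' : HeightOneSpectrum (𝓞 H)) (x x' : Hˣ)
    (h : w.valuation H (x : H) = w'.valuation H (x' : H)) : od w (Additive.ofMul x) = od w' (Additive.ofMul x') := by
  rw [val_od, val_od, WithZero.coe_inj] at h
  have := Multiplicative.ofAdd.injective h
  omega

theorem od_zero_iff (w : HeightOneSpectrum (𝓞 H)) (x : Hˣ) :
    od w (Additive.ofMul x) = 0 ↔ w.valuation H (x : H) = 1 := by
  constructor
  · intro h
    rw [val_od, h, neg_zero, ofAdd_zero, WithZero.coe_one]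
  · intro h
    have h1 : w.valuation H (x : H) = w.valuation H ((1 : Hˣ) : H) := by rw [h, Units.val_one, map_one]
    rw [od_eq_of_val w w x 1 h1, ofMul_one, map_zero]

theorem log_av (w : HeightOneSpectrum (𝓞 H)) (x : Hˣ) :
    Real.log (av (Sum.inr w : Place H) (x : H)) = -(od w (Additive.ofMul x)) * Real.log (Ideal.absNorm w.asIdeal : ℝ) := by
  have hne : w.valuation H (x : H) ≠ 0 := (Valuation.ne_zero_iff _).2 x.ne_zero
  change Real.log (NumberField.HeightOneSpectrum.adicAbv H w (x : H)) = _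
  rw [HeightOneSpectrum.adicAbv_def, WithZeroMulInt.toNNReal_neg_apply _ hne]
  push_cast
  rw [Real.log_zpow]
  congr 1
  have h1 : WithZero.unzero hne = Multiplicative.ofAdd (-(od w (Additive.ofMul x))) := by
    rw [← WithZero.coe_inj, WithZero.coe_unzero, val_od]
  rw [h1, toAdd_ofAdd]
  push_cast
  rfl

theorem od_ge_iff (w : HeightOneSpectrum (𝓞 H)) (a : 𝓞 H) (x : Hˣ) (hx : (x : H) = (a : H)) (n : ℕ) :
    (n : ℤ) ≤ od w (Additive.ofMul x) ↔ a ∈ w.asIdeal ^ n := by
  rw [← HeightOneSpectrum.intValuation_le_pow_iff_mem]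
  have h1 : w.valuation H (x : H) = w.intValuation a := by
    rw [hx]
    exact HeightOneSpectrum.valuation_of_algebraMap w a
  rw [← h1, val_od]
  change _ ↔ ((Multiplicative.ofAdd (-(od w (Additive.ofMul x))) : Multiplicative ℤ) : WithZero (Multiplicative ℤ)) ≤
    ((Multiplicative.ofAdd (-(n : ℤ)) : Multiplicative ℤ) : WithZero (Multiplicative ℤ))
  rw [WithZero.coe_le_coe, Multiplicative.ofAdd_le]
  omega

/-- a power of a prime ideal is principal -/
theorem exists_gen (w : HeightOneSpectrum (𝓞 H)) : ∃ (h : ℕ) (x : Hˣ), 0 < h ∧ od w (Additive.ofMul x) = h ∧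
    ∀ w' : HeightOneSpectrum (𝓞 H), w' ≠ w → od w' (Additive.ofMul x) = 0 := by
  classical
  obtain ⟨h, hh, hp⟩ : ∃ h : ℕ, 0 < h ∧ (w.asIdeal ^ h).IsPrincipal := by
    refine ⟨Fintype.card (ClassGroup (𝓞 H)), Fintype.card_pos, ?_⟩
    have hmem : w.asIdeal ∈ nonZeroDivisors (Ideal (𝓞 H)) := mem_nonZeroDivisors_of_ne_zero w.ne_bot
    have h1 : ClassGroup.mk0 (⟨w.asIdeal, hmem⟩ ^ Fintype.card (ClassGroup (𝓞 H)) : nonZeroDivisors (Ideal (𝓞 H))) = 1 := by
      rw [map_pow, pow_card_eq_one]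
    rw [ClassGroup.mk0_eq_one_iff] at h1
    exact h1
  obtain ⟨a, ha⟩ := hp
  have ha' : w.asIdeal ^ h = Ideal.span {a} := ha
  have ha0 : a ≠ 0 := by
    rintro rfl
    rw [Ideal.span_singleton_eq_bot.2 rfl] at ha'
    exact pow_ne_zero h w.ne_bot ha'
  have haH : (a : H) ≠ 0 := by
    intro h0
    exact ha0 (FaithfulSMul.algebraMap_injective (𝓞 H) H (by rw [map_zero]; exact h0))
  refine ⟨h, Units.mk0 (a : H) haH, hh, ?_, fun w' hw' => ?_⟩
  · have h1 := (od_ge_iff w a (Units.mk0 (a : H) haH) rfl h).2 (by rw [ha']; exact Ideal.mem_span_singleton_self a)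
    have h2 : ¬ ((h + 1 : ℕ) : ℤ) ≤ od w (Additive.ofMul (Units.mk0 (a : H) haH)) := by
      rw [od_ge_iff w a (Units.mk0 (a : H) haH) rfl]
      intro h3
      have h4 : w.asIdeal ^ h ≤ w.asIdeal ^ (h + 1) := by
        rw [ha', Ideal.span_singleton_le_iff_mem]
        exact h3
      have h5 := Ideal.pow_right_strictAnti w.asIdeal w.ne_bot w.isPrime.ne_top (Nat.lt_succ_self h)
      exact absurd h4 (not_le_of_gt h5)
    push_cast at h2
    omega
  · have h1 := (od_ge_iff w' a (Units.mk0 (a : H) haH) rfl 0).2 (by rw [pow_zero, Ideal.one_eq_top]; trivial)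
    have h2 : ¬ ((1 : ℕ) : ℤ) ≤ od w' (Additive.ofMul (Units.mk0 (a : H) haH)) := by
      rw [od_ge_iff w' a (Units.mk0 (a : H) haH) rfl, pow_one]
      intro h3
      have h4 : w.asIdeal ^ h ≤ w'.asIdeal := by
        rw [ha', Ideal.span_singleton_le_iff_mem]
        exact h3
      have h5 : w.asIdeal ≤ w'.asIdeal := w'.isPrime.le_of_pow_le h4
      have h6 : w.asIdeal = w'.asIdeal := w.isMaximal.eq_of_le w'.isPrime.ne_top h5
      exact hw' (HeightOneSpectrum.ext h6.symm)
    push_cast at h2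
    omega

end ord

section conj

variable {F H G : Type} [Field F] [NumberField F] [Field H] [NumberField H] [Algebra F H]
  [CommGroup G] [Finite G] [MulSemiringAction G H] [IsGaloisGroup G F H]

theorem absNorm_conj (w w' : HeightOneSpectrum (𝓞 H)) (γ : G) (h : ∀ x : H, w'.valuation H x = w.valuation H (γ • x)) :
    Ideal.absNorm w'.asIdeal = Ideal.absNorm w.asIdeal := by
  have h1 : w.asIdeal = w'.asIdeal.map (MulSemiringAction.toRingEquiv G (𝓞 H) γ : 𝓞 H →+* 𝓞 H) := by
    have h2 : w'.asIdeal.map (MulSemiringAction.toRingEquiv G (𝓞 H) γ : 𝓞 H →+* 𝓞 H) =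
        w'.asIdeal.comap ((MulSemiringAction.toRingEquiv G (𝓞 H) γ).symm : 𝓞 H →+* 𝓞 H) :=
      (Ideal.comap_symm (MulSemiringAction.toRingEquiv G (𝓞 H) γ)).symm
    rw [h2]
    ext x
    rw [Ideal.mem_comap, ← HeightOneSpectrum.valuation_lt_one_iff_mem (K := H),
      ← HeightOneSpectrum.valuation_lt_one_iff_mem (K := H)]
    have h3 := h (((MulSemiringAction.toRingEquiv G (𝓞 H) γ).symm x : 𝓞 H) : H)
    have h4 : γ • ((((MulSemiringAction.toRingEquiv G (𝓞 H) γ).symm x : 𝓞 H) : H)) = (x : H) := by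
      have h5 : γ • ((MulSemiringAction.toRingEquiv G (𝓞 H) γ).symm x) = x :=
        (MulSemiringAction.toRingEquiv G (𝓞 H) γ).apply_symm_apply x
      have h6 := congrArg (fun y : 𝓞 H => (y : H)) h5
      exact h6
    rw [h4] at h3
    change w.valuation H (x : H) < 1 ↔ w'.valuation H (((MulSemiringAction.toRingEquiv G (𝓞 H) γ).symm x : 𝓞 H) : H) < 1
    rw [h3]
  rw [Ideal.absNorm_apply, Ideal.absNorm_apply, Submodule.cardQuot_apply, Submodule.cardQuot_apply]
  exact Nat.card_congr (Ideal.quotientEquiv w'.asIdeal w.asIdeal (MulSemiringAction.toRingEquiv G (𝓞 H) γ) h1).toEquiv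

theorem av_conj (w w' : HeightOneSpectrum (𝓞 H)) (γ : G) (h : ∀ x : H, w'.valuation H x = w.valuation H (γ • x)) (x : H) :
    av (Sum.inr w' : Place H) x = av (Sum.inr w : Place H) (γ • x) := by
  change NumberField.HeightOneSpectrum.adicAbv H w' x = NumberField.HeightOneSpectrum.adicAbv H w (γ • x)
  rw [HeightOneSpectrum.adicAbv_def, HeightOneSpectrum.adicAbv_def, h x]
  have h1 := absNorm_conj w w' γ h
  congr 2
  simp only [h1]

theorem conj_refl (p : Place H) : Conj G p p := ⟨1, fun x => by rw [one_smul]⟩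

theorem conj_symm {p p' : Place H} (h : Conj G p p') : Conj G p' p := by
  obtain ⟨γ, h⟩ := h
  exact ⟨γ⁻¹, fun x => by rw [h, smul_inv_smul]⟩

theorem conj_trans {p p' p'' : Place H} (h : Conj G p p') (h' : Conj G p' p'') : Conj G p p'' := by
  obtain ⟨γ, h⟩ := h
  obtain ⟨δ, h'⟩ := h'
  exact ⟨δ * γ, fun x => by rw [h, h', mul_smul]⟩

theorem fixes_conj {p p' : Place H} (h : Conj G p p') (δ : G) : Fixes p δ ↔ Fixes p' δ := by
  have key : ∀ {p p' : Place H}, Conj G p p' → Fixes p δ → Fixes p' δ := by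
    intro p p' h hf x
    obtain ⟨γ, h⟩ := conj_symm h
    rw [h, h, smul_smul, mul_comm, ← smul_smul, hf]
  exact ⟨key h, key (conj_symm h)⟩

theorem comap_conj {w w' : HeightOneSpectrum (𝓞 H)} (h : Conj G (Sum.inr w : Place H) (Sum.inr w')) :
    w.asIdeal.comap (algebraMap (𝓞 F) (𝓞 H)) = w'.asIdeal.comap (algebraMap (𝓞 F) (𝓞 H)) := by
  obtain ⟨γ, h⟩ := h
  ext a
  rw [Ideal.mem_comap, Ideal.mem_comap]
  have h1 := h ((algebraMap (𝓞 F) (𝓞 H) a : 𝓞 H) : H)
  have h2 : γ • ((algebraMap (𝓞 F) (𝓞 H) a : 𝓞 H) : H) = ((algebraMap (𝓞 F) (𝓞 H) a : 𝓞 H) : H) := by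
    have hc : SMulCommClass G F H := IsGaloisGroup.commutes
    have h3 : ((algebraMap (𝓞 F) (𝓞 H) a : 𝓞 H) : H) = algebraMap F H (a : F) := by
      exact (IsScalarTower.algebraMap_apply (𝓞 F) (𝓞 H) H a).symm.trans (IsScalarTower.algebraMap_apply (𝓞 F) F H a)
    rw [h3, smul_algebraMap]
  rw [h2] at h1
  change NumberField.HeightOneSpectrum.adicAbv H w _ = NumberField.HeightOneSpectrum.adicAbv H w' _ at h1
  have e1 : NumberField.HeightOneSpectrum.adicAbv H w ((algebraMap (𝓞 F) (𝓞 H) a : 𝓞 H) : H) < 1 ↔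
      algebraMap (𝓞 F) (𝓞 H) a ∈ w.asIdeal := HeightOneSpectrum.adicAbv_coe_lt_one_iff w _ _
  have e2 : NumberField.HeightOneSpectrum.adicAbv H w' ((algebraMap (𝓞 F) (𝓞 H) a : 𝓞 H) : H) < 1 ↔
      algebraMap (𝓞 F) (𝓞 H) a ∈ w'.asIdeal := HeightOneSpectrum.adicAbv_coe_lt_one_iff w' _ _
  rw [← e1, ← e2, h1]

theorem not_conj_inl_inr (q : InfinitePlace H) (w : HeightOneSpectrum (𝓞 H)) : ¬ Conj G (Sum.inl q : Place H) (Sum.inr w) := by
  rintro ⟨γ, h⟩
  have h1 := h (2 : H)
  have h2 : γ • (2 : H) = 2 := by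
    rw [← MulSemiringAction.toRingHom_apply, map_ofNat]
  rw [h2] at h1
  change q (2 : H) ^ q.mult = NumberField.HeightOneSpectrum.adicAbv H w (2 : H) at h1
  have h3 : q (2 : H) = 2 := by
    have h4 : q ((2 : ℕ) : H) = 2 := by
      rw [← InfinitePlace.norm_embedding_eq, map_natCast]
      norm_num
    exact_mod_cast h4
  have h4 := HeightOneSpectrum.adicAbv_natCast_le_one H w 2
  have h5 : (1 : ℝ) < 2 ^ q.mult := one_lt_pow₀ (by norm_num) (InfinitePlace.mult_pos (w := q)).ne'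
  rw [h3] at h1
  push_cast at h4
  linarith

theorem inS_conj (S : Set (HeightOneSpectrum (𝓞 F))) {p p' : Place H} (h : Conj G p p') : InS S p ↔ InS S p' := by
  rcases p with q | w <;> rcases p' with q' | w'
  · exact Iff.rfl
  · exact absurd h (not_conj_inl_inr q w')
  · exact absurd (conj_symm h) (not_conj_inl_inr q' w)
  · have h1 := comap_conj (F := F) h
    change Above S w ↔ Above S w'
    unfold Above
    rw [h1]

/-- places over the same prime ideal are conjugate -/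
theorem conj_above {v : HeightOneSpectrum (𝓞 F)} {w w' : HeightOneSpectrum (𝓞 H)} (h : Above {v} w) (h' : Above {v} w') :
    Conj G (Sum.inr w' : Place H) (Sum.inr w) := by
  obtain ⟨γ, hγ⟩ := (Pool.Agent.K3h25.RS.t_TRANS F H G v w h).2 w' h'
  exact ⟨γ, fun x => av_conj w w' γ hγ x⟩

theorem frob_fixes {v : HeightOneSpectrum (𝓞 F)} {γ : G} (hγ : IsFrob (H := H) v γ) {w : HeightOneSpectrum (𝓞 H)}
    (hw : Above {v} w) : Fixes (Sum.inr w : Place H) γ := by
  have hprime := w.isPrime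
  have hN : Ideal.absNorm v.asIdeal ≠ 0 := by
    rw [Ne, Ideal.absNorm_eq_zero_iff]
    exact v.ne_bot
  have h1 : ∀ x : 𝓞 H, γ • x - x ^ Ideal.absNorm v.asIdeal ∈ w.asIdeal := by
    intro x
    rw [← HeightOneSpectrum.valuation_lt_one_iff_mem (K := H)]
    exact hγ w hw x
  have h2 : ∀ x : 𝓞 H, x ∈ w.asIdeal ↔ γ • x ∈ w.asIdeal := by
    intro x
    constructor
    · intro hx
      have h3 := w.asIdeal.add_mem (h1 x) (Ideal.pow_mem_of_mem _ hx _ (Nat.pos_of_ne_zero hN))
      rwa [sub_add_cancel] at h3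
    · intro hx
      have h3 := w.asIdeal.sub_mem hx (h1 x)
      rw [sub_sub_cancel] at h3
      exact hprime.mem_of_pow_mem _ h3
  intro x
  exact (av_conj w w γ (fun x => Pool.Agent.K3h25.RS.val_aut w w γ h2 x) x).symm

/-- the norm of a prime ideal over a prime ideal with trivial Frobenius automorphism -/
theorem absNorm_of_frob_one {v : HeightOneSpectrum (𝓞 F)} (hγ : IsFrob (H := H) v (1 : G)) {w : HeightOneSpectrum (𝓞 H)}
    (hw : Above {v} w) : Ideal.absNorm w.asIdeal = Ideal.absNorm v.asIdeal := by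
  have hwm := w.isMaximal
  letI : Field (𝓞 H ⧸ w.asIdeal) := Ideal.Quotient.field _
  haveI : Finite (𝓞 H ⧸ w.asIdeal) := Ideal.finiteQuotientOfFreeOfNeBot _ w.ne_bot
  have h1 : ∀ x : 𝓞 H, x - x ^ Ideal.absNorm v.asIdeal ∈ w.asIdeal := by
    intro x
    rw [← HeightOneSpectrum.valuation_lt_one_iff_mem (K := H)]
    have := hγ w hw x
    rw [one_smul] at this
    exact this
  have h2 : ∀ y : 𝓞 H ⧸ w.asIdeal, y ^ Ideal.absNorm v.asIdeal = y := by
    intro y
    obtain ⟨x, rfl⟩ := Ideal.Quotient.mk_surjective y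
    rw [← map_pow, eq_comm, Ideal.Quotient.eq]
    exact h1 x
  have hN := Pool.Agent.K3h62.RS.two_le_absNorm v
  apply le_antisymm
  · obtain ⟨g, hg⟩ := IsCyclic.exists_ofOrder_eq_natCard (α := (𝓞 H ⧸ w.asIdeal)ˣ)
    have h3 : g ^ (Ideal.absNorm v.asIdeal - 1) = 1 := by
      apply Units.ext
      have h4 := h2 (g : 𝓞 H ⧸ w.asIdeal)
      have h5 : Ideal.absNorm v.asIdeal = (Ideal.absNorm v.asIdeal - 1) + 1 := by omega
      rw [h5, pow_succ] at h4
      push_cast
      exact mul_right_cancel₀ g.ne_zero (by rw [h4, one_mul])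
    have h4 := Nat.le_of_dvd (by omega) (orderOf_dvd_of_pow_eq_one h3)
    rw [hg, Nat.card_units] at h4
    rw [Ideal.absNorm_apply w.asIdeal, Submodule.cardQuot_apply]
    have h5 : 0 < Nat.card (𝓞 H ⧸ w.asIdeal) := Nat.card_pos
    omega
  · rw [above_singleton] at hw
    rw [Ideal.absNorm_apply w.asIdeal, Ideal.absNorm_apply v.asIdeal, Submodule.cardQuot_apply, Submodule.cardQuot_apply]
    have hle : v.asIdeal ≤ w.asIdeal.comap (algebraMap (𝓞 F) (𝓞 H)) := hw.ge
    refine Nat.card_le_card_of_injective (Ideal.quotientMap w.asIdeal (algebraMap (𝓞 F) (𝓞 H)) hle) ?_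
    exact Ideal.quotientMap_injective' hw.le

end conj

section units

variable {F H G : Type} [Field F] [NumberField F] [Field H] [NumberField H] [Algebra F H]
  [CommGroup G] [Finite G] [MulSemiringAction G H] [IsGaloisGroup G F H]

/-- the group of `S`-units -/
abbrev US (H : Type) [Field H] [NumberField H] [Algebra F H] (S : Finset (HeightOneSpectrum (𝓞 F))) : Subgroup Hˣ :=
  unitGroup (H := H) (S : Set (HeightOneSpectrum (𝓞 F))) ∅

theorem mem_US (S : Finset (HeightOneSpectrum (𝓞 F))) (x : Hˣ) : x ∈ US H S ↔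
    ∀ w : HeightOneSpectrum (𝓞 H), ¬ Above (S : Set (HeightOneSpectrum (𝓞 F))) w → od w (Additive.ofMul x) = 0 := by
  constructor
  · intro h w hw
    rw [od_zero_iff]
    exact h.1 w hw
  · intro h
    refine ⟨fun w hw => (od_zero_iff w x).1 (h w hw), fun w hw => ?_⟩
    obtain ⟨v, hv, -⟩ := hw
    exact absurd hv (Set.notMem_empty v)

theorem US_act (S : Finset (HeightOneSpectrum (𝓞 F))) (γ : G) (x : Hˣ) (hx : x ∈ US H S) : act γ x ∈ US H S :=
  act_mem (F := F) Pool.Agent.K3h25.RS.t_TRANS _ _ γ hx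

theorem US_sat (S : Finset (HeightOneSpectrum (𝓞 F))) (n : ℕ) (hn : 0 < n) (x : Hˣ) (hx : x ^ n ∈ US H S) : x ∈ US H S := by
  rw [mem_US] at hx ⊢
  intro w hw
  have h1 := hx w hw
  rw [ofMul_pow, map_nsmul, nsmul_eq_mul] at h1
  rcases mul_eq_zero.1 h1 with h2 | h2
  · exfalso
    have : n = 0 := by exact_mod_cast h2
    omega
  · exact h2

theorem US_mono {S S' : Finset (HeightOneSpectrum (𝓞 F))} (h : S ⊆ S') : US H S ≤ US H S' := by
  intro x hx
  rw [mem_US] at hx ⊢
  intro w hw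
  apply hx w
  rintro ⟨v, hv, h'⟩
  exact hw ⟨v, h hv, h'⟩

/-- the `G`-homomorphism given by the order at `w` -/
def ordG (S : Finset (HeightOneSpectrum (𝓞 F))) (w : HeightOneSpectrum (𝓞 H)) : GHom G (US H S) :=
  mkG (US H S) (US_act S) ((od w).comp (MonoidHom.toAdditive (US H S).subtype))

theorem coeff_ordG (S : Finset (HeightOneSpectrum (𝓞 F))) (w : HeightOneSpectrum (𝓞 H)) (x : US H S) (γ : G) :
    ((ordG (G := G) S w).f (Additive.ofMul x)).coeff γ = od w (Additive.ofMul (act γ⁻¹ (x : Hˣ))) := rfl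

variable {v : HeightOneSpectrum (𝓞 F)} {S : Finset (HeightOneSpectrum (𝓞 F))} {w : HeightOneSpectrum (𝓞 H)}

theorem above_insert_iff [DecidableEq (HeightOneSpectrum (𝓞 F))] (w' : HeightOneSpectrum (𝓞 H)) :
    Above ((insert v S : Finset (HeightOneSpectrum (𝓞 F))) : Set (HeightOneSpectrum (𝓞 F))) w' ↔
      Above {v} w' ∨ Above (S : Set (HeightOneSpectrum (𝓞 F))) w' := by
  constructor
  · rintro ⟨v', hv', h⟩
    rw [Finset.coe_insert, Set.mem_insert_iff] at hv'
    rcases hv' with rfl | hv'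
    · exact Or.inl ⟨v', rfl, h⟩
    · exact Or.inr ⟨v', hv', h⟩
  · rintro (⟨v', hv', h⟩ | ⟨v', hv', h⟩)
    · refine ⟨v', ?_, h⟩
      rw [Finset.coe_insert]
      exact Or.inl hv'
    · refine ⟨v', ?_, h⟩
      rw [Finset.coe_insert]
      exact Or.inr hv'

theorem not_above_of (hv : v ∉ S) (hw : Above {v} w) : ¬ Above (S : Set (HeightOneSpectrum (𝓞 F))) w := by
  rw [above_iff hw]
  exact hv

theorem ordG_zero_iff [DecidableEq (HeightOneSpectrum (𝓞 F))] (hv : v ∉ S) (hw : Above {v} w) (x : US H (insert v S)) :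
    (ordG (G := G) (insert v S) w).f (Additive.ofMul x) = 0 ↔ (x : Hˣ) ∈ US H S := by
  constructor
  · intro h
    rw [mem_US]
    intro w' hw'
    by_cases h1 : Above {v} w'
    · obtain ⟨γ, hγ⟩ := (Pool.Agent.K3h25.RS.t_TRANS F H G v w hw).2 w' h1
      have h2 := coeff_ordG (insert v S) w x γ⁻¹
      rw [h, inv_inv] at h2
      have h3 : od w (Additive.ofMul (act γ (x : Hˣ))) = 0 := by
        rw [← h2]
        simp
      rw [← h3]
      exact od_eq_of_val w' w (x : Hˣ) (act γ (x : Hˣ)) (hγ _)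
    · have h2 := (mem_US (insert v S) (x : Hˣ)).1 x.2
      apply h2
      rw [above_insert_iff]
      rintro (h3 | h3)
      · exact h1 h3
      · exact hw' h3
  · intro h
    ext γ
    rw [coeff_ordG]
    have h1 := (mem_US S _).1 (US_act S γ⁻¹ _ h) w (not_above_of hv hw)
    rw [h1]
    simp

theorem ordG_gen [DecidableEq (HeightOneSpectrum (𝓞 F))] (hv : v ∉ S) (hw : Above {v} w)
    (hs : ∀ γ : G, Fixes (Sum.inr w : Place H) γ → γ = 1) (a : US H (insert v S)) (h : ℤ)
    (ha : od w (Additive.ofMul (a : Hˣ)) = h)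
    (ha' : ∀ w' : HeightOneSpectrum (𝓞 H), w' ≠ w → ¬ Above (S : Set (HeightOneSpectrum (𝓞 F))) w' →
      od w' (Additive.ofMul (a : Hˣ)) = 0) :
    (ordG (G := G) (insert v S) w).f (Additive.ofMul a) = MonoidAlgebra.single 1 h := by
  classical
  ext γ
  rw [coeff_ordG, MonoidAlgebra.coeff_single, Finsupp.single_apply]
  split_ifs with h1
  · rw [← h1, inv_one, act_one, ha]
  · obtain ⟨w', hw1, hw2⟩ := (Pool.Agent.K3h25.RS.t_TRANS F H G v w hw).1 γ⁻¹
    have h2 : w' ≠ w := by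
      rintro rfl
      have h3 : Fixes (Sum.inr w' : Place H) γ⁻¹ := fun x => (av_conj w' w' γ⁻¹ hw2 x).symm
      have h4 := hs _ h3
      exact h1 (inv_eq_one.1 h4).symm
    have h3 := ha' w' h2 (not_above_of hv hw1)
    rw [← h3]
    exact (od_eq_of_val w' w (a : Hˣ) (act γ⁻¹ (a : Hˣ)) (hw2 _)).symm

theorem mem_insert_of [DecidableEq (HeightOneSpectrum (𝓞 F))] (hw : Above {v} w) (a : Hˣ)
    (ha' : ∀ w' : HeightOneSpectrum (𝓞 H), w' ≠ w → ¬ Above (S : Set (HeightOneSpectrum (𝓞 F))) w' →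
      od w' (Additive.ofMul a) = 0) : a ∈ US H (insert v S) := by
  rw [mem_US]
  intro w' hw'
  rw [above_insert_iff, not_or] at hw'
  refine ha' w' ?_ hw'.2
  rintro rfl
  exact hw'.1 hw

end units

end Pool.Agent.T9h51.PS
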